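import Pool.Agent.H722.Med.Cross

/-! The leader cellular automaton with private half-line machines, and its trellis form. -/

namespace Pool.Agent.H722.Med

inductive Mv
  | L | S | R
deriving DecidableEq

/-- A machine on a half-line work tape, reading also a static bit of the scanned cell. -/
structure HTM where
  Q : Type
  W : Type
  q0 : Q
  w0 : W
  b0 : W
  δ : Q → W → Bool → Option (Q × W × Mv)

/-- Static symbol: level-zero flag, fold bit, value bit. -/
structure Sy where
  a : Bool
  s : Bool
  z : Bool

inductive Sts
  | surv | fresh | plain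
deriving DecidableEq

inductive Sig
  | A (r : Bool)
  | B (s z : Bool)
  | D (r : Bool)
deriving DecidableEq

structure Cell (M : HTM) where
  st : Sy
  status : Sts
  reg : Bool
  sig : Option Sig
  wk : M.W
  hd : Option M.Q

variable (M : HTM)

def wiping : Option Sig → Bool
  | some (.A _) => true
  | some (.B _ _) => true
  | _ => false

/-- layer one: new `(status, reg, sig)` from the incoming signal -/
def lay1 (inc : Option Sig) (st : Sy) (status : Sts) (reg : Bool) :
    Option (Sts × Bool × Option Sig) :=
  match inc, status with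
  | none, s => some (s, reg, none)
  | some (.A r), .plain => some (.plain, reg, some (.A r))
  | some (.A r), .fresh => if r = reg then some (.plain, reg, some (.B st.s st.z)) else none
  | some (.A _), .surv => none
  | some (.B s z), .plain => some (.plain, reg, some (.B s z))
  | some (.B _ _), .fresh => none
  | some (.B s z), .surv => if s then some (.fresh, z, some (.D z)) else some (.surv, z, some (.A z))
  | some (.D r), .plain => some (.plain, reg, some (.D r))
  | some (.D _), .fresh => none
  | some (.D r), .surv => if r = reg then some (.surv, reg, none) else none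

def Cell.inz {M : HTM} (c : Cell M) : Bool := if c.status = .surv then false else c.st.z

def Cell.eff {M : HTM} (c : Cell M) : Option M.Q := if wiping c.sig then none else c.hd

def Cell.act {M : HTM} (c : Cell M) : Option (M.Q × M.W × Mv) :=
  c.eff.bind fun q => M.δ q c.wk c.inz

def outR {M : HTM} : Option (M.Q × M.W × Mv) → Option M.Q
  | some (q, _, .R) => some q
  | _ => none

def outL {M : HTM} : Option (M.Q × M.W × Mv) → Option M.Q
  | some (q, _, .L) => some q
  | _ => none

def outS {M : HTM} : Option (M.Q × M.W × Mv) → Option M.Q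
  | some (q, _, .S) => some q
  | _ => none

def outW {M : HTM} (w : M.W) : Option (M.Q × M.W × Mv) → M.W
  | some (_, w', _) => w'
  | none => w

/-- layer two: new private content -/
def lay2 {M : HTM} (l c r : Cell M) : M.W × Option M.Q :=
  if c.status = .surv ∧ wiping c.sig = true then (M.w0, some M.q0)
  else
    (if wiping c.sig then M.b0 else outW c.wk c.act,
      (if c.status = .surv then none else outR l.act).or
        ((outS c.act).or (if wiping c.sig then none else outL r.act)))

/-- the private machine of a leader reports -/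
def report {M : HTM} (c : Cell M) : Prop :=
  c.status = .surv ∧ c.eff.isSome = true ∧ c.act = none

open Classical in
noncomputable def G {M : HTM} (l c r : Cell M) : Option (Cell M) :=
  if report c then none
  else (lay1 l.sig c.st c.status c.reg).map fun o =>
    ⟨c.st, o.1, o.2.1, o.2.2, (lay2 l c r).1, (lay2 l c r).2⟩

def initC (a : Sy) : Cell M :=
  ⟨a, if a.a then .fresh else .surv, false, some (if a.a then .D false else .A false), M.b0, none⟩

/-- the trellis form of the cellular automaton -/
noncomputable def sysOf : Sys Sy (Cell M ⊕ Cell M × Cell M) where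
  ι a := .inl (initC M a)
  F u v := match u, v with
    | .inl a, .inl b => some (.inr (a, b))
    | .inr (a, b), .inr (_, c) => (G a b c).map .inl
    | _, _ => none

variable (x : ℤ → Sy)

/-- space-time diagram -/
noncomputable def sg : ℕ → ℤ → Option (Cell M)
  | 0, j => some (initC M (x j))
  | t + 1, j => (sg t (j - 1)).bind fun l => (sg t j).bind fun c => (sg t (j + 1)).bind fun r =>
      G l c r

theorem sg_succ_some {t : ℕ} {j : ℤ} {c' : Cell M} (h : sg M x (t + 1) j = some c') :
    ∃ l c r, sg M x t (j - 1) = some l ∧ sg M x t j = some c ∧ sg M x t (j + 1) = some r ∧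
      G l c r = some c' := by
  rw [sg] at h
  cases h1 : sg M x t (j - 1) with
  | none => simp [h1] at h
  | some l =>
    cases h2 : sg M x t j with
    | none => simp [h1, h2] at h
    | some c =>
      cases h3 : sg M x t (j + 1) with
      | none => simp [h1, h2, h3] at h
      | some r => exact ⟨l, c, r, rfl, rfl, rfl, by simpa [h1, h2, h3] using h⟩

theorem sg_cone {t : ℕ} {j : ℤ} (h : sg M x t j ≠ none) :
    ∀ (t' : ℕ) (j' : ℤ), t' ≤ t → j - (t - t') ≤ j' → j' ≤ j + (t - t') → sg M x t' j' ≠ none := by
  induction t generalizing j with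
  | zero =>
    intro t' j' h1 h2 h3
    obtain rfl : t' = 0 := by omega
    simp [sg]
  | succ t ih =>
    intro t' j' h1 h2 h3
    obtain ⟨c', hc'⟩ := Option.ne_none_iff_exists'.1 h
    obtain ⟨l, c, r, hl, hc, hr, -⟩ := sg_succ_some M x hc'
    by_cases ht : t' = t + 1
    · subst ht
      have : j' = j := by push_cast at *; omega
      subst this; exact h
    · by_cases e1 : j' < j
      · exact ih (j := j - 1) (by rw [hl]; simp) t' j' (by omega) (by push_cast at *; omega)
          (by push_cast at *; omega)
      · by_cases e2 : j < j'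
        · exact ih (j := j + 1) (by rw [hr]; simp) t' j' (by omega) (by push_cast at *; omega)
            (by push_cast at *; omega)
        · exact ih (j := j) (by rw [hc]; simp) t' j' (by omega) (by push_cast at *; omega)
            (by push_cast at *; omega)

theorem cw_eq (t : ℕ) : (∀ u, (sysOf M).cw x (2 * t) u = (sg M x t (u + t)).map .inl) ∧
    (∀ u, (sysOf M).cw x (2 * t + 1) u = (sg M x t (u + t)).bind fun a =>
      (sg M x t (u + t + 1)).map fun b => .inr (a, b)) := by
  induction t with
  | zero =>
    constructor
    · intro u; simp [Sys.cw, sg, sysOf]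
    · intro u; simp [Sys.cw, sg, sysOf]
  | succ t ih =>
    have h1 : ∀ u, (sysOf M).cw x (2 * (t + 1)) u = (sg M x (t + 1) (u + ((t + 1 : ℕ) : ℤ))).map .inl := by
      intro u
      rw [show 2 * (t + 1) = (2 * t + 1) + 1 by ring, Sys.cw, ih.2, ih.2, sg]
      have e1 : u + ((t + 1 : ℕ) : ℤ) - 1 = u + t := by push_cast; ring
      have e2 : u + 1 + (t : ℤ) = u + t + 1 := by ring
      have e3 : u + ((t + 1 : ℕ) : ℤ) = u + t + 1 := by push_cast; ring
      rw [e1, e2, e3]
      cases sg M x t (u + t) with
      | none => rfl
      | some a =>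
        cases sg M x t (u + t + 1) with
        | none => rfl
        | some b =>
          cases sg M x t (u + t + 1 + 1) with
          | none => rfl
          | some c => rfl
    refine ⟨h1, fun u => ?_⟩
    rw [Sys.cw, h1, h1]
    have e1 : u + 1 + ((t + 1 : ℕ) : ℤ) = u + ((t + 1 : ℕ) : ℤ) + 1 := by ring
    rw [e1]
    cases sg M x (t + 1) (u + ((t + 1 : ℕ) : ℤ)) with
    | none => rfl
    | some a =>
      cases sg M x (t + 1) (u + ((t + 1 : ℕ) : ℤ) + 1) with
      | none => rfl
      | some b => rfl

theorem sg_ne_none_of_cw {t : ℕ} {j : ℤ} (h : (sysOf M).cw x (2 * t) (j - t) ≠ none) :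
    sg M x t j ≠ none := by
  rw [(cw_eq M x t).1] at h
  intro h'
  apply h
  rw [show j - (t : ℤ) + t = j by ring, h']
  rfl

theorem cw_ne_none_of_sg (h : ∀ t j, sg M x t j ≠ none) (n : ℕ) (u : ℤ) :
    (sysOf M).cw x n u ≠ none := by
  obtain ⟨t, rfl | rfl⟩ : ∃ t, n = 2 * t ∨ n = 2 * t + 1 := ⟨n / 2, by omega⟩
  · rw [(cw_eq M x t).1]
    obtain ⟨c, hc⟩ := Option.ne_none_iff_exists'.1 (h t (u + t))
    rw [hc]; simp
  · rw [(cw_eq M x t).2]
    obtain ⟨c, hc⟩ := Option.ne_none_iff_exists'.1 (h t (u + t))
    obtain ⟨c', hc'⟩ := Option.ne_none_iff_exists'.1 (h t (u + t + 1))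
    rw [hc, hc']; simp

end Pool.Agent.H722.Med
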