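import Pool.Agent.H722.Med.Mach3

namespace Pool.Agent.H722.Med

open Pool.Agent.H38.CM Relation

theorem exists_htm {chk : List Bool → Bool} (hc : Primrec chk) : ∃ M : HTM, Finite M.Q ∧
    Finite M.W ∧ ∀ ω : ℕ → Bool,
      ((∀ n, chk (pre ω (n + 1)) = true) → ∀ n, hrun M ω n ≠ none) ∧
      ((∃ n, chk (pre ω (n + 1)) = false) → ∃ n, Rep M ω n) := by
  obtain ⟨w, hw⟩ := exists_body hc
  set K := max 4 (mxr w) with hK
  have hok : ∀ s, (mprog w s).ok K := by
    intro s
    cases s with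
    | Q0 => simp only [mprog, Instr.ok]; omega
    | I1 => simp only [mprog, Instr.ok]; omega
    | C => simp only [mprog, Instr.ok]; omega
    | F => trivial
    | body s => exact ok_map _ _ _ (ins_ok K w s (by omega))
  refine ⟨htm K (mprog w) .Q0, inferInstanceAs (Finite (MS w × PhR)),
    inferInstanceAs (Finite (Bool × (Fin K → Bool))), fun ω => ?_⟩
  -- state at the beginning of round `n`
  let At (n : ℕ) (v : ℕ → ℕ) : Prop := v 0 = Encodable.encode (pre ω n) ∧ v 1 = 0 ∧ v 2 = 0 ∧ v 3 = n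
  have round : ∀ n v, At n v → ∃ u, TransGen (CStep (mprog w) ω) (.Q0, v) (.C, u) ∧
      u 0 = Encodable.encode (pre ω (n + 1)) ∧ u 1 = 0 ∧
      u 2 = (if chk (pre ω (n + 1)) then 1 else 0) ∧ u 3 = n + 1 := by
    rintro n v ⟨h0, h1, h2, h3⟩
    have s1 : CStep (mprog w) ω (.Q0, v) ((if ω (v 3 + 1) then .I1 else .body (entry w)),
        Function.update v 3 (v 3 + 1)) :=
      IStep.q 3 (fun b => if b then MS.I1 else .body (entry w)) v
    rw [h3] at s1
    cases hb : ω (n + 1) with
    | false =>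
      rw [hb] at s1
      simp only [Bool.false_eq_true, if_false] at s1
      obtain ⟨u, e, a0, a1, a2, a3⟩ := hw (pre ω n) (ω (n + 1)) (n + 1)
        (Function.update v 3 (n + 1)) (by simp [h0]) (by simp [h1, hb]) (by simp)
      rw [← pre_succ] at a0 a2
      exact ⟨u, TransGen.trans_left (TransGen.single s1) (body_run e), a0, a1, a2, a3⟩
    | true =>
      rw [hb] at s1
      simp only [if_true] at s1
      have s2 : CStep (mprog w) ω (.I1, Function.update v 3 (n + 1)) (.body (entry w),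
          Function.update (Function.update v 3 (n + 1)) 1 ((Function.update v 3 (n + 1)) 1 + 1)) :=
        IStep.q 1 (fun _ => MS.body (entry w)) _
      obtain ⟨u, e, a0, a1, a2, a3⟩ := hw (pre ω n) (ω (n + 1)) (n + 1)
        (Function.update (Function.update v 3 (n + 1)) 1 ((Function.update v 3 (n + 1)) 1 + 1))
        (by simp [h0]) (by simp [h1, hb]) (by simp)
      rw [← pre_succ] at a0 a2
      exact ⟨u, TransGen.trans_left ((TransGen.single s1).tail s2) (body_run e), a0, a1, a2, a3⟩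
  have next : ∀ n v, At n v → chk (pre ω (n + 1)) = true →
      ∃ u, At (n + 1) u ∧ TransGen (CStep (mprog w) ω) (.Q0, v) (.Q0, u) := by
    intro n v hv hch
    obtain ⟨u, h1, a0, a1, a2, a3⟩ := round n v hv
    rw [hch] at a2
    refine ⟨Function.update u 2 0, ⟨by simp [a0], by simp [a1], by simp, by simp [a3]⟩,
      h1.tail ?_⟩
    exact IStep.dn 2 MS.F MS.Q0 u 0 a2
  have init : At 0 (fun _ => 0) := ⟨by simp [pre], rfl, rfl, rfl⟩
  constructor
  · intro hall
    have key : ∀ n, ∃ v, At n v ∧ ∃ m, n ≤ m ∧ hrun (htm K (mprog w) .Q0) ω m =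
        some ⟨(.Q0, .ex), 0, tpv K v⟩ := by
      intro n
      induction n with
      | zero => exact ⟨_, init, 0, le_rfl, by rw [hrun]; rw [hinit_eq]⟩
      | succ n ih =>
        obtain ⟨v, hv, m, hm, hr⟩ := ih
        obtain ⟨u, hu, ht⟩ := next n v hv (hall n)
        obtain ⟨m', hm', hr'⟩ := sim_run (s0 := MS.Q0) hok ht
        refine ⟨u, hu, m + m', by omega, ?_⟩
        rw [hrun_eq_hit, hit_add, ← hrun_eq_hit, hr]
        exact hr'
    intro n hn
    obtain ⟨v, -, m, hm, hr⟩ := key n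
    rw [hrun_eq_hit] at hr hn
    obtain ⟨t, rfl⟩ : ∃ t, m = n + t := ⟨m - n, by omega⟩
    rw [hit_add, hn] at hr
    simp at hr
  · rintro ⟨n0, hn0⟩
    classical
    have hex : ∃ n, chk (pre ω (n + 1)) = false := ⟨n0, hn0⟩
    set N := Nat.find hex with hN
    have hNf : chk (pre ω (N + 1)) = false := Nat.find_spec hex
    have hNt : ∀ n < N, chk (pre ω (n + 1)) = true := fun n hn => by
      have := Nat.find_min hex hn
      simpa using this
    have key : ∀ n ≤ N, ∃ v, At n v ∧ ∃ m, hrun (htm K (mprog w) .Q0) ω m =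
        some ⟨(.Q0, .ex), 0, tpv K v⟩ := by
      intro n
      induction n with
      | zero => intro _; exact ⟨_, init, 0, by rw [hrun]; rw [hinit_eq]⟩
      | succ n ih =>
        intro hn
        obtain ⟨v, hv, m, hr⟩ := ih (by omega)
        obtain ⟨u, hu, ht⟩ := next n v hv (hNt n (by omega))
        obtain ⟨m', hm', hr'⟩ := sim_run (s0 := MS.Q0) hok ht
        refine ⟨u, hu, m + m', ?_⟩
        rw [hrun_eq_hit, hit_add, ← hrun_eq_hit, hr]
        exact hr'
    obtain ⟨v, hv, m, hr⟩ := key N le_rfl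
    obtain ⟨u, h1, a0, a1, a2, a3⟩ := round N v hv
    rw [hNf] at a2
    have h2 : TransGen (CStep (mprog w) ω) (.Q0, v) (.F, u) :=
      h1.tail (IStep.dz 2 MS.F MS.Q0 u a2)
    obtain ⟨m', hm', hr'⟩ := sim_run (s0 := MS.Q0) hok h2
    refine ⟨m + m', ⟨(.F, .ex), 0, tpv K u⟩, ?_, rfl, ?_⟩
    · rw [hrun_eq_hit, hit_add, ← hrun_eq_hit, hr]
      exact hr'
    · simp [htm, dlt, mprog]

end Pool.Agent.H722.Med
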