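import Pool.Agent.H722.Med.Lay2

/-! Decoding of good regions, and goodness of the standard static sequences. -/

namespace Pool.Agent.H722.Med

variable (M : HTM) (x : ℤ → Sy)

def lev (k : ℕ) (j : ℤ) : Bool := alv x k j && !alv x (k + 1) j

/-- all space-time cells with cone in `[lo, hi]` are defined -/
def DG (lo hi : ℤ) : Prop := ∀ (t : ℕ) (j : ℤ), lo ≤ j - t → j + t ≤ hi → sg M x t j ≠ none

def v2 (i : ℤ) : ℕ := padicValNat 2 i.natAbs

theorem v2_spec {i : ℤ} (h : i ≠ 0) (m : ℕ) : (2 : ℤ) ^ m ∣ i ↔ m ≤ v2 i := by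
  have h1 : i.natAbs ≠ 0 := Int.natAbs_ne_zero.2 h
  rw [v2, ← padicValNat_dvd_iff_le h1, ← Int.natAbs_dvd_natAbs, Int.natAbs_pow]
  rfl

theorem v2_unique {i : ℤ} (h : i ≠ 0) {m : ℕ} (h1 : (2 : ℤ) ^ m ∣ i) (h2 : ¬ (2 : ℤ) ^ (m + 1) ∣ i) :
    v2 i = m := by
  rw [v2_spec h] at h1 h2
  omega

/-- The input read by the private machine of a leader. -/
def omy (y : ℕ → Bool) : ℕ → Bool := fun i => if i = 0 then false else y (v2 i)

variable {M x}

theorem DG.sp {lo hi : ℤ} (h : DG M x lo hi) (k : ℕ) : SPc x k (lo + Tt k) (hi - Tt k) :=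
  (main_k (M := M) (x := x) k).2 _ _ fun j h1 h2 => h _ _ (by omega) (by omega)

theorem DG.alt {lo hi : ℤ} (h : DG M x lo hi) {k : ℕ} {j : ℤ} (h1 : lo + (Tt k + 2 ^ k) ≤ j)
    (h2 : j ≤ hi - (Tt k + 2 ^ k)) : ALT x k j :=
  alt_of (M := M) (h _ _ (by push_cast; omega) (by push_cast; omega))

theorem alv_of_le {m k : ℕ} (h : m ≤ k) {j : ℤ} (hj : alv x k j = true) : alv x m j = true := by
  induction k with
  | zero => obtain rfl : m = 0 := by omega
            exact hj
  | succ k ih =>
    rcases Nat.lt_or_ge m (k + 1) with h1 | h1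
    · exact ih (by omega) (alv_succ x hj)
    · obtain rfl : m = k + 1 := by omega
      exact hj

theorem DG.lead {lo hi : ℤ} (h : DG M x lo hi) {m : ℕ} {l j : ℤ} (hl : alv x m l = true)
    (h1 : lo + Tt m ≤ l) (h2 : l ≤ hi - Tt m) (h3 : lo + Tt m ≤ j) (h4 : j ≤ hi - Tt m) :
    alv x m j = true ↔ (2 : ℤ) ^ m ∣ j - l := by
  obtain ⟨c, hc⟩ := h.sp m
  have a1 := (hc l h1 h2).1 hl
  rw [hc j h3 h4]
  constructor
  · intro h5
    have := dvd_sub h5 a1
    rwa [show j - c - (l - c) = j - l by ring] at this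
  · intro h5
    have := dvd_add h5 a1
    rwa [show j - l + (l - c) = j - c by ring] at this

theorem Tt_mono {a b : ℕ} (h : a ≤ b) : Tt a ≤ Tt b := by
  induction b with
  | zero => obtain rfl : a = 0 := by omega
            exact le_rfl
  | succ b ih =>
    rcases Nat.lt_or_ge a (b + 1) with h1 | h1
    · have := ih (by omega)
      rw [Tt]; omega
    · obtain rfl : a = b + 1 := by omega
      exact le_rfl

/-- in the zone of a leader, levels are two-adic valuations -/
theorem DG.zone_lev {lo hi : ℤ} (h : DG M x lo hi) {K : ℕ} {l : ℤ} (hl : alv x K l = true)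
    (h1 : lo + Tt K ≤ l) (h2 : l + 2 ^ K ≤ hi - Tt K) {i : ℕ} (hi0 : 0 < i) (hi1 : i < 2 ^ K) :
    lev x (v2 i) (l + i) = true := by
  have hiz : (i : ℤ) ≠ 0 := by omega
  have hi1z : (i : ℤ) < 2 ^ K := by exact_mod_cast hi1
  have hpos : (0 : ℤ) < 2 ^ K := by positivity
  have hv : v2 i < K := by
    by_contra h3
    push Not at h3
    have := (v2_spec hiz K).2 h3
    exact not_dvd_small (by omega) hi1z this
  have key : ∀ m ≤ K, (alv x m (l + i) = true ↔ (2 : ℤ) ^ m ∣ i) := by
    intro m hm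
    have hT := Tt_mono hm
    rw [h.lead (alv_of_le hm hl) (by omega) (by omega) (by omega) (by omega)]
    rw [show l + (i : ℤ) - l = i by ring]
  unfold lev
  rw [(key _ hv.le).2 ((v2_spec hiz _).2 le_rfl)]
  have : alv x (v2 i + 1) (l + i) = false := by
    rw [← Bool.not_eq_true, key _ (by omega), v2_spec hiz]; omega
  rw [this]; rfl

/-- registers of leaders agree in a good region -/
theorem DG.rg_const {lo hi : ℤ} (h : DG M x lo hi) {k : ℕ} {j j' : ℤ}
    (hj : alv x k j = true) (hj' : alv x k j' = true) (h1 : lo + (Tt k + 2 ^ k) ≤ j) (h2 : j ≤ j')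
    (h3 : j' ≤ hi - (Tt k + 2 ^ k)) : rg x k j = rg x k j' := by
  have hpos : (0 : ℤ) < 2 ^ k := by positivity
  obtain ⟨q, hq⟩ := (h.lead hj (by omega) (by omega) (by omega) (by omega)).1 hj'
  have hq0 : 0 ≤ q := by
    by_contra h4; push Not at h4
    nlinarith
  have key : ∀ q : ℕ, j + 2 ^ k * q ≤ hi - (Tt k + 2 ^ k) → rg x k j = rg x k (j + 2 ^ k * q) := by
    intro q
    induction q with
    | zero => intro _; simp
    | succ q ih =>
      intro hq
      push_cast at hq
      have hq' : (0 : ℤ) ≤ 2 ^ k * q := by positivity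
      have e1 : j + 2 ^ k * ((q + 1 : ℕ) : ℤ) = j + 2 ^ k * q + 2 ^ k := by push_cast; ring
      rw [e1, ih (by nlinarith)]
      have hlead : alv x k (j + 2 ^ k * q + 2 ^ k) = true := by
        rw [h.lead hj (by omega) (by omega) (by nlinarith) (by nlinarith)]
        exact ⟨q + 1, by ring⟩
      have hA := h.alt (k := k) (j := j + 2 ^ k * q + 2 ^ k) (by omega) (by nlinarith) hlead
      have := hA.2.2
      rwa [show j + 2 ^ k * (q : ℤ) + 2 ^ k - 2 ^ k = j + 2 ^ k * q by ring] at this
  obtain ⟨qn, rfl⟩ := Int.eq_ofNat_of_zero_le hq0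
  have e2 : j' = j + 2 ^ k * qn := by linarith
  rw [e2]
  exact key qn (by rw [← e2]; exact h3)

/-- the value bits of level `m` cells agree in a good region -/
theorem DG.z_const {lo hi : ℤ} (h : DG M x lo hi) {m : ℕ} {i i' : ℤ}
    (hi1 : lev x m i = true) (hi2 : lev x m i' = true) (h1 : lo + Tt (m + 2) ≤ i) (h2 : i ≤ i')
    (h3 : i' ≤ hi - Tt (m + 2)) : (x i).z = (x i').z := by
  have hpos : (0 : ℤ) < 2 ^ m := by positivity
  have e1 : (Tt (m + 2) : ℤ) = Tt (m + 1) + 4 * 2 ^ m := by rw [Tt]; push_cast; ring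
  have e2 : (Tt (m + 1) : ℤ) = Tt m + 2 * 2 ^ m := by rw [Tt]; push_cast; ring
  have e3 : (2 : ℤ) ^ (m + 1) = 2 * 2 ^ m := by ring
  have key : ∀ i, lev x m i = true → lo + Tt (m + 2) ≤ i → i ≤ hi - Tt (m + 2) →
      alv x (m + 1) (i + 2 ^ m) = true ∧ rg x (m + 1) (i + 2 ^ m) = (x i).z := by
    intro i h4 h5 h6
    unfold lev at h4
    rw [Bool.and_eq_true] at h4
    have h7 : alv x m (i + 2 ^ m) = true := by
      rw [h.lead h4.1 (by omega) (by omega) (by omega) (by omega)]
      exact ⟨1, by ring⟩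
    have hA := h.alt (k := m) (j := i + 2 ^ m) (by omega) (by omega) h7
    rw [show i + 2 ^ m - 2 ^ m = i by ring] at hA
    have h8 := h4.2
    constructor
    · rw [hA.2.1]; exact h8
    · simp [rg]
  obtain ⟨a1, a2⟩ := key i hi1 h1 (by omega)
  obtain ⟨b1, b2⟩ := key i' hi2 (by omega) h3
  rw [← a2, ← b2]
  exact h.rg_const a1 b1 (by omega) (by omega) (by omega)

/-- leaders are dense -/
theorem DG.dense {lo hi : ℤ} (h : DG M x lo hi) (k : ℕ) {a : ℤ} (h1 : lo + Tt k ≤ a)
    (h2 : a + 2 ^ k ≤ hi - Tt k) : ∃ j, a ≤ j ∧ j < a + 2 ^ k ∧ alv x k j = true := by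
  have hpos : (0 : ℤ) < 2 ^ k := by positivity
  obtain ⟨c, hc⟩ := h.sp k
  refine ⟨a + (c - a) % 2 ^ k, ?_, ?_, ?_⟩
  · have := Int.emod_nonneg (c - a) (ne_of_gt hpos); omega
  · have := Int.emod_lt_of_pos (c - a) hpos; omega
  · have g1 := Int.emod_nonneg (c - a) (ne_of_gt hpos)
    have g2 := Int.emod_lt_of_pos (c - a) hpos
    rw [hc _ (by omega) (by omega)]
    refine ⟨-((c - a) / 2 ^ k), ?_⟩
    have := Int.emod_add_mul_ediv (c - a) (2 ^ k)
    linarith

theorem DG.dense_lev {lo hi : ℤ} (h : DG M x lo hi) (k : ℕ) {a : ℤ} (h1 : lo + Tt (k + 2) ≤ a)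
    (h2 : a + Tt (k + 2) ≤ hi - Tt (k + 2)) :
    ∃ j, a ≤ j ∧ j ≤ a + Tt (k + 2) ∧ lev x k j = true := by
  have hpos : (0 : ℤ) < 2 ^ k := by positivity
  have e1 : (Tt (k + 2) : ℤ) = Tt (k + 1) + 4 * 2 ^ k := by rw [Tt]; push_cast; ring
  have e2 : (Tt (k + 1) : ℤ) = Tt k + 2 * 2 ^ k := by rw [Tt]; push_cast; ring
  obtain ⟨j, h3, h4, h5⟩ := h.dense k (a := a) (by omega) (by omega)
  cases hb : alv x (k + 1) j with
  | false => exact ⟨j, h3, by omega, by simp [lev, h5, hb]⟩
  | true =>
    refine ⟨j + 2 ^ k, by omega, by omega, ?_⟩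
    have h7 : alv x k (j + 2 ^ k) = true := by
      rw [h.lead h5 (by omega) (by omega) (by omega) (by omega)]
      exact ⟨1, by ring⟩
    have hA := h.alt (k := k) (j := j + 2 ^ k) (by omega) (by omega) h7
    rw [show j + 2 ^ k - 2 ^ k = j by ring, hb] at hA
    have := hA.2.1
    simp [lev, h7, this]

def Mg (m : ℕ) : ℤ := Tt (m + 2) + 2

/-- Soundness of decoding. -/
theorem decode_sound (V : ℤ → Prop) (hgood : ∀ p q, V p → V q → DG M x (p + 2) (q - 2))
    (hunb : ∀ N : ℕ, ∃ p q, V p ∧ V q ∧ p + N ≤ q) :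
    ∃ y : ℕ → Bool, (∀ m i p q, V p → V q → p + Mg m ≤ i → i ≤ q - Mg m → lev x m i = true →
      (x i).z = y m) ∧ ∀ n, ¬ Rep M (omy y) n := by
  classical
  have hex : ∀ m, ∃ i p q, V p ∧ V q ∧ p + Mg m ≤ i ∧ i ≤ q - Mg m ∧ lev x m i = true := by
    intro m
    obtain ⟨p, q, hp, hq, hpq⟩ := hunb (3 * Tt (m + 2) + 4)
    obtain ⟨j, h1, h2, h3⟩ := (hgood p q hp hq).dense_lev m (a := p + 2 + Tt (m + 2)) (by omega)
      (by push_cast at hpq; omega)
    exact ⟨j, p, q, hp, hq, by unfold Mg; omega, by unfold Mg; push_cast at hpq; omega, h3⟩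
  choose im pm qm hpm hqm h1m h2m h3m using hex
  refine ⟨fun m => (x (im m)).z, ?_, ?_⟩
  · intro m i p q hp hq h1 h2 h3
    have hVmin : V (min p (pm m)) := by
      rcases min_choice p (pm m) with h | h <;> rw [h] <;> [exact hp; exact hpm m]
    have hVmax : V (max q (qm m)) := by
      rcases max_choice q (qm m) with h | h <;> rw [h] <;> [exact hq; exact hqm m]
    have hD := hgood _ _ hVmin hVmax
    have g1 := h1m m
    have g2 := h2m m
    unfold Mg at h1 h2 g1 g2
    rcases le_total i (im m) with h4 | h4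
    · exact hD.z_const h3 (h3m m) (by omega) h4 (by omega)
    · exact (hD.z_const (h3m m) h3 (by omega) h4 (by omega)).symm
  · intro n hrep
    set k := n + 1 with hk
    have hnk : n + 2 < 2 ^ (k + 1) := by
      have := Nat.lt_two_pow_self (n := n + 2); rw [hk]; exact this
    have hnk' : n + 2 < 2 * 2 ^ k := by rw [pow_succ] at hnk; omega
    -- choose a big good interval
    obtain ⟨p, q, hp, hq, hpq⟩ := hunb (10 * Tt (k + 3) + 10 + 10 * 2 ^ (k + 1))
    have hD := hgood p q hp hq
    have hT1 := Tt_mono (show k + 1 ≤ k + 3 by omega)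
    have hT2 := Tt_mono (show k ≤ k + 3 by omega)
    have hposK : (0 : ℤ) < 2 ^ (k + 1) := by positivity
    push_cast at hpq
    obtain ⟨l, g1, g2, g3⟩ := hD.dense (k + 1) (a := p + 2 + 2 * Tt (k + 3)) (by omega) (by omega)
    have hag : ∀ i < n + 1, omg x l i = omy (fun m => (x (im m)).z) i := by
      intro i hi
      unfold omg omy
      by_cases h0 : i = 0
      · simp [h0]
      · rw [if_neg h0, if_neg h0]
        have hlev := hD.zone_lev (K := k + 1) g3 (by omega) (by omega) (i := i) (by omega) (by omega)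
        have hiz : (i : ℤ) ≠ 0 := by omega
        have hv : v2 i < k + 1 := by
          by_contra h3
          push Not at h3
          have := (v2_spec hiz (k + 1)).2 h3
          have hi1z : (i : ℤ) < 2 ^ (k + 1) := by
            have : i < 2 ^ (k + 1) := by omega
            exact_mod_cast this
          exact not_dvd_small (by omega) hi1z this
        -- apply the first part
        have hT3 := Tt_mono (show v2 i + 2 ≤ k + 3 by omega)
        have hi1z : (i : ℤ) < 2 ^ (k + 1) := by
          have : i < 2 ^ (k + 1) := by omega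
          exact_mod_cast this
        have hVmin : V (min p (pm (v2 i))) := by
          rcases min_choice p (pm (v2 i)) with h | h <;> rw [h] <;> [exact hp; exact hpm _]
        have hVmax : V (max q (qm (v2 i))) := by
          rcases max_choice q (qm (v2 i)) with h | h <;> rw [h] <;> [exact hq; exact hqm _]
        have hD' := hgood _ _ hVmin hVmax
        have f1 := h1m (v2 i)
        have f2 := h2m (v2 i)
        unfold Mg at f1 f2
        rcases le_total (l + i) (im (v2 i)) with h4 | h4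
        · exact hD'.z_const hlev (h3m _) (by omega) h4 (by omega)
        · exact (hD'.z_const (h3m _) hlev (by omega) h4 (by omega)).symm
    refine no_rep (k := k) g3 (t := n) (by omega) (hD _ _ ?_ ?_) ?_
    · have e1 : (Tt (k + 3) : ℤ) = Tt (k + 2) + 2 * 2 ^ (k + 2) := by rw [Tt]; push_cast; ring
      have e2 : (Tt (k + 2) : ℤ) = Tt (k + 1) + 2 * 2 ^ (k + 1) := by rw [Tt]; push_cast; ring
      have hnz : (n : ℤ) + 2 < 2 ^ (k + 1) := by exact_mod_cast hnk
      have e3 : (2 : ℤ) ^ (k + 2) = 2 * 2 ^ (k + 1) := by ring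
      push_cast; omega
    · have hnz : (n : ℤ) + 2 < 2 ^ (k + 1) := by exact_mod_cast hnk
      push_cast; omega
    · obtain ⟨c, c1, c2, c3⟩ := hrep
      refine ⟨c, ?_, c2, ?_⟩
      · rw [hrun_congr n (fun i hi => hag i (by omega))]; exact c1
      · rw [hag 0 (by omega)]; exact c3

/-- Existence of decodable cells. -/
theorem decode_complete (V : ℤ → Prop) (hgood : ∀ p q, V p → V q → DG M x (p + 2) (q - 2))
    (hunb : ∀ N : ℕ, ∃ p q, V p ∧ V q ∧ p + N ≤ q) (m : ℕ) :
    ∃ i p q, V p ∧ V q ∧ p + Mg m ≤ i ∧ i ≤ q - Mg m ∧ lev x m i = true := by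
  obtain ⟨p, q, hp, hq, hpq⟩ := hunb (3 * Tt (m + 2) + 4)
  obtain ⟨j, h1, h2, h3⟩ := (hgood p q hp hq).dense_lev m (a := p + 2 + Tt (m + 2)) (by omega)
    (by push_cast at hpq; omega)
  exact ⟨j, p, q, hp, hq, by unfold Mg; omega, by unfold Mg; push_cast at hpq; omega, h3⟩

/-! ### the standard static sequence -/

def xy (y : ℕ → Bool) : ℤ → Sy := fun i =>
  ⟨decide (i % 2 = 1), decide ((i / 2 ^ v2 i) % 4 = 1), if i = 0 then false else y (v2 i)⟩

theorem alv_xy (y : ℕ → Bool) (k : ℕ) : ∀ j, alv (xy y) k j = true ↔ (2 : ℤ) ^ k ∣ j := by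
  induction k with
  | zero => intro j; simp [alv]
  | succ k ih =>
    intro j
    cases k with
    | zero =>
      simp only [alv, xy, zero_add, pow_one, Bool.not_eq_true', decide_eq_false_iff_not]
      omega
    | succ k =>
      rw [alv, Bool.and_eq_true, ih]
      have hpos : (0 : ℤ) < 2 ^ k := by positivity
      constructor
      · rintro ⟨⟨q, hq⟩, h2⟩
        have e1 : j - 2 ^ k = 2 ^ k * (2 * q - 1) := by rw [hq]; ring
        have hne : j - 2 ^ k ≠ 0 := by
          rw [e1]; exact mul_ne_zero (by positivity) (by omega)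
        have hv : v2 (j - 2 ^ k) = k := by
          refine v2_unique hne ⟨_, e1⟩ ?_
          rw [e1, pow_succ]
          rintro ⟨r, hr⟩
          have : (2 * q - 1) = 2 * r := by
            have h3 : (2 : ℤ) ^ k * (2 * q - 1) = 2 ^ k * (2 * r) := by rw [hr]; ring
            exact mul_left_cancel₀ (ne_of_gt hpos) h3
          omega
        have hdiv : (j - 2 ^ k) / 2 ^ v2 (j - 2 ^ k) = 2 * q - 1 := by
          rw [hv, e1]; exact Int.mul_ediv_cancel_left _ (ne_of_gt hpos)
        simp only [xy, hdiv, Bool.not_eq_true', decide_eq_false_iff_not] at h2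
        have : 2 ∣ q := by omega
        obtain ⟨r, rfl⟩ := this
        exact ⟨r, by rw [hq]; ring⟩
      · rintro ⟨r, hr⟩
        have e0 : j = 2 ^ (k + 1) * (2 * r) := by rw [hr]; ring
        refine ⟨⟨2 * r, e0⟩, ?_⟩
        have e1 : j - 2 ^ k = 2 ^ k * (2 * (2 * r) - 1) := by rw [e0]; ring
        have hne : j - 2 ^ k ≠ 0 := by
          rw [e1]; exact mul_ne_zero (by positivity) (by omega)
        have hv : v2 (j - 2 ^ k) = k := by
          refine v2_unique hne ⟨_, e1⟩ ?_
          rw [e1, pow_succ]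
          rintro ⟨r', hr'⟩
          have : (2 * (2 * r) - 1) = 2 * r' := by
            have h3 : (2 : ℤ) ^ k * (2 * (2 * r) - 1) = 2 ^ k * (2 * r') := by rw [hr']; ring
            exact mul_left_cancel₀ (ne_of_gt hpos) h3
          omega
        have hdiv : (j - 2 ^ k) / 2 ^ v2 (j - 2 ^ k) = 2 * (2 * r) - 1 := by
          rw [hv, e1]; exact Int.mul_ediv_cancel_left _ (ne_of_gt hpos)
        simp only [xy, hdiv, Bool.not_eq_true', decide_eq_false_iff_not]
        omega

theorem rg_xy (y : ℕ → Bool) {k : ℕ} {j j' : ℤ} (h : (2 : ℤ) ^ k ∣ j) (h' : (2 : ℤ) ^ k ∣ j') :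
    rg (xy y) k j = rg (xy y) k j' := by
  cases k with
  | zero => rfl
  | succ k =>
    have key : ∀ j : ℤ, (2 : ℤ) ^ (k + 1) ∣ j → rg (xy y) (k + 1) j = y k := by
      rintro j ⟨q, hq⟩
      have hpos : (0 : ℤ) < 2 ^ k := by positivity
      have e1 : j - 2 ^ k = 2 ^ k * (2 * q - 1) := by rw [hq]; ring
      have hne : j - 2 ^ k ≠ 0 := by
        rw [e1]; exact mul_ne_zero (by positivity) (by omega)
      have hv : v2 (j - 2 ^ k) = k := by
        refine v2_unique hne ⟨_, e1⟩ ?_
        rw [e1, pow_succ]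
        rintro ⟨r, hr⟩
        have : (2 * q - 1) = 2 * r := by
          have h3 : (2 : ℤ) ^ k * (2 * q - 1) = 2 ^ k * (2 * r) := by rw [hr]; ring
          exact mul_left_cancel₀ (ne_of_gt hpos) h3
        omega
      simp [rg, xy, hne, hv]
    rw [key j h, key j' h']

theorem exists_epoch (t : ℕ) : ∃ k s, t = Tt k + s ∧ s < 2 * 2 ^ k := by
  induction t with
  | zero => exact ⟨0, 0, rfl, by simp⟩
  | succ t ih =>
    obtain ⟨k, s, rfl, hs⟩ := ih
    rcases Nat.lt_or_ge (s + 1) (2 * 2 ^ k) with h | h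
    · exact ⟨k, s + 1, by ring, h⟩
    · refine ⟨k + 1, 0, ?_, by positivity⟩
      rw [Tt]; omega

theorem omg_xy (y : ℕ → Bool) {K : ℕ} {l : ℤ} (hl : (2 : ℤ) ^ K ∣ l) {i : ℕ} (hi : i < 2 ^ K) :
    omg (xy y) l i = omy y i := by
  unfold omg omy
  by_cases h0 : i = 0
  · simp [h0]
  rw [if_neg h0, if_neg h0]
  have hiz : (i : ℤ) ≠ 0 := by omega
  have hi1z : (i : ℤ) < 2 ^ K := by exact_mod_cast hi
  have hnd : ¬ (2 : ℤ) ^ K ∣ i := not_dvd_small (by omega) hi1z
  have hne : l + i ≠ 0 := by
    intro h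
    apply hnd
    have : (i : ℤ) = -l := by omega
    rw [this]; exact (dvd_neg).2 hl
  have hv : v2 (l + i) = v2 i := by
    have hvi : v2 (i : ℤ) < K := by
      by_contra h3; push Not at h3
      exact hnd ((v2_spec hiz K).2 h3)
    refine v2_unique hne ?_ ?_
    · exact dvd_add (dvd_trans (pow_dvd_pow _ hvi.le) hl) ((v2_spec hiz _).2 le_rfl)
    · intro h
      have h2 : (2 : ℤ) ^ (v2 i + 1) ∣ l := dvd_trans (pow_dvd_pow _ hvi) hl
      have := dvd_sub h h2
      rw [show l + (i : ℤ) - l = i by ring, v2_spec hiz] at this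
      omega
  simp [xy, hne, hv]

theorem all_defined (y : ℕ → Bool) (hy : ∀ n, hrun M (omy y) n ≠ none) :
    ∀ t j, sg M (xy y) t j ≠ none := by
  intro t
  induction t with
  | zero => intro j; simp [sg]
  | succ t ih =>
    intro j
    obtain ⟨l, hl⟩ := Option.ne_none_iff_exists'.1 (ih (j - 1))
    obtain ⟨c, hc⟩ := Option.ne_none_iff_exists'.1 (ih j)
    obtain ⟨r, hr⟩ := Option.ne_none_iff_exists'.1 (ih (j + 1))
    rw [sg, hl, hc, hr]
    simp only [Option.bind_some]
    obtain ⟨k, s, rfl, hs⟩ := exists_epoch t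
    obtain ⟨l1, l2, l3, l4⟩ := Fm_all hs hl
    obtain ⟨c1, c2, c3, c4⟩ := Fm_all hs hc
    have hpos : (0 : ℤ) < 2 ^ k := by positivity
    -- no report
    have hnr : ¬ report c := by
      rintro ⟨h1, h2, h3⟩
      have halv : alv (xy y) (k + 1) j = true := by
        rw [c2] at h1
        unfold stF at h1
        split_ifs at h1 with g1 g2 g3 g4
        · exact g3
        · exact g4
      have hc' : sg M (xy y) (Tt k + s) (j + ((0 : ℕ) : ℤ)) = some c := by simpa using hc
      obtain ⟨z1, z2, z3⟩ := zone halv hs (Nat.zero_le _) hc'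
      have hw : wiping c.sig = false := by
        cases hw : wiping c.sig with
        | false => rfl
        | true => simp [Cell.eff, hw] at h2
      have hs0 : s ≠ 0 := by
        intro h; have := z3.2 h.symm; rw [hw] at this; simp at this
      obtain ⟨s', rfl⟩ : ∃ s', s = s' + 1 := ⟨s - 1, by omega⟩
      have hjd := (alv_xy y (k + 1) j).1 halv
      have hrunn : hrun M (omg (xy y) j) s' = hrun M (omy y) s' :=
        hrun_congr s' fun i hi => omg_xy y hjd (by rw [pow_succ]; omega)
      obtain ⟨hcc, hhc⟩ := Option.ne_none_iff_exists'.1 (hy s')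
      obtain ⟨a1, a2⟩ := clean halv s' hs hcc (by rw [hrunn, hhc]) 0 (Nat.zero_le _) c hc'
      have heff : c.eff = c.hd := by simp [Cell.eff, hw]
      rw [heff, a2] at h2
      have hp : 0 = hcc.p := by
        by_contra h5; simp [h5] at h2
      have hinz : c.inz = false := by simp [Cell.inz, h1]
      rw [Cell.act, heff, a2, if_pos hp, hinz, a1] at h3
      simp only [Option.bind_some] at h3
      apply hy (s' + 1)
      rw [hrun, hhc]
      simp only [Option.bind_some, hstep]
      have : M.δ hcc.q (hcc.tp hcc.p) (omy y hcc.p) = none := by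
        rw [← hp]; simpa [omy] using h3
      rw [this]
    unfold G
    rw [if_neg hnr]
    have hlay : lay1 l.sig c.st c.status c.reg ≠ none := by
      rw [l3, c2]
      unfold sigF stF
      rcases Nat.lt_or_ge s (2 ^ k) with h1 | h1
      · rw [if_pos h1, if_pos h1]
        by_cases h2 : alv (xy y) k (j - 1 - s) = true
        · rw [if_pos h2]
          by_cases h3 : alv (xy y) k j = true
          · rw [if_pos h3, c4 h3]
            have d1 := (alv_xy y k _).1 h2
            have d2 := (alv_xy y k _).1 h3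
            have d3 : (2 : ℤ) ^ k ∣ s + 1 := by
              have := dvd_sub d2 d1
              rwa [show j - (j - 1 - (s : ℤ)) = s + 1 by ring] at this
            have h4 : (s : ℤ) + 1 = 2 ^ k := by
              have h5 : (s : ℤ) < 2 ^ k := by exact_mod_cast h1
              have := Int.le_of_dvd (by omega) d3
              omega
            have e1 : j - 1 - (s : ℤ) = j - 2 ^ k := by omega
            rw [e1]
            have e2 : rg (xy y) k (j - 2 ^ k) = rg (xy y) k j :=
              rg_xy y (dvd_sub d2 (dvd_refl _)) d2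
            have e3 : alv (xy y) (k + 1) j = !alv (xy y) (k + 1) (j - 2 ^ k) := by
              obtain ⟨q, hq⟩ := d2
              have hd : ∀ u : ℤ, (2 : ℤ) ^ (k + 1) ∣ 2 ^ k * u ↔ 2 ∣ u := by
                intro u
                rw [pow_succ]
                exact mul_dvd_mul_iff_left (ne_of_gt hpos)
              have e4 : j - 2 ^ k = 2 ^ k * (q - 1) := by rw [hq]; ring
              rw [Bool.eq_iff_iff, Bool.not_eq_true', ← Bool.not_eq_true, alv_xy, alv_xy, e4, hd, hq, hd]
              omega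
            unfold S0
            rw [e2]
            cases h6 : alv (xy y) (k + 1) (j - 2 ^ k) with
            | true => rw [h6] at e3; simp [e3, lay1]
            | false => rw [h6] at e3; simp [e3, lay1]
          · rw [if_neg h3]
            unfold S0
            split_ifs <;> simp [lay1]
        · rw [if_neg h2]; simp [lay1]
      · have hn : ¬ s < 2 ^ k := by omega
        rw [if_neg hn, if_neg hn]
        split_ifs <;> simp [lay1] <;> split_ifs <;> simp
    obtain ⟨o, ho⟩ := Option.ne_none_iff_exists'.1 hlay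
    rw [ho]; simp

end Pool.Agent.H722.Med
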