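import Pool.Agent.H722.Med.Func
import Pool.Agent.H722.Med.Struct
import Pool.Agent.H722.Med.Mach4

/-! From an effectively closed class to a half-line machine. -/

namespace Pool.Agent.H722.Med

open MedDefs

/-- primitive recursive presentation of an effectively closed class -/
theorem pi01_primrec {P : Set (ℕ → Bool)} (h : IsPi01 P) :
    ∃ chk : List Bool → Bool, Primrec chk ∧ ∀ y, y ∈ P ↔ ∀ n, chk (ini y (n + 1)) = true := by
  obtain ⟨W, hW, rfl⟩ := h
  -- `W` is the domain of a partial recursive function
  obtain ⟨c, hc⟩ : ∃ c : Nat.Partrec.Code, ∀ l : List Bool,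
      W l ↔ ∃ k, (Nat.Partrec.Code.evaln k c (Encodable.encode l)).isSome = true := by
    have h1 : Nat.Partrec fun n => Part.bind (Part.ofOption (Encodable.decode (α := List Bool) n))
        fun a => (Part.assert (W a) fun _ => Part.some ()).map Encodable.encode := hW
    obtain ⟨c, hc⟩ := Nat.Partrec.Code.exists_code.1 h1
    refine ⟨c, fun l => ?_⟩
    have e1 : (c.eval (Encodable.encode l)).Dom ↔ W l := by
      rw [hc]; simp [Part.assert]
    rw [← e1]
    constructor
    · intro h
      obtain ⟨y, hy⟩ := Part.dom_iff_mem.1 h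
      obtain ⟨k, hk⟩ := Nat.Partrec.Code.evaln_complete.1 hy
      exact ⟨k, Option.isSome_iff_exists.2 ⟨y, hk⟩⟩
    · rintro ⟨k, hk⟩
      obtain ⟨y, hy⟩ := Option.isSome_iff_exists.1 hk
      exact Part.dom_iff_mem.2 ⟨y, Nat.Partrec.Code.evaln_sound hy⟩
  -- count the initial segments found in `W` within `|l|` steps
  let bad (l : List Bool) (k : ℕ) : Bool :=
    (Nat.Partrec.Code.evaln l.length c (Encodable.encode (l.take k))).isSome
  have hbad : Primrec₂ bad := by
    refine Primrec.option_isSome.comp ?_
    exact Nat.Partrec.Code.primrec_evaln.comp (((Primrec.list_length.comp Primrec.fst).pair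
      (Primrec.const c)).pair (Primrec.encode.comp (Primrec.list_take.comp Primrec.snd Primrec.fst)))
  refine ⟨fun l => ((List.range (l.length + 1)).findIdx (bad l)) == l.length + 1, ?_, ?_⟩
  · refine Primrec.beq.comp ?_ (Primrec.succ.comp Primrec.list_length)
    exact Primrec.list_findIdx (Primrec.list_range.comp (Primrec.succ.comp Primrec.list_length)) hbad
  · intro y
    have hchk : ∀ n, (((List.range ((ini y n).length + 1)).findIdx (bad (ini y n))) ==
        (ini y n).length + 1) = true ↔ ∀ k ≤ n, (Nat.Partrec.Code.evaln n c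
          (Encodable.encode (ini y k))).isSome = false := by
      intro n
      rw [beq_iff_eq, ini_length]
      have e2 : (List.range (n + 1)).findIdx (bad (ini y n)) = n + 1 ↔
          (List.range (n + 1)).findIdx (bad (ini y n)) = (List.range (n + 1)).length := by
        rw [List.length_range]
      rw [e2, List.findIdx_eq_length]
      constructor
      · intro h k hk
        have := h k (List.mem_range.2 (by omega))
        simp only [bad, ini_length, ini_take y hk] at this
        simpa using this
      · intro h k hk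
        have hk' : k ≤ n := by have := List.mem_range.1 hk; omega
        simp only [bad, ini_length, ini_take y hk']
        simpa using h k hk'
    constructor
    · intro hy n
      rw [hchk]
      intro k _
      by_contra h5
      rw [Bool.not_eq_false] at h5
      exact hy k ((hc _).2 ⟨_, h5⟩)
    · intro hall k hk
      obtain ⟨j, hj⟩ := (hc _).1 hk
      have h1 := (hchk (max j k + 1)).1 (hall (max j k)) k (by omega)
      obtain ⟨v, hv⟩ := Option.isSome_iff_exists.1 hj
      have := Nat.Partrec.Code.evaln_mono (show j ≤ max j k + 1 by omega) hv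
      rw [this] at h1
      simp at h1

/-- the string of values at powers of two -/
def pw (l : List Bool) : List Bool := (List.range (Nat.log 2 l.length + 1)).map fun m =>
  l.getD (2 ^ m - 1) false

theorem pw_pre (y : ℕ → Bool) (n : ℕ) : pw (pre (omy y) (n + 1)) = ini y (Nat.log 2 (n + 1) + 1) := by
  unfold pw ini
  have hl : (pre (omy y) (n + 1)).length = n + 1 := by simp [pre]
  rw [hl]
  apply List.map_congr_left
  intro m hm
  rw [List.mem_range] at hm
  have h1 : 2 ^ m ≤ n + 1 := by
    calc 2 ^ m ≤ 2 ^ Nat.log 2 (n + 1) := Nat.pow_le_pow_right (by omega) (by omega)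
      _ ≤ n + 1 := Nat.pow_log_le_self 2 (by omega)
  have h2 : 0 < 2 ^ m := by positivity
  rw [List.getD_eq_getElem?_getD, List.getElem?_eq_getElem (by rw [hl]; omega)]
  simp only [pre, List.getElem_map, List.getElem_range, Option.getD_some]
  have e1 : 2 ^ m - 1 + 1 = 2 ^ m := by omega
  rw [e1]
  unfold omy
  rw [if_neg (by omega)]
  congr 1
  unfold v2
  rw [Int.natAbs_natCast]
  exact padicValNat.prime_pow m

theorem primrec_log : Primrec fun n : ℕ => Nat.log 2 n := by
  have h : PrimrecRel fun (n k : ℕ) => 2 ^ k ≤ n := by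
    refine Primrec.nat_le.comp ?_ Primrec.fst
    have : Primrec fun k : ℕ => 2 ^ k :=
      (Primrec.nat_rec₁ 1 (Primrec.nat_mul.comp (Primrec.const 2) Primrec.snd).to₂).of_eq
        fun k => by
          induction k with
          | zero => rfl
          | succ k ih => simp only at ih ⊢; rw [ih, pow_succ]; ring
    exact this.comp Primrec.snd
  refine (Primrec.nat_findGreatest Primrec.id h).of_eq fun n => ?_
  rcases Nat.eq_zero_or_pos n with h0 | h0
  · subst h0; simp
  · rw [Nat.findGreatest_eq_iff]
    refine ⟨(Nat.log_lt_self 2 (by omega)).le, fun _ => Nat.pow_log_le_self 2 (by omega), ?_⟩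
    intro k hk _ h2
    have := Nat.le_log_of_pow_le (by omega) h2
    omega

theorem primrec_pow2 : Primrec fun k : ℕ => 2 ^ k :=
  (Primrec.nat_rec₁ 1 (Primrec.nat_mul.comp (Primrec.const 2) Primrec.snd).to₂).of_eq
    fun k => by
      induction k with
      | zero => rfl
      | succ k ih => simp only at ih ⊢; rw [ih, pow_succ]; ring

theorem primrec_pw : Primrec pw := by
  unfold pw
  refine Primrec.list_map (Primrec.list_range.comp (Primrec.succ.comp
    (primrec_log.comp Primrec.list_length))) ?_
  exact ((Primrec.list_getD false).comp Primrec.fst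
    (Primrec.pred.comp (primrec_pow2.comp Primrec.snd))).to₂.of_eq fun _ _ => rfl

theorem exists_machine {P : Set (ℕ → Bool)} (h : IsPi01 P) : ∃ M : HTM, Finite M.Q ∧ Finite M.W ∧
    (∀ y ∈ P, ∀ n, hrun M (omy y) n ≠ none) ∧ (∀ y, (∀ n, ¬ Rep M (omy y) n) → y ∈ P) := by
  obtain ⟨chk, hp, hchk⟩ := pi01_primrec h
  obtain ⟨M, h1, h2, hM⟩ := exists_htm (hp.comp primrec_pw)
  refine ⟨M, h1, h2, fun y hy => ?_, fun y hy => ?_⟩
  · refine (hM (omy y)).1 fun n => ?_
    simp only [Function.comp, pw_pre]
    exact (hchk y).1 hy _
  · rw [hchk]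
    intro n
    by_contra h3
    rw [Bool.not_eq_true] at h3
    obtain ⟨k, hk⟩ := (hM (omy y)).2 ⟨2 ^ n - 1, by
      simp only [Function.comp, pw_pre]
      have : 0 < 2 ^ n := by positivity
      rw [show 2 ^ n - 1 + 1 = 2 ^ n by omega, Nat.log_pow (by omega)]
      exact h3⟩
    exact hy k hk

end Pool.Agent.H722.Med
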