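import Pool.Agent.H722.Med.Rec

/-! The crossing lemma. -/

namespace Pool.Agent.H722.Med

variable {A C : Type}

namespace Sys

variable (T : Sys A C) (x : ℤ → A)

/-- Trellis value of the window `[u, u + n]`. -/
def cw : ℕ → ℤ → Option C
  | 0, u => some (T.ι (x u))
  | n + 1, u => (cw n u).bind fun a => (cw n (u + 1)).bind fun b => T.F a b

/-- Trellis value of the window starting at `u` with `n` further cells in direction `e`. -/
def col (e : Bool) (u : ℤ) (n : ℕ) : Option C := if e then T.cw x n u else T.cw x n (u - n)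

variable {T x}

theorem cw_sub {n : ℕ} {u : ℤ} (h : T.cw x n u ≠ none) :
    ∀ (m : ℕ) (v : ℤ), u ≤ v → v + m ≤ u + n → T.cw x m v ≠ none := by
  induction n generalizing u with
  | zero =>
    intro m v h1 h2
    have : m = 0 := by omega
    subst this
    simp [cw]
  | succ n ih =>
    intro m v h1 h2
    rw [cw] at h
    have ha : T.cw x n u ≠ none := by
      intro h'; simp [h'] at h
    have hb : T.cw x n (u + 1) ≠ none := by
      intro h'; rw [h'] at h; cases hq : T.cw x n u <;> simp [hq] at h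
    by_cases e1 : v + m ≤ u + n
    · exact ih ha m v h1 e1
    · by_cases e2 : u + 1 ≤ v
      · exact ih hb m v e2 (by push_cast at h2; omega)
      · have : m = n + 1 := by push_cast at h2; omega
        have e3 : v = u := by omega
        subst this e3
        rw [cw]; exact h

theorem col_sub {e : Bool} {u : ℤ} {n : ℕ} (h : T.col x e u n ≠ none) (e' : Bool) (v : ℤ) (m : ℕ)
    (hi : ∃ i : ℤ, 0 ≤ i ∧ v = ps e u i ∧ (if e' = e then i + m ≤ n else m ≤ i ∧ i ≤ n)) :
    T.col x e' v m ≠ none := by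
  obtain ⟨i, h0, rfl, h1⟩ := hi
  cases e <;> cases e' <;> simp only [col, ps_true, ps_false, Bool.false_eq_true, if_false, if_true,
    reduceCtorEq] at h h1 ⊢ <;> exact cw_sub h _ _ (by omega) (by omega)

theorem col_zero (e : Bool) (u : ℤ) : T.col x e u 0 = some (T.ι (x u)) := by
  cases e <;> simp [col, cw]

theorem col_succ (e : Bool) (u : ℤ) (n : ℕ) : T.col x e u (n + 1) =
    (T.col x e u n).bind fun g => (T.col x (!e) (ps e u (n + 1)) n).bind fun r => T.Fe e g r := by
  cases e
  · simp only [col, ps_false, Bool.false_eq_true, if_false, Bool.not_false, if_true, cw, Fe]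
    have e1 : u - ((n + 1 : ℕ) : ℤ) + 1 = u - n := by push_cast; ring
    have e2 : u - ((n + 1 : ℕ) : ℤ) = u - ((n : ℤ) + 1) := by push_cast; ring
    rw [e1, e2]
    cases T.cw x n (u - n) <;> cases T.cw x n (u - ((n : ℤ) + 1)) <;> rfl
  · simp only [col, ps_true, if_true, Bool.not_true, Bool.false_eq_true, if_false, cw, Fe]
    have e1 : u + ((n : ℤ) + 1) - n = u + 1 := by ring
    rw [e1]

/-- Between (inclusive), in either order. -/
def Btw (u z p : ℤ) : Prop := (u ≤ p ∧ p ≤ z) ∨ (z ≤ p ∧ p ≤ u)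

variable (T x)

def Crossing (d : ℕ) : Prop := ∀ (e : Bool) (k : Ph × C) (u : ℤ) (w : ℤ → Wk C), w u ≠ .bl →
    (∀ i : ℕ, 1 ≤ i → i ≤ d → w (ps e u i) = .bl) → w (ps e u (d + 1)) ≠ .bl →
    (∀ g, T.col x e u d = some g → ∃ n, T.Reach x (Btw u (ps e u (d + 1))) n
      ⟨.S e k (T.ι (x u)), ps e u 1, w⟩ ⟨.S e k g, ps e u (d + 1), w⟩) ∧
    (T.col x e u d = none → T.Mortal x ⟨.S e k (T.ι (x u)), ps e u 1, w⟩)

/-- The configuration just after placing the moving marker at distance `r + 1`. -/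
def GR (e : Bool) (k : Ph × C) (u : ℤ) (r : ℕ) (g : C) (w : ℤ → Wk C) : Cfg C :=
  ⟨.S (!e) (.b, g) (T.ι (x (ps e u (r + 1)))), ps e u r, upd w (ps e u (r + 1)) (.R e k)⟩

variable {T x}

theorem ps_ps (e : Bool) (u i j : ℤ) : ps (!e) (ps e u i) j = ps e u (i - j) := by
  cases e <;> simp [ps] <;> ring

theorem ps_add (e : Bool) (u i j : ℤ) : ps e (ps e u i) j = ps e u (i + j) := by
  cases e <;> simp [ps] <;> ring

theorem ps_zero (e : Bool) (u : ℤ) : ps e u 0 = u := by cases e <;> simp [ps]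

theorem ps_inj {e : Bool} {u i j : ℤ} : ps e u i = ps e u j ↔ i = j := by
  cases e <;> simp [ps]

theorem ps_ne {e : Bool} {u i j : ℤ} (h : i ≠ j) : ps e u i ≠ ps e u j := fun h' => h (ps_inj.1 h')

theorem btw_ps {e : Bool} {u : ℤ} {n i : ℤ} (h0 : 0 ≤ i) (h1 : i ≤ n) : Btw u (ps e u n) (ps e u i) := by
  cases e <;> simp [Btw, ps] <;> omega

theorem btw_iff {e : Bool} {u : ℤ} {n p : ℤ} (hn : 0 ≤ n) : Btw u (ps e u n) p ↔ ∃ i, 0 ≤ i ∧ i ≤ n ∧ p = ps e u i := by
  constructor
  · intro h
    cases e <;> simp only [Btw, ps_true, ps_false] at h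
    · exact ⟨u - p, by omega, by omega, by simp⟩
    · exact ⟨p - u, by omega, by omega, by simp⟩
  · rintro ⟨i, h0, h1, rfl⟩
    exact btw_ps h0 h1

/-- Sub-crossing from the moving marker at distance `r+1` back to the anchor, in `Btw` form. -/
theorem btw_sub {e : Bool} {u : ℤ} {a b N : ℤ} (ha : 0 ≤ a) (hb : 0 ≤ b) (haN : a ≤ N) (hbN : b ≤ N)
    {p : ℤ} (h : Btw (ps e u a) (ps e u b) p) : Btw u (ps e u N) p := by
  cases e <;> simp only [Btw, ps_true, ps_false] at h ⊢ <;> omega

theorem growRound {r : ℕ} (hc : Crossing T x r) {e : Bool} {k : Ph × C} {u : ℤ} {w : ℤ → Wk C}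
    (hu : w u ≠ .bl) (hb : ∀ i : ℕ, 1 ≤ i → i ≤ r + 1 → w (ps e u i) = .bl) {g0 g1 : C}
    (h0 : T.col x e u r = some g0) (h1 : T.col x e u (r + 1) = some g1) :
    ∃ n, T.Reach x (Btw u (ps e u (r + 1))) (n + 1) (T.GR x e k u r g0 w)
      ⟨.N e k g1, ps e u (r + 2), w⟩ := by
  rw [col_succ, h0] at h1
  simp only [Option.bind_some] at h1
  obtain ⟨ρ, hρ, hF⟩ : ∃ ρ, T.col x (!e) (ps e u (r + 1)) r = some ρ ∧ T.Fe e g0 ρ = some g1 := by
    cases hq : T.col x (!e) (ps e u (r + 1)) r with
    | none => simp [hq] at h1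
    | some ρ => exact ⟨ρ, rfl, by simpa [hq] using h1⟩
  set v := ps e u (r + 1) with hv
  set w1 := upd w v (.R e k) with hw1
  have hvu : v ≠ u := by
    have := ps_ne (e := e) (u := u) (i := (r : ℤ) + 1) (j := 0) (by omega)
    rwa [ps_zero] at this
  have hw1v : w1 v = .R e k := upd_self _ _ _
  have hw1u : w1 u = w u := upd_ne _ _ hvu.symm
  have hw1b : ∀ i : ℕ, 1 ≤ i → i ≤ r → w1 (ps e u i) = .bl := by
    intro i hi1 hi2
    rw [hw1, upd_ne _ _ (by rw [hv]; exact ps_ne (by omega))]
    exact hb i hi1 (by omega)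
  -- back trip
  have hz : ps (!e) v (r + 1) = u := by rw [hv, ps_ps]; simp [ps_zero]
  obtain ⟨n1, t1⟩ := (hc (!e) (.b, g0) v w1 (by rw [hw1v]; simp) (fun i hi1 hi2 => by
      rw [hv, ps_ps]
      have := hw1b (r + 1 - i) (by omega) (by omega)
      rwa [show (((r + 1 - i : ℕ) : ℤ)) = (r : ℤ) + 1 - i by omega] at this)
    (by rw [hz, hw1u]; exact hu)).1 ρ hρ
  rw [hz] at t1
  have e1 : ps (!e) v 1 = ps e u r := by rw [hv, ps_ps]; congr 1; ring
  rw [e1] at t1
  -- bounce
  have t2 : T.step x ⟨.S (!e) (.b, g0) ρ, u, w1⟩ =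
      some ⟨.S e (.f, g1) (T.ι (x u)), ps e u 1, w1⟩ := by
    rw [step_S_b (by rw [hw1u]; exact hu)]
    simp [hF]
  -- forward trip
  obtain ⟨n3, t3⟩ := (hc e (.f, g1) u w1 (by rw [hw1u]; exact hu) hw1b (by
      rw [← hv, hw1v]; simp)).1 g0 h0
  rw [← hv] at t3
  have t4 : T.step x ⟨.S e (.f, g1) g0, v, w1⟩ = some ⟨.N e k g1, ps e u (r + 2), w⟩ := by
    rw [step_S_f hw1v]
    have a1 : upd w1 v .bl = w := by
      rw [hw1, upd_upd]
      exact upd_eq _ _ _ (by rw [hv]; simpa using hb (r + 1) (by omega) le_rfl)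
    have a2 : ps e v 1 = ps e u (r + 2) := by rw [hv, ps_add]; congr 1
    rw [a1, a2]
  have hP1 : ∀ p, Btw v u p → Btw u v p := by
    intro p hp; simp only [Btw] at hp ⊢; tauto
  refine ⟨n1 + 1 + n3, ?_⟩
  have q1 : T.Reach x (Btw u v) n1 (T.GR x e k u r g0 w) ⟨.S (!e) (.b, g0) ρ, u, w1⟩ := t1.mono hP1
  have q2 : T.Reach x (Btw u v) 1 ⟨.S (!e) (.b, g0) ρ, u, w1⟩
      ⟨.S e (.f, g1) (T.ι (x u)), ps e u 1, w1⟩ := Reach.one t2 (by
        have := btw_ps (e := e) (u := u) (n := (r : ℤ) + 1) (i := 0) le_rfl (by omega)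
        rwa [ps_zero] at this)
  have q4 : T.Reach x (Btw u v) 1 ⟨.S e (.f, g1) g0, v, w1⟩ ⟨.N e k g1, ps e u (r + 2), w⟩ :=
    Reach.one t4 (btw_ps (by omega) le_rfl)
  exact ((q1.trans q2).trans t3).trans q4

theorem growRound_mortal {r : ℕ} (hc : Crossing T x r) {e : Bool} {k : Ph × C} {u : ℤ}
    {w : ℤ → Wk C} (hu : w u ≠ .bl) (hb : ∀ i : ℕ, 1 ≤ i → i ≤ r + 1 → w (ps e u i) = .bl) {g0 : C}
    (h0 : T.col x e u r = some g0) (h1 : T.col x e u (r + 1) = none) :
    T.Mortal x (T.GR x e k u r g0 w) := by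
  rw [col_succ, h0] at h1
  simp only [Option.bind_some] at h1
  set v := ps e u (r + 1) with hv
  set w1 := upd w v (.R e k) with hw1
  have hvu : v ≠ u := by
    have := ps_ne (e := e) (u := u) (i := (r : ℤ) + 1) (j := 0) (by omega)
    rwa [ps_zero] at this
  have hw1v : w1 v = .R e k := upd_self _ _ _
  have hw1u : w1 u = w u := upd_ne _ _ hvu.symm
  have hw1b : ∀ i : ℕ, 1 ≤ i → i ≤ r → w1 (ps e u i) = .bl := by
    intro i hi1 hi2
    rw [hw1, upd_ne _ _ (by rw [hv]; exact ps_ne (by omega))]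
    exact hb i hi1 (by omega)
  have hz : ps (!e) v (r + 1) = u := by rw [hv, ps_ps]; simp [ps_zero]
  have e1 : ps (!e) v 1 = ps e u r := by rw [hv, ps_ps]; congr 1; ring
  have hcc := hc (!e) (.b, g0) v w1 (by rw [hw1v]; simp) (fun i hi1 hi2 => by
      rw [hv, ps_ps]
      have := hw1b (r + 1 - i) (by omega) (by omega)
      rwa [show (((r + 1 - i : ℕ) : ℤ)) = (r : ℤ) + 1 - i by omega] at this)
    (by rw [hz, hw1u]; exact hu)
  cases hq : T.col x (!e) v r with
  | none =>
    have := hcc.2 hq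
    rw [e1] at this
    exact this
  | some ρ =>
    rw [hq] at h1
    simp only [Option.bind_some] at h1
    obtain ⟨n1, t1⟩ := hcc.1 ρ hq
    rw [hz, e1] at t1
    refine Mortal.reach (mortal_of_step ?_) t1
    rw [step_S_b (by rw [hw1u]; exact hu)]
    simp [h1]

/-- Growth up to distance `r`. -/
theorem growTo {r : ℕ} (hc : ∀ d < r + 1, Crossing T x d) {e : Bool} {k : Ph × C} {u : ℤ}
    {w : ℤ → Wk C} (hu : w u ≠ .bl) (hb : ∀ i : ℕ, 1 ≤ i → i ≤ r + 1 → w (ps e u i) = .bl) {g0 : C}
    (h0 : T.col x e u r = some g0) :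
    ∃ n, r ≤ n ∧ T.Reach x (Btw u (ps e u (r + 1))) n ⟨.S e k (T.ι (x u)), ps e u 1, w⟩
      (T.GR x e k u r g0 w) := by
  induction r generalizing g0 with
  | zero =>
    rw [col_zero] at h0
    cases h0
    refine ⟨1, by omega, Reach.one ?_ ?_⟩
    · rw [step_S_bl (by simpa using hb 1 le_rfl le_rfl)]
      simp only [GR, Nat.cast_zero, zero_add]
      rw [ps_ps]; rfl
    · simpa using btw_ps (e := e) (u := u) (n := 1) (i := 1) (by omega) le_rfl
  | succ r ih =>
    obtain ⟨g, hg⟩ : ∃ g, T.col x e u r = some g := by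
      rw [← Option.ne_none_iff_exists']
      exact col_sub (by rw [h0]; simp) e u r ⟨0, le_rfl, (ps_zero _ _).symm, by simp⟩
    obtain ⟨n1, h1, t1⟩ := ih (fun d hd => hc d (by omega)) (fun i a b => hb i a (by omega)) hg
    obtain ⟨n2, t2⟩ := growRound (hc r (by omega)) (k := k) hu
      (fun i a b => hb i a (by omega)) hg h0
    have hbl : w (ps e u (r + 2)) = .bl := by
      have := hb (r + 2) (by omega) le_rfl
      rwa [show ((r + 2 : ℕ) : ℤ) = (r : ℤ) + 2 by push_cast; ring] at this
    have t3 : T.step x ⟨.N e k g0, ps e u (r + 2), w⟩ = some (T.GR x e k u (r + 1) g0 w) := by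
      rw [step_N_bl hbl]
      simp only [GR]
      have a1 : (((r + 1 : ℕ) : ℤ)) + 1 = (r : ℤ) + 2 := by push_cast; ring
      rw [a1, ps_ps]
      have a2 : (r : ℤ) + 2 - 1 = ((r + 1 : ℕ) : ℤ) := by push_cast; ring
      rw [a2]
    have hm : ∀ p, Btw u (ps e u (r + 1)) p → Btw u (ps e u (((r + 1 : ℕ) : ℤ) + 1)) p := by
      intro p hp
      exact btw_sub (a := 0) (b := r + 1) le_rfl (by omega) (by omega) (by push_cast; omega)
        (by rw [ps_zero]; exact hp)
    refine ⟨n1 + (n2 + 1) + 1, by omega, ((t1.mono hm).trans (t2.mono hm)).trans (Reach.one t3 ?_)⟩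
    exact btw_ps (by omega) (by push_cast; omega)

/-- The closing phase: the marker `m` moves from distance `i` to the marker `R'` at distance `j`. -/
theorem zip {e : Bool} {k : Ph × C} {g : C} {u : ℤ} {w : ℤ → Wk C} (j : ℕ) :
    ∀ (t : ℕ) (i : ℕ), i + t = j → (∀ d < t, Crossing T x d) →
    w (ps e u j) = .R' e k →
    (∀ i' : ℕ, i ≤ i' → i' < j → w (ps e u i') = .bl) →
    (t ≠ 0 → T.col x e (ps e u i) (t - 1) ≠ none ∧ T.col x (!e) (ps e u j) (t - 1) ≠ none) →
    ∃ n, T.Reach x (Btw (ps e u i) (ps e u j)) n ⟨.X e g, ps e u i, w⟩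
      ⟨.S e k g, ps e u (j + 1), upd w (ps e u j) .bl⟩ := by
  intro t
  induction t with
  | zero =>
    intro i hij _ hj hb _
    simp only [add_zero] at hij
    subst hij
    refine ⟨1, Reach.one ?_ ?_⟩
    · rw [step_X hj, ps_add]
    · simp [Btw]
  | succ t ih =>
    intro i hij hc hj hb hgood
    obtain ⟨hg1, hg2⟩ := hgood (by omega)
    simp only [Nat.add_sub_cancel] at hg1 hg2
    have hij' : i < j := by omega
    have hji : (j : ℤ) = i + t + 1 := by omega
    set a := ps e u i with ha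
    set b := ps e u j with hbdef
    set w1 := upd w a .m with hw1
    have hab : b ≠ a := by rw [ha, hbdef]; exact ps_ne (by omega)
    have w1a : w1 a = .m := upd_self _ _ _
    have w1b : w1 b = .R' e k := by rw [hw1, upd_ne _ _ hab]; exact hj
    have w1bl : ∀ i' : ℕ, i < i' → i' < j → w1 (ps e u i') = .bl := by
      intro i' h1 h2
      rw [hw1, upd_ne _ _ (by rw [ha]; exact ps_ne (by omega))]
      exact hb i' (by omega) h2
    have wa : w a = .bl := hb i le_rfl hij'
    have s1 : T.step x ⟨.X e g, a, w⟩ = some ⟨.S e (.zf, g) (T.ι (x a)), ps e a 1, w1⟩ :=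
      step_X_bl wa
    have eb : ps e a ((t : ℤ) + 1) = b := by rw [ha, hbdef, ps_add]; congr 1; omega
    obtain ⟨g1, hg1'⟩ := Option.ne_none_iff_exists'.1 hg1
    obtain ⟨n1, t1⟩ := (hc t (by omega) e (.zf, g) a w1 (by rw [w1a]; simp) (fun i' h1 h2 => by
        rw [ha, ps_add]
        have := w1bl (i + i') (by omega) (by omega)
        rwa [show ((i + i' : ℕ) : ℤ) = (i : ℤ) + i' by push_cast; ring] at this)
      (by rw [eb, w1b]; simp)).1 g1 hg1'
    rw [eb] at t1
    have s2 : T.step x ⟨.S e (.zf, g) g1, b, w1⟩ =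
        some ⟨.S (!e) (.zb, g) (T.ι (x b)), ps (!e) b 1, w1⟩ := step_S_zf w1b
    obtain ⟨g2, hg2'⟩ := Option.ne_none_iff_exists'.1 hg2
    have ea : ps (!e) b ((t : ℤ) + 1) = a := by rw [ha, hbdef, ps_ps]; congr 1; omega
    obtain ⟨n2, t2⟩ := (hc t (by omega) (!e) (.zb, g) b w1 (by rw [w1b]; simp) (fun i' h1 h2 => by
        rw [hbdef, ps_ps]
        have := w1bl (j - i') (by omega) (by omega)
        rwa [show ((j - i' : ℕ) : ℤ) = (j : ℤ) - i' by omega] at this)
      (by rw [ea, w1a]; simp)).1 g2 hg2'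
    rw [ea] at t2
    have s3 : T.step x ⟨.S (!e) (.zb, g) g2, a, w1⟩ = some ⟨.X e g, ps e u ((i + 1 : ℕ) : ℤ), w⟩ := by
      rw [step_S_zb w1a, Bool.not_not, ha, ps_add, ← ha]
      have : upd w1 a .bl = w := by rw [hw1, upd_upd]; exact upd_eq _ _ _ wa
      rw [this]
      simp
    obtain ⟨n3, t3⟩ := ih (i + 1) (by omega) (fun d hd => hc d (by omega)) hj
      (fun i' h1 h2 => hb i' (by omega) h2) (by
        intro ht
        constructor
        · have hcol : T.col x e a t ≠ none := hg1
          refine col_sub hcol e _ _ ⟨1, by omega, ?_, ?_⟩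
          · rw [ha, ps_add]; push_cast; rfl
          · simp; omega
        · refine col_sub hg2 (!e) _ _ ⟨0, le_rfl, ?_, ?_⟩
          · rw [ps_zero]
          · simp)
    have hm1 : ∀ p, Btw (ps e u ((i + 1 : ℕ) : ℤ)) b p → Btw a b p := by
      intro p hp
      rw [ha, hbdef] at *
      cases e <;> simp only [Btw, ps_true, ps_false] at hp ⊢ <;> push_cast at hp <;> omega
    have hm2 : ∀ p, Btw b a p → Btw a b p := by
      intro p hp; simp only [Btw] at hp ⊢; tauto
    have haa : Btw a b a := by rw [ha, hbdef]; cases e <;> simp only [Btw, ps_true, ps_false] <;> omega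
    have hbb : Btw a b b := by rw [ha, hbdef]; cases e <;> simp only [Btw, ps_true, ps_false] <;> omega
    exact ⟨_, (((Reach.one s1 haa).trans t1).trans ((Reach.one s2 hbb).trans (t2.mono hm2))).trans
      ((Reach.one s3 haa).trans (t3.mono hm1))⟩

theorem crossing_all (d : ℕ) : Crossing T x d := by
  induction d using Nat.strong_induction_on with
  | _ d ih =>
    intro e k u w hu hb hz
    cases d with
    | zero =>
      constructor
      · intro g hg
        rw [col_zero] at hg
        cases hg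
        exact ⟨0, by simpa using Reach.refl _⟩
      · intro h; rw [col_zero] at h; exact absurd h (by simp)
    | succ d =>
      constructor
      · intro g hg
        obtain ⟨g0, hg0⟩ : ∃ g, T.col x e u d = some g := by
          rw [← Option.ne_none_iff_exists']
          exact col_sub (by rw [hg]; simp) e u d ⟨0, le_rfl, (ps_zero _ _).symm, by simp⟩
        obtain ⟨n1, -, t1⟩ := growTo (r := d) (k := k) (fun d' hd' => ih d' hd') hu hb hg0
        obtain ⟨n2, t2⟩ := growRound (ih d (by omega)) (k := k) hu hb hg0 hg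
        set z := ps e u (((d + 1 : ℕ) : ℤ) + 1) with hzdef
        set v := ps e u ((d : ℤ) + 1) with hvdef
        have ez : ps e u ((d : ℤ) + 2) = z := by rw [hzdef]; congr 1
        rw [ez] at t2
        have ev : ps (!e) z 1 = v := by rw [hzdef, hvdef, ps_ps]; congr 1; push_cast; ring
        have s3 : T.step x ⟨.N e k g, z, w⟩ = some ⟨.Y e k g, v, w⟩ := by rw [step_N hz, ev]
        have s4 : T.step x ⟨.Y e k g, v, w⟩ = some ⟨.S (!e) (.zs, g) (T.ι (x v)), ps (!e) v 1,
          upd w v (.R' e k)⟩ := step_Y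
        set w1 := upd w v (.R' e k) with hw1
        have hvu : v ≠ u := by
          have := ps_ne (e := e) (u := u) (i := (d : ℤ) + 1) (j := 0) (by omega)
          rwa [ps_zero] at this
        have hw1v : w1 v = .R' e k := upd_self _ _ _
        have hw1u : w1 u = w u := upd_ne _ _ hvu.symm
        have hw1b : ∀ i : ℕ, 1 ≤ i → i ≤ d → w1 (ps e u i) = .bl := by
          intro i hi1 hi2
          rw [hw1, upd_ne _ _ (by rw [hvdef]; exact ps_ne (by omega))]
          exact hb i hi1 (by omega)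
        have hvblank : w v = .bl := by
          have := hb (d + 1) (by omega) le_rfl
          rwa [show ((d + 1 : ℕ) : ℤ) = (d : ℤ) + 1 by push_cast; ring] at this
        have hz' : ps (!e) v (d + 1) = u := by rw [hvdef, ps_ps]; simp [ps_zero]
        have hcol : T.col x (!e) v d ≠ none :=
          col_sub (e := e) (u := u) (n := d + 1) (by rw [hg]; simp) (!e) v d
            ⟨d + 1, by omega, rfl, by simp⟩
        obtain ⟨ρ, hρ⟩ := Option.ne_none_iff_exists'.1 hcol
        obtain ⟨n5, t5⟩ := (ih d (by omega) (!e) (.zs, g) v w1 (by rw [hw1v]; simp)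
          (fun i hi1 hi2 => by
            rw [hvdef, ps_ps]
            have := hw1b (d + 1 - i) (by omega) (by omega)
            rwa [show (((d + 1 - i : ℕ) : ℤ)) = (d : ℤ) + 1 - i by omega] at this)
          (by rw [hz', hw1u]; exact hu)).1 ρ hρ
        rw [hz'] at t5
        have s6 : T.step x ⟨.S (!e) (.zs, g) ρ, u, w1⟩ = some ⟨.X e g, ps e u ((1 : ℕ) : ℤ), w1⟩ := by
          rw [step_S_zs (by rw [hw1u]; exact hu)]; simp
        obtain ⟨n7, t7⟩ := zip (T := T) (x := x) (e := e) (k := k) (g := g) (u := u) (w := w1) (d + 1)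
          d 1 (by omega) (fun d' hd' => ih d' (by omega)) (by
            rw [show ((d + 1 : ℕ) : ℤ) = (d : ℤ) + 1 by push_cast; ring]; exact hw1v)
          (fun i' h1 h2 => hw1b i' h1 (by omega)) (by
            intro hd
            constructor
            · exact col_sub (e := e) (u := u) (n := d + 1) (by rw [hg]; simp) e _ _
                ⟨1, by omega, by simp, by simp; omega⟩
            · exact col_sub (e := e) (u := u) (n := d + 1) (by rw [hg]; simp) (!e) _ _
                ⟨d + 1, by omega, by push_cast; rfl, by simp; omega⟩)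
        have e7 : upd w1 (ps e u ((d + 1 : ℕ) : ℤ)) .bl = w := by
          rw [show ((d + 1 : ℕ) : ℤ) = (d : ℤ) + 1 by push_cast; ring, ← hvdef, hw1, upd_upd]
          exact upd_eq _ _ _ hvblank
        rw [e7] at t7
        have hm : ∀ {a b : ℤ}, 0 ≤ a → 0 ≤ b → a ≤ d + 2 → b ≤ d + 2 → ∀ p,
            Btw (ps e u a) (ps e u b) p → Btw u z p := by
          intro a b ha hb' h1 h2 p hp
          rw [hzdef]
          exact btw_sub ha hb' (by push_cast; omega) (by push_cast; omega) hp
        have hm0 : ∀ {b : ℤ}, 0 ≤ b → b ≤ d + 2 → ∀ p, Btw u (ps e u b) p → Btw u z p := by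
          intro b hb' h2 p hp
          exact hm (a := 0) le_rfl hb' (by omega) h2 p (by rw [ps_zero]; exact hp)
        have hu' : Btw u z u := by
          have := hm0 (b := 0) le_rfl (by omega) u (by simp [Btw, ps_zero]); exact this
        refine ⟨_, (((t1.mono (hm0 (by omega) (by omega))).trans
          (t2.mono (hm0 (by omega) (by omega)))).trans
          ((Reach.one s3 ?_).trans (Reach.one s4 ?_))).trans
          (((t5.mono ?_).trans (Reach.one s6 hu')).trans (t7.mono ?_))⟩
        · simp [Btw]; omega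
        · exact hm0 (b := d + 1) (by omega) (by omega) v (by rw [hvdef]; exact btw_ps (by omega) le_rfl)
        · intro p hp
          refine hm0 (b := d + 1) (by omega) (by omega) p ?_
          rw [← hvdef]
          simp only [Btw] at hp ⊢; tauto
        · exact hm (by omega) (by omega) (by omega) (by push_cast; omega)
      · intro hnone
        classical
        have hex : ∃ r, T.col x e u (r + 1) = none := ⟨d, hnone⟩
        set r := Nat.find hex with hr
        have hr1 : T.col x e u (r + 1) = none := Nat.find_spec hex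
        have hrd : r ≤ d := Nat.find_min' hex hnone
        obtain ⟨g0, hg0⟩ : ∃ g, T.col x e u r = some g := by
          rw [← Option.ne_none_iff_exists']
          rcases Nat.eq_zero_or_pos r with h | h
          · rw [h, col_zero]; simp
          · obtain ⟨r', hr'⟩ : ∃ r', r = r' + 1 := ⟨r - 1, by omega⟩
            rw [hr']
            exact Nat.find_min hex (by omega)
        obtain ⟨n1, -, t1⟩ := growTo (r := r) (k := k) (fun d' hd' => ih d' (by omega)) hu
          (fun i a b => hb i a (by omega)) hg0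
        exact Mortal.reach (growRound_mortal (ih r (by omega)) hu
          (fun i a b => hb i a (by omega)) hg0 hr1) t1

end Sys

end Pool.Agent.H722.Med
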