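import Pool.Agent.H722.Med.TMof
import Pool.Agent.H722.Med.Struct

/-! The decoding functional: from an immortal configuration to a point of the class. -/

namespace Pool.Agent.H722.Med

open MedDefs

/-! ### finitely supported functions -/

theorem primrec_supp {α : Type} [Primcodable α] (f : ℕ → α) (N : ℕ) (d : α)
    (h : ∀ n ≥ N, f n = d) : Primrec f := by
  refine ((Primrec.list_getD d).comp (Primrec.const ((List.range N).map f)) Primrec.id).of_eq ?_
  intro n
  rcases Nat.lt_or_ge n N with h1 | h1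
  · simp [List.getD, h1]
  · simp [List.getD, h1, h n h1]

theorem primrec_supp2 {α : Type} [Primcodable α] (f : ℕ → ℕ → α) (N : ℕ) (d : α)
    (h : ∀ n m, N ≤ n ∨ N ≤ m → f n m = d) : Primrec₂ f := by
  have h1 : Primrec fun n : ℕ => f n.unpair.1 n.unpair.2 := by
    refine primrec_supp _ ((N + 1) ^ 2) d fun n hn => ?_
    apply h
    by_contra hc
    push Not at hc
    have := Nat.pair_lt_max_add_one_sq n.unpair.1 n.unpair.2
    rw [Nat.pair_unpair] at this
    have h2 : max n.unpair.1 n.unpair.2 + 1 ≤ N + 1 := by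
      have := max_lt hc.1 hc.2; omega
    have h3 := Nat.pow_le_pow_left h2 2
    omega
  exact (h1.comp (Primrec₂.natPair.comp Primrec.fst Primrec.snd)).of_eq fun p => by simp

/-! ### reading symbols -/

def symv (K : ℕ) (τ : List Bool) (b : ℕ) : ℕ :=
  (List.range K).findIdx fun r => τ.getD (K * b + r) false

theorem primrec_symv (K : ℕ) : Primrec₂ (symv K) := by
  refine (Primrec.list_findIdx (f := fun _ : List Bool × ℕ => List.range K)
    (p := fun a r => a.1.getD (K * a.2 + r) false) (Primrec.const _) ?_).to₂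
  exact ((Primrec.list_getD false).comp (Primrec.fst.comp Primrec.fst)
    (Primrec.nat_add.comp (Primrec.nat_mul.comp (Primrec.const K)
      (Primrec.snd.comp Primrec.fst)) Primrec.snd)).to₂

theorem ini_getD (y : ℕ → Bool) {n i : ℕ} (h : i < n) : (ini y n).getD i false = y i := by
  simp [ini, List.getD, h]

theorem symv_code (N : TM) (c : N.Conf) {n b : ℕ} (h : (N.nQ + N.nS) * (b + 1) ≤ n) :
    symv (N.nQ + N.nS) (ini (N.code c) n) b =
      if b = 0 then c.1.val else (c.2 (cellOf (b - 1))).val := by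
  set K := N.nQ + N.nS with hK
  have hb : ∀ r < K, (ini (N.code c) n).getD (K * b + r) false =
      decide (r = if b = 0 then c.1.val else (c.2 (cellOf (b - 1))).val) := by
    intro r hr
    rw [ini_getD _ (by nlinarith)]
    have h1 : (K * b + r) / K = b := by
      rw [Nat.mul_add_div (by omega), Nat.div_eq_of_lt hr, add_zero]
    have h2 : (K * b + r) % K = r := by
      rw [Nat.mul_add_mod, Nat.mod_eq_of_lt hr]
    unfold TM.code
    rw [← hK, h1, h2]
    split_ifs <;> rfl
  have hv : (if b = 0 then c.1.val else (c.2 (cellOf (b - 1))).val) < K := by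
    split_ifs
    · have := c.1.isLt; omega
    · have := (c.2 (cellOf (b - 1))).isLt; omega
  generalize (if b = 0 then c.1.val else (c.2 (cellOf (b - 1))).val) = v at hb hv
  unfold symv
  rw [List.findIdx_eq (by simpa using hv)]
  constructor
  · rw [List.getElem_range, hb v hv]; simp
  · intro j hj
    rw [List.getElem_range, hb j (by omega)]
    simp; omega

def blk (B t : ℕ) : ℕ := if B ≤ t then 2 * (t - B) + 1 else 2 * (B - t)

theorem primrec_blk : Primrec₂ blk := by
  refine Primrec.ite ?_ ?_ ?_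
  · exact Primrec.nat_le.comp Primrec.fst Primrec.snd
  · exact Primrec.nat_add.comp (Primrec.nat_mul.comp (Primrec.const 2)
      (Primrec.nat_sub.comp Primrec.snd Primrec.fst)) (Primrec.const 1)
  · exact Primrec.nat_mul.comp (Primrec.const 2) (Primrec.nat_sub.comp Primrec.fst Primrec.snd)

theorem blk_ne {B t : ℕ} : blk B t ≠ 0 := by unfold blk; split_ifs <;> omega

theorem blk_le {B t : ℕ} (h : t ≤ 2 * B) : blk B t + 1 ≤ 2 * B + 2 := by
  unfold blk; split_ifs <;> omega

theorem cellOf_blk (B t : ℕ) : cellOf (blk B t - 1) = (t : ℤ) - B := by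
  unfold blk cellOf
  split_ifs <;> push_cast <;> omega

/-- the initial tape, cells `-B..B` -/
def tp0 (K : ℕ) (τ : List Bool) (B : ℕ) : List ℕ :=
  (List.range (2 * B + 1)).map fun t => symv K τ (blk B t)

theorem primrec_tp0 (K : ℕ) : Primrec₂ (tp0 K) := by
  refine Primrec.list_map (f := fun a : List Bool × ℕ => List.range (2 * a.2 + 1)) ?_ ?_
  · exact Primrec.list_range.comp (Primrec.succ.comp
      (Primrec.nat_mul.comp (Primrec.const 2) Primrec.snd))
  · exact ((primrec_symv K).comp (Primrec.fst.comp Primrec.fst)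
      (primrec_blk.comp (Primrec.snd.comp Primrec.fst) Primrec.snd)).to₂

theorem tp0_length (K : ℕ) (τ : List Bool) (B : ℕ) : (tp0 K τ B).length = 2 * B + 1 := by
  simp [tp0]

/-! ### simulation -/

def nstep (dn : ℕ → ℕ → ℕ × ℕ × Bool) (s : ℕ × ℕ × List ℕ) : ℕ × ℕ × List ℕ :=
  ((dn s.1 (s.2.2.getD s.2.1 0)).1,
    if (dn s.1 (s.2.2.getD s.2.1 0)).2.2 then s.2.1 + 1 else s.2.1 - 1,
    s.2.2.set s.2.1 (dn s.1 (s.2.2.getD s.2.1 0)).2.1)

def nrun (dn : ℕ → ℕ → ℕ × ℕ × Bool) (s : ℕ × ℕ × List ℕ) : ℕ → ℕ × ℕ × List ℕ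
  | 0 => s
  | k + 1 => nstep dn (nrun dn s k)

theorem primrec_nstep {dn : ℕ → ℕ → ℕ × ℕ × Bool} (h : Primrec₂ dn) : Primrec (nstep dn) := by
  have h0 : Primrec fun s : ℕ × ℕ × List ℕ => dn s.1 (s.2.2.getD s.2.1 0) :=
    h.comp Primrec.fst ((Primrec.list_getD 0).comp (Primrec.snd.comp Primrec.snd)
      (Primrec.fst.comp Primrec.snd))
  refine (Primrec.fst.comp h0).pair (Primrec.pair ?_ ?_)
  · refine Primrec.ite ?_ ?_ ?_
    · exact Primrec.eq.comp (Primrec.snd.comp (Primrec.snd.comp h0)) (Primrec.const true)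
    · exact Primrec.succ.comp (Primrec.fst.comp Primrec.snd)
    · exact Primrec.nat_sub.comp (Primrec.fst.comp Primrec.snd) (Primrec.const 1)
  · exact Primrec.list_set.comp (Primrec.snd.comp Primrec.snd)
      ((Primrec.fst.comp Primrec.snd).pair (Primrec.fst.comp (Primrec.snd.comp h0)))

theorem primrec_nrun {dn : ℕ → ℕ → ℕ × ℕ × Bool} (h : Primrec₂ dn) : Primrec₂ (nrun dn) := by
  refine (Primrec.nat_rec' (f := fun a : (ℕ × ℕ × List ℕ) × ℕ => a.2) (g := fun a => a.1)
    (h := fun _ p => nstep dn p.2) Primrec.snd Primrec.fst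
    ((primrec_nstep h).comp (Primrec.snd.comp Primrec.snd)).to₂).of_eq ?_
  rintro ⟨s, k⟩
  simp only
  induction k with
  | zero => rfl
  | succ k ih => simp only [nrun] at ih ⊢; rw [← ih]

/-! ### levels -/

def alv1 (bA bS : ℕ → Bool) (L : List ℕ) (t : ℕ) : ℕ → Bool
  | 0 => !bA (L.getD t 0)
  | k + 1 => alv1 bA bS L t k && !bS (L.getD (t - 2 ^ k) 0)

def levn (bA bS : ℕ → Bool) (L : List ℕ) (t m : ℕ) : Bool :=
  (if m = 0 then true else alv1 bA bS L t (m - 1)) && !alv1 bA bS L t m

theorem primrec_alv1 {bA bS : ℕ → Bool} (hA : Primrec bA) (hS : Primrec bS) :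
    Primrec fun a : (List ℕ × ℕ) × ℕ => alv1 bA bS a.1.1 a.1.2 a.2 := by
  have h2 : Primrec₂ fun (a : (List ℕ × ℕ) × ℕ) (p : ℕ × Bool) =>
      p.2 && !bS (a.1.1.getD (a.1.2 - 2 ^ p.1) 0) := by
    refine Primrec.and.comp (Primrec.snd.comp Primrec.snd) (Primrec.not.comp (hS.comp ?_))
    exact (Primrec.list_getD 0).comp (Primrec.fst.comp (Primrec.fst.comp Primrec.fst))
      (Primrec.nat_sub.comp (Primrec.snd.comp (Primrec.fst.comp Primrec.fst))
        (primrec_pow2.comp (Primrec.fst.comp Primrec.snd)))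
  refine (Primrec.nat_rec' (f := fun a : (List ℕ × ℕ) × ℕ => a.2)
    (g := fun a => !bA (a.1.1.getD a.1.2 0)) Primrec.snd
    (Primrec.not.comp (hA.comp ((Primrec.list_getD 0).comp (Primrec.fst.comp Primrec.fst)
      (Primrec.snd.comp Primrec.fst)))) h2).of_eq ?_
  rintro ⟨⟨L, t⟩, k⟩
  simp only
  induction k with
  | zero => rfl
  | succ k ih => simp only [alv1] at ih ⊢; rw [← ih]

theorem primrec_levn {bA bS : ℕ → Bool} (hA : Primrec bA) (hS : Primrec bS) :
    Primrec fun a : (List ℕ × ℕ) × ℕ => levn bA bS a.1.1 a.1.2 a.2 := by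
  have h := primrec_alv1 hA hS
  refine Primrec.and.comp (Primrec.ite ?_ (Primrec.const true) ?_) (Primrec.not.comp h)
  · exact Primrec.eq.comp Primrec.snd (Primrec.const 0)
  · exact h.comp (Primrec.fst.pair (Primrec.nat_sub.comp Primrec.snd (Primrec.const 1)))

/-! ### the decoding stage function -/

def decV (K : ℕ) (dn : ℕ → ℕ → ℕ × ℕ × Bool) (bA bS bZ : ℕ → Bool) (τ : List Bool) (m : ℕ) :
    Option Bool :=
  let B := τ.length.unpair.2.unpair.1
  let k1 := τ.length.unpair.2.unpair.2.unpair.1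
  let k2 := τ.length.unpair.2.unpair.2.unpair.2.unpair.1
  let j := τ.length.unpair.2.unpair.2.unpair.2.unpair.2
  let L := tp0 K τ B
  let s0 := (symv K τ 0, B, L)
  if (K * (2 * B + 2) ≤ τ.length ∧ k1 ≤ B ∧ k2 ≤ B) ∧
      ((nrun dn s0 k1).2.1 + 2 ^ (m + 3) ≤ j ∧ j + 2 ^ (m + 3) ≤ (nrun dn s0 k2).2.1) ∧
      levn bA bS L j m = true then some (bZ (L.getD j 0)) else none

theorem primrec_decV (K : ℕ) {dn : ℕ → ℕ → ℕ × ℕ × Bool} {bA bS bZ : ℕ → Bool}
    (hd : Primrec₂ dn) (hA : Primrec bA) (hS : Primrec bS) (hZ : Primrec bZ) :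
    Primrec₂ (decV K dn bA bS bZ) := by
  have hn : Primrec fun a : List Bool × ℕ => a.1.length := Primrec.list_length.comp Primrec.fst
  have u1 : Primrec fun a : List Bool × ℕ => a.1.length.unpair.2 :=
    Primrec.snd.comp (Primrec.unpair.comp hn)
  have hB : Primrec fun a : List Bool × ℕ => a.1.length.unpair.2.unpair.1 :=
    Primrec.fst.comp (Primrec.unpair.comp u1)
  have u2 : Primrec fun a : List Bool × ℕ => a.1.length.unpair.2.unpair.2 :=
    Primrec.snd.comp (Primrec.unpair.comp u1)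
  have hk1 : Primrec fun a : List Bool × ℕ => a.1.length.unpair.2.unpair.2.unpair.1 :=
    Primrec.fst.comp (Primrec.unpair.comp u2)
  have u3 : Primrec fun a : List Bool × ℕ => a.1.length.unpair.2.unpair.2.unpair.2 :=
    Primrec.snd.comp (Primrec.unpair.comp u2)
  have hk2 : Primrec fun a : List Bool × ℕ => a.1.length.unpair.2.unpair.2.unpair.2.unpair.1 :=
    Primrec.fst.comp (Primrec.unpair.comp u3)
  have hj : Primrec fun a : List Bool × ℕ => a.1.length.unpair.2.unpair.2.unpair.2.unpair.2 :=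
    Primrec.snd.comp (Primrec.unpair.comp u3)
  have hL : Primrec fun a : List Bool × ℕ => tp0 K a.1 a.1.length.unpair.2.unpair.1 :=
    (primrec_tp0 K).comp Primrec.fst hB
  have hs : Primrec fun a : List Bool × ℕ => (symv K a.1 0, a.1.length.unpair.2.unpair.1,
      tp0 K a.1 a.1.length.unpair.2.unpair.1) :=
    ((primrec_symv K).comp Primrec.fst (Primrec.const 0)).pair (hB.pair hL)
  have hr := primrec_nrun hd
  have hp : Primrec fun a : List Bool × ℕ => 2 ^ (a.2 + 3) :=
    primrec_pow2.comp (Primrec.nat_add.comp Primrec.snd (Primrec.const 3))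
  have p1 : Primrec fun a : List Bool × ℕ => (nrun dn (symv K a.1 0, a.1.length.unpair.2.unpair.1,
      tp0 K a.1 a.1.length.unpair.2.unpair.1) a.1.length.unpair.2.unpair.2.unpair.1).2.1 :=
    Primrec.fst.comp (Primrec.snd.comp (hr.comp hs hk1))
  have p2 : Primrec fun a : List Bool × ℕ => (nrun dn (symv K a.1 0, a.1.length.unpair.2.unpair.1,
      tp0 K a.1 a.1.length.unpair.2.unpair.1)
        a.1.length.unpair.2.unpair.2.unpair.2.unpair.1).2.1 :=
    Primrec.fst.comp (Primrec.snd.comp (hr.comp hs hk2))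
  refine Primrec.ite (PrimrecPred.and (PrimrecPred.and ?_ (PrimrecPred.and ?_ ?_))
    (PrimrecPred.and (PrimrecPred.and ?_ ?_) ?_)) ?_ (Primrec.const none)
  · exact Primrec.nat_le.comp (Primrec.nat_mul.comp (Primrec.const K)
      (Primrec.nat_add.comp (Primrec.nat_mul.comp (Primrec.const 2) hB) (Primrec.const 2))) hn
  · exact Primrec.nat_le.comp hk1 hB
  · exact Primrec.nat_le.comp hk2 hB
  · exact Primrec.nat_le.comp (Primrec.nat_add.comp p1 hp) hj
  · exact Primrec.nat_le.comp (Primrec.nat_add.comp hj hp) p2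
  · exact Primrec.eq.comp ((primrec_levn hA hS).comp ((hL.pair hj).pair Primrec.snd))
      (Primrec.const true)
  · exact Primrec.option_some.comp (hZ.comp ((Primrec.list_getD 0).comp hL hj))

end Pool.Agent.H722.Med
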