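import Pool.Agent.H722.Med.Dec

/-! Correctness of the decoding functional. -/

namespace Pool.Agent.H722.Med

open MedDefs

section
variable {A C : Type} [Finite A] [Finite C] (T : Sys A C)

open Classical in
noncomputable def dnT (q s : ℕ) : ℕ × ℕ × Bool :=
  if h : q < (mkTM T).nQ ∧ s < (mkTM T).nS then
    (match T.δ ((eQ C).symm ⟨q, h.1⟩) ((eS A C).symm ⟨s, h.2⟩).1 ((eS A C).symm ⟨s, h.2⟩).2 with
     | some o => ((eQ C o.1).val, (eS A C (((eS A C).symm ⟨s, h.2⟩).1, o.2.1)).val, o.2.2)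
     | none => (0, 0, true))
  else (0, 0, true)

theorem dnT_eq {q : Stt C} {a : A} {w : Wk C} {o : Stt C × Wk C × Bool} (h : T.δ q a w = some o) :
    dnT T (eQ C q).val (eS A C (a, w)).val = ((eQ C o.1).val, (eS A C (a, o.2.1)).val, o.2.2) := by
  have hh : (eQ C q).val < (mkTM T).nQ ∧ (eS A C (a, w)).val < (mkTM T).nS :=
    ⟨(eQ C q).isLt, (eS A C (a, w)).isLt⟩
  have e1 : (eQ C).symm ⟨(eQ C q).val, hh.1⟩ = q := (eQ C).symm_apply_apply q
  have e2 : (eS A C).symm ⟨(eS A C (a, w)).val, hh.2⟩ = (a, w) := (eS A C).symm_apply_apply (a, w)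
  rw [dnT, dif_pos hh, e1, e2]
  simp only [h]

theorem primrec_dnT : Primrec₂ (dnT T) := by
  refine primrec_supp2 _ (max (mkTM T).nQ (mkTM T).nS) (0, 0, true) fun n m h => ?_
  rw [dnT, dif_neg]
  rintro ⟨h1, h2⟩
  rcases h with h | h
  · exact absurd (lt_of_lt_of_le h1 ((le_max_left _ _).trans h)) (lt_irrefl _)
  · exact absurd (lt_of_lt_of_le h2 ((le_max_right _ _).trans h)) (lt_irrefl _)

open Classical in
noncomputable def bitT (f : A → Bool) (s : ℕ) : Bool :=
  if h : s < (mkTM T).nS then f ((eS A C).symm ⟨s, h⟩).1 else false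

theorem bitT_eq (f : A → Bool) (a : A) (w : Wk C) : bitT T f (eS A C (a, w)).val = f a := by
  have hh : (eS A C (a, w)).val < (mkTM T).nS := (eS A C (a, w)).isLt
  have e2 : (eS A C).symm ⟨(eS A C (a, w)).val, hh⟩ = (a, w) := (eS A C).symm_apply_apply (a, w)
  rw [bitT, dif_pos hh, e2]

theorem primrec_bitT (f : A → Bool) : Primrec (bitT T f) := by
  refine primrec_supp _ (mkTM T).nS false fun n h => ?_
  rw [bitT, dif_neg (by omega)]

variable {T}

theorem track {x : ℤ → A} {c0 : Cfg C} (h0 : c0.p = 0) {B : ℕ} {L0 : List ℕ}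
    (hlen : L0.length = 2 * B + 1)
    (hL : ∀ t : ℕ, t ≤ 2 * B → L0.getD t 0 = (eS A C (x ((t : ℤ) - B), c0.w ((t : ℤ) - B))).val) :
    ∀ k ≤ B, ∀ d, T.run x k c0 = some d →
      (nrun (dnT T) ((eQ C c0.q).val, B, L0) k).1 = (eQ C d.q).val ∧
      ((nrun (dnT T) ((eQ C c0.q).val, B, L0) k).2.1 : ℤ) = d.p + B ∧
      -(k : ℤ) ≤ d.p ∧ d.p ≤ k ∧
      (nrun (dnT T) ((eQ C c0.q).val, B, L0) k).2.2.length = 2 * B + 1 ∧
      ∀ t : ℕ, t ≤ 2 * B → (nrun (dnT T) ((eQ C c0.q).val, B, L0) k).2.2.getD t 0 =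
        (eS A C (x ((t : ℤ) - B), d.w ((t : ℤ) - B))).val := by
  intro k
  induction k with
  | zero =>
    intro _ d hd
    simp only [Sys.run, Option.some.injEq] at hd
    subst hd
    exact ⟨rfl, by simp [nrun, h0], by simp [h0], by simp [h0], hlen, hL⟩
  | succ k ih =>
    intro hk d' hd'
    rw [Sys.run_add] at hd'
    obtain ⟨d, hd, hd1⟩ := Option.bind_eq_some_iff.1 hd'
    have hstep : T.step x d = some d' := by
      rw [Sys.run] at hd1
      obtain ⟨d2, h2, h3⟩ := Option.bind_eq_some_iff.1 hd1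
      simp only [Sys.run, Option.some.injEq] at h3
      rw [← h3]; exact h2
    obtain ⟨i1, i2, i3, i4, i5, i6⟩ := ih (by omega) d hd
    rw [Sys.step] at hstep
    obtain ⟨o, ho, ho'⟩ := Option.map_eq_some_iff.1 hstep
    set s := nrun (dnT T) ((eQ C c0.q).val, B, L0) k with hs
    have hpos : s.2.1 ≤ 2 * B := by omega
    have hpos1 : 1 ≤ s.2.1 := by omega
    have hpp : ((s.2.1 : ℕ) : ℤ) - B = d.p := by omega
    have hget : s.2.2.getD s.2.1 0 = (eS A C (x d.p, d.w d.p)).val := by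
      rw [i6 _ hpos, hpp]
    have hdn : dnT T s.1 (s.2.2.getD s.2.1 0) =
        ((eQ C o.1).val, (eS A C (x d.p, o.2.1)).val, o.2.2) := by
      rw [hget, i1]; exact dnT_eq T ho
    have hn : nrun (dnT T) ((eQ C c0.q).val, B, L0) (k + 1) =
        ((eQ C o.1).val, (if o.2.2 = true then s.2.1 + 1 else s.2.1 - 1),
          s.2.2.set s.2.1 (eS A C (x d.p, o.2.1)).val) := by
      rw [nrun, ← hs, nstep, hdn]
    rw [hn]
    subst ho'
    refine ⟨rfl, ?_, ?_, ?_, ?_, ?_⟩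
    · cases o.2.2
      · simp only [Bool.false_eq_true, if_false, ps_false]; omega
      · simp only [if_true, ps_true]; push_cast; omega
    · cases o.2.2
      · simp only [ps_false]; push_cast; omega
      · simp only [ps_true]; push_cast; omega
    · cases o.2.2
      · simp only [ps_false]; push_cast; omega
      · simp only [ps_true]; push_cast; omega
    · simp only [List.length_set]; exact i5
    · intro t ht
      by_cases h : t = s.2.1
      · subst h
        simp only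
        rw [hpp, upd_self]
        simp [List.getD, i5, Nat.lt_succ_of_le hpos]
      · have h' : ((t : ℤ) - B) ≠ d.p := by omega
        simp only
        rw [upd_ne _ _ h', ← i6 t ht]
        simp [List.getD, Ne.symm h]

theorem sym_toConf (x : ℤ → A) (c0 : Cfg C) (h0 : c0.p = 0) {n B : ℕ}
    (hn : ((mkTM T).nQ + (mkTM T).nS) * (2 * B + 2) ≤ n) :
    symv ((mkTM T).nQ + (mkTM T).nS) (ini ((mkTM T).code (toConf T x c0)) n) 0 = (eQ C c0.q).val ∧
    ∀ t : ℕ, t ≤ 2 * B →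
      (tp0 ((mkTM T).nQ + (mkTM T).nS) (ini ((mkTM T).code (toConf T x c0)) n) B).getD t 0 =
        (eS A C (x ((t : ℤ) - B), c0.w ((t : ℤ) - B))).val := by
  constructor
  · rw [symv_code, if_pos rfl]
    · rfl
    · refine le_trans ?_ hn
      exact Nat.mul_le_mul_left _ (by omega)
  · intro t ht
    unfold tp0
    have : (List.map (fun t => symv ((mkTM T).nQ + (mkTM T).nS)
        (ini ((mkTM T).code (toConf T x c0)) n) (blk B t)) (List.range (2 * B + 1))).getD t 0 =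
        symv ((mkTM T).nQ + (mkTM T).nS) (ini ((mkTM T).code (toConf T x c0)) n) (blk B t) := by
      simp [List.getD, Nat.lt_succ_of_le ht]
    rw [this, symv_code, if_neg blk_ne, cellOf_blk]
    · simp only [toConf, h0, zero_add]
    · refine le_trans ?_ hn
      exact Nat.mul_le_mul_left _ (blk_le ht)

end

theorem Tt_two (k : ℕ) : Tt k + 2 = 2 ^ (k + 1) := by
  induction k with
  | zero => rfl
  | succ k ih => rw [Tt, pow_succ]; omega

theorem Mg_eq (m : ℕ) : Mg m = 2 ^ (m + 3) := by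
  have := Tt_two (m + 2)
  unfold Mg
  rw [show m + 3 = m + 2 + 1 by ring]
  exact_mod_cast this

theorem levn_eq {x : ℤ → Sy} {bA bS : ℕ → Bool} {L : List ℕ} {B : ℕ}
    (hA : ∀ t : ℕ, t ≤ 2 * B → bA (L.getD t 0) = (x ((t : ℤ) - B)).a)
    (hS : ∀ t : ℕ, t ≤ 2 * B → bS (L.getD t 0) = (x ((t : ℤ) - B)).s) {j : ℕ} (hj : j ≤ 2 * B)
    {m : ℕ} (hm : 2 ^ m ≤ j) : levn bA bS L j m = lev x m ((j : ℤ) - B) := by
  have key : ∀ k, 2 ^ k ≤ 2 * j → alv1 bA bS L j k = alv x (k + 1) ((j : ℤ) - B) := by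
    intro k
    induction k with
    | zero =>
      intro _
      rw [alv1, alv, hA j hj]
    | succ k ih =>
      intro hk
      rw [pow_succ] at hk
      rw [alv1, alv, ih (by omega), hS _ (by omega), Nat.cast_sub (by omega)]
      congr 4
      push_cast; ring
  have hm' : 2 ^ m ≤ 2 * j := by omega
  unfold levn lev
  rw [key m hm']
  cases m with
  | zero => simp [alv]
  | succ m =>
    rw [pow_succ] at hm
    rw [if_neg (by omega), Nat.add_sub_cancel, key m (by omega)]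

/-- The immortal set computes the class. -/
theorem dec_med (M : HTM) [Finite M.Q] [Finite M.W] (P : Set (ℕ → Bool))
    (hM : ∀ y, (∀ n, ¬ Rep M (omy y) n) → y ∈ P) : MedLE P (mkTM (sysOf M)).immSet := by
  have hprim := primrec_decV ((mkTM (sysOf M)).nQ + (mkTM (sysOf M)).nS) (primrec_dnT (sysOf M))
    (primrec_bitT (sysOf M) Sy.a) (primrec_bitT (sysOf M) Sy.s) (primrec_bitT (sysOf M) Sy.z)
  refine med_of_stage hprim ?_
  rintro y ⟨c, hc, rfl⟩
  obtain ⟨x, c0, h0, rfl⟩ := exists_toConf (sysOf M) c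
  have hal := (immortal_iff (sysOf M) x c0).1 hc
  set K := (mkTM (sysOf M)).nQ + (mkTM (sysOf M)).nS with hK
  let V : ℤ → Prop := fun p => ∃ k d, (sysOf M).run x k c0 = some d ∧ d.p = p
  have hgood : ∀ p q, V p → V q → DG M x (p + 2) (q - 2) := by
    rintro p q ⟨k1, d1, h1, rfl⟩ ⟨k2, d2, h2, rfl⟩ t j ha hb
    exact sg_ne_none_of_cw M x (Sys.good_between hal h1 h2 (2 * t) (j - t) ha (by push_cast; omega))
  have hunb : ∀ N : ℕ, ∃ p q, V p ∧ V q ∧ p + N ≤ q := by
    intro N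
    obtain ⟨k1, k2, d1, d2, h1, h2, h3⟩ := Sys.visited_unbounded hal N
    exact ⟨d1.p, d2.p, ⟨k1, d1, h1, rfl⟩, ⟨k2, d2, h2, rfl⟩, h3⟩
  obtain ⟨z, hz1, hz2⟩ := decode_sound V hgood hunb
  refine ⟨z, hM z hz2, ?_, ?_⟩
  · intro n m b hb
    unfold decV at hb
    simp only [ini_length] at hb
    split_ifs at hb with hc1
    obtain ⟨⟨a1, a2, a3⟩, ⟨a4, a5⟩, a6⟩ := hc1
    generalize n.unpair.2.unpair.1 = B at *
    generalize n.unpair.2.unpair.2.unpair.1 = k1 at *
    generalize n.unpair.2.unpair.2.unpair.2.unpair.1 = k2 at *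
    generalize n.unpair.2.unpair.2.unpair.2.unpair.2 = j at *
    obtain ⟨e1, e2⟩ := sym_toConf (T := sysOf M) x c0 h0 (n := n) (B := B) a1
    rw [← hK] at e1 e2
    rw [e1] at a4 a5
    have tr := track (T := sysOf M) (x := x) h0 (B := B) (tp0_length K _ B) e2
    obtain ⟨d1, hd1⟩ := Option.ne_none_iff_exists'.1 (hal k1)
    obtain ⟨d2, hd2⟩ := Option.ne_none_iff_exists'.1 (hal k2)
    obtain ⟨-, p1, q1, r1, -, -⟩ := tr k1 a2 d1 hd1
    obtain ⟨-, p2, q2, r2, -, -⟩ := tr k2 a3 d2 hd2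
    have hpow : (((2 : ℕ) ^ (m + 3) : ℕ) : ℤ) = Mg m := by rw [Mg_eq]; push_cast; rfl
    have hpp : (0 : ℤ) < Mg m := by rw [Mg_eq]; positivity
    have hj : j ≤ 2 * B := by omega
    have hm : 2 ^ m ≤ j := by
      have : 2 ^ m ≤ 2 ^ (m + 3) := Nat.pow_le_pow_right (by norm_num) (by omega)
      omega
    rw [levn_eq (x := x) (B := B) (fun t ht => by rw [e2 t ht, bitT_eq])
      (fun t ht => by rw [e2 t ht, bitT_eq]) hj hm] at a6
    rw [e2 j hj, bitT_eq] at hb
    simp only [Option.some.injEq] at hb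
    rw [← hb]
    refine (hz1 m _ d1.p d2.p ⟨k1, d1, hd1, rfl⟩ ⟨k2, d2, hd2, rfl⟩ ?_ ?_ a6).symm
    · rw [← hpow]; omega
    · rw [← hpow]; omega
  · intro m
    obtain ⟨i, p, q, ⟨k1, d1, hd1, rfl⟩, ⟨k2, d2, hd2, rfl⟩, hi1, hi2, hlev⟩ :=
      decode_complete V hgood hunb m
    obtain ⟨B, hB⟩ : ∃ B, B = max k1 k2 := ⟨_, rfl⟩
    have b1 : k1 ≤ B := by omega
    have b2 : k2 ≤ B := by omega
    obtain ⟨j, hj⟩ : ∃ j : ℕ, j = (i + B).toNat := ⟨_, rfl⟩
    refine ⟨Nat.pair (K * (2 * B + 2)) (Nat.pair B (Nat.pair k1 (Nat.pair k2 j))), ?_⟩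
    have hnn : K * (2 * B + 2) ≤
      Nat.pair (K * (2 * B + 2)) (Nat.pair B (Nat.pair k1 (Nat.pair k2 j))) := Nat.left_le_pair _ _
    have hun : (Nat.pair (K * (2 * B + 2)) (Nat.pair B (Nat.pair k1 (Nat.pair k2 j)))).unpair.2 =
        Nat.pair B (Nat.pair k1 (Nat.pair k2 j)) := by rw [Nat.unpair_pair]
    generalize Nat.pair (K * (2 * B + 2)) (Nat.pair B (Nat.pair k1 (Nat.pair k2 j))) = n at hnn hun
    obtain ⟨e1, e2⟩ := sym_toConf (T := sysOf M) x c0 h0 (n := n) (B := B) hnn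
    rw [← hK] at e1 e2
    have tr := track (T := sysOf M) (x := x) h0 (B := B) (tp0_length K _ B) e2
    obtain ⟨-, p1, q1, r1, -, -⟩ := tr k1 b1 d1 hd1
    obtain ⟨-, p2, q2, r2, -, -⟩ := tr k2 b2 d2 hd2
    have hpow : (((2 : ℕ) ^ (m + 3) : ℕ) : ℤ) = Mg m := by rw [Mg_eq]; push_cast; rfl
    have hpp : (0 : ℤ) < Mg m := by rw [Mg_eq]; positivity
    have hji : (j : ℤ) - B = i := by omega
    have hj2 : j ≤ 2 * B := by omega
    have hm : 2 ^ m ≤ j := by
      have : 2 ^ m ≤ 2 ^ (m + 3) := Nat.pow_le_pow_right (by norm_num) (by omega)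
      omega
    unfold decV
    simp only [ini_length, hun, Nat.unpair_pair]
    rw [e1, if_pos]
    · simp
    · refine ⟨⟨hnn, b1, b2⟩, ⟨?_, ?_⟩, ?_⟩
      · omega
      · omega
      · rw [levn_eq (x := x) (B := B) (fun t ht => by rw [e2 t ht, bitT_eq])
          (fun t ht => by rw [e2 t ht, bitT_eq]) hj2 hm, hji]
        exact hlev

end Pool.Agent.H722.Med
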