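import Mathlib

/-! Definitions for `MP_4596be_lc`: Turing machines on bi-infinite tapes, immortal sets, their
coding as subsets of Cantor space, effectively closed classes and Medvedev reducibility. -/

namespace Pool.Agent.H722.MedDefs

/-- Head movements `-1`, `0`, `+1`. -/
inductive Move
  | left | stay | right

/-- The displacement of a head movement. -/
def Move.toInt : Move → ℤ
  | .left => -1
  | .stay => 0
  | .right => 1

/-- A Turing machine: finite state set `Fin nQ`, finite tape alphabet `Fin nS`, and a partial
transition function. The machine halts when `δ` is undefined. -/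
structure TM where
  nQ : ℕ
  nS : ℕ
  δ : Fin nQ → Fin nS → Option (Fin nQ × Fin nS × Move)

/-- A configuration: the state and the full content of the bi-infinite tape, with the head at
cell `0`. The tape content is arbitrary. -/
abbrev TM.Conf (M : TM) : Type := Fin M.nQ × (ℤ → Fin M.nS)

/-- One step: apply `δ` at cell `0`, then recentre the tape at the new head position. -/
def TM.step (M : TM) (c : M.Conf) : Option M.Conf :=
  (M.δ c.1 (c.2 0)).map fun o => (o.1, fun i => Function.update c.2 0 o.2.1 (i + o.2.2.toInt))

/-- `n` steps; `none` if the machine has halted. -/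
def TM.run (M : TM) : ℕ → M.Conf → Option M.Conf
  | 0, c => some c
  | n + 1, c => (M.step c).bind (M.run n)

/-- The immortal set: the configurations from which the machine never halts. -/
def TM.Immortal (M : TM) : Set M.Conf := {c | ∀ n, M.run n c ≠ none}

/-- The enumeration `0, -1, 1, -2, 2, ...` of the cells. -/
def cellOf (k : ℕ) : ℤ := if k % 2 = 0 then ((k / 2 : ℕ) : ℤ) else -(((k + 1) / 2 : ℕ) : ℤ)

/-- The fixed computable coding of configurations by points of Cantor space: the code is cut into
blocks of length `nQ + nS`; block `0` is the one-hot code of the state, block `b + 1` the one-hot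
code of the symbol in cell `cellOf b`. -/
def TM.code (M : TM) (c : M.Conf) : ℕ → Bool := fun n =>
  if n / (M.nQ + M.nS) = 0 then decide (n % (M.nQ + M.nS) = c.1.val)
  else decide (n % (M.nQ + M.nS) = (c.2 (cellOf (n / (M.nQ + M.nS) - 1))).val)

/-- The immortal set as a subset of Cantor space. -/
def TM.immSet (M : TM) : Set (ℕ → Bool) := M.code '' M.Immortal

/-- The initial segment of length `n`. -/
def ini (y : ℕ → Bool) (n : ℕ) : List Bool := (List.range n).map y

/-- Effectively closed (`Π⁰₁`) subsets of Cantor space: the points none of whose initial segments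
lies in some recursively enumerable set of strings. -/
def IsPi01 (P : Set (ℕ → Bool)) : Prop :=
  ∃ W : List Bool → Prop, REPred W ∧ P = {y | ∀ n, ¬ W (ini y n)}

/-- Medvedev reducibility `P ≤_M R`: there is a Turing functional, presented by a computable map
`Φ` on strings that is monotone for the prefix order, which sends every `y ∈ R` to some `z ∈ P`
(`z` is the limit of the strings `Φ (ini y k)`). -/
def MedLE (P R : Set (ℕ → Bool)) : Prop :=
  ∃ Φ : List Bool → List Bool, Computable Φ ∧ (∀ σ τ, σ <+: τ → Φ σ <+: Φ τ) ∧
    ∀ y ∈ R, ∃ z ∈ P, ∀ n, ∃ k, ini z n <+: Φ (ini y k)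

/-- Medvedev equivalence: the two sets have the same Medvedev degree. -/
def MedEquiv (P R : Set (ℕ → Bool)) : Prop := MedLE P R ∧ MedLE R P

end Pool.Agent.H722.MedDefs
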