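import Pool.Agent.H722.Med.Dec2

/-! The encoding functional: from a point of the class to an immortal configuration. -/

namespace Pool.Agent.H722.Med

open MedDefs

theorem sg_shift (M : HTM) (x : ℤ → Sy) (t : ℕ) : ∀ j,
    sg M (fun i => x (i + 1)) t j = sg M x t (j + 1) := by
  induction t with
  | zero => intro j; rfl
  | succ t ih =>
    intro j
    rw [sg, sg, ih, ih, ih, show j - 1 + 1 = j + 1 - 1 by ring]

/-! ### arithmetic of the standard sequence -/

/-- absolute value and sign of `cellOf b + 1` -/
def nab (b : ℕ) : ℕ := if b % 2 = 0 then b / 2 + 1 else b / 2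

theorem cell_pos {b : ℕ} (h : b % 2 = 0) : cellOf b + 1 = (nab b : ℤ) := by
  unfold cellOf nab; rw [if_pos h, if_pos h]; push_cast; ring

theorem cell_neg {b : ℕ} (h : b % 2 ≠ 0) : cellOf b + 1 = -(nab b : ℤ) := by
  unfold cellOf nab; rw [if_neg h, if_neg h]; omega

theorem nab_eq_zero {b : ℕ} : nab b = 0 ↔ b = 1 := by
  unfold nab
  by_cases h : b % 2 = 0
  · rw [if_pos h]; omega
  · rw [if_neg h]; omega

theorem cell_m1 {b : ℕ} : cellOf b = -1 ↔ b = 1 := by
  unfold cellOf
  by_cases h : b % 2 = 0
  · rw [if_pos h]; omega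
  · rw [if_neg h]; omega

def vn (n : ℕ) : ℕ := Nat.findGreatest (fun k => n % 2 ^ k = 0) n

theorem vn_eq {n : ℕ} (h : n ≠ 0) : vn n = padicValNat 2 n := by
  have h1 : ∀ k, n % 2 ^ k = 0 ↔ k ≤ padicValNat 2 n := by
    intro k
    rw [← Nat.dvd_iff_mod_eq_zero, padicValNat_dvd_iff_le h]
  have h2 : padicValNat 2 n ≤ n := by
    have h3 : 2 ^ padicValNat 2 n ≤ n := Nat.le_of_dvd (Nat.pos_of_ne_zero h) pow_padicValNat_dvd
    have h4 : padicValNat 2 n < 2 ^ padicValNat 2 n := Nat.lt_two_pow_self
    omega
  apply le_antisymm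
  · rw [← h1]
    exact Nat.findGreatest_spec (P := fun k => n % 2 ^ k = 0) (Nat.zero_le _) (by simp [Nat.mod_one])
  · exact Nat.le_findGreatest h2 ((h1 _).2 le_rfl)

theorem primrec_vn : Primrec vn := by
  refine Primrec.nat_findGreatest (f := fun n : ℕ => n) (p := fun n k => n % 2 ^ k = 0)
    Primrec.id ?_
  exact Primrec.eq.comp (Primrec.nat_mod.comp Primrec.fst (primrec_pow2.comp Primrec.snd))
    (Primrec.const 0)

theorem primrec_nab : Primrec nab := by
  refine Primrec.ite ?_ ?_ ?_
  · exact Primrec.eq.comp (Primrec.nat_mod.comp Primrec.id (Primrec.const 2)) (Primrec.const 0)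
  · exact Primrec.succ.comp (Primrec.nat_div.comp Primrec.id (Primrec.const 2))
  · exact Primrec.nat_div.comp Primrec.id (Primrec.const 2)

def aN (b : ℕ) : Bool := if nab b % 2 = 1 then true else false

def sN (b : ℕ) : Bool :=
  if b % 2 = 0 then (if (nab b / 2 ^ vn (nab b)) % 4 = 1 then true else false)
  else (if (nab b / 2 ^ vn (nab b)) % 4 = 3 then true else false)

theorem primrec_aN : Primrec aN := by
  refine Primrec.ite ?_ (Primrec.const _) (Primrec.const _)
  exact Primrec.eq.comp (Primrec.nat_mod.comp primrec_nab (Primrec.const 2)) (Primrec.const 1)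

theorem primrec_sN : Primrec sN := by
  have h : Primrec fun b => nab b / 2 ^ vn (nab b) :=
    Primrec.nat_div.comp primrec_nab (primrec_pow2.comp (primrec_vn.comp primrec_nab))
  refine Primrec.ite ?_ (Primrec.ite ?_ (Primrec.const _) (Primrec.const _))
    (Primrec.ite ?_ (Primrec.const _) (Primrec.const _))
  · exact Primrec.eq.comp (Primrec.nat_mod.comp Primrec.id (Primrec.const 2)) (Primrec.const 0)
  · exact Primrec.eq.comp (Primrec.nat_mod.comp h (Primrec.const 4)) (Primrec.const 1)
  · exact Primrec.eq.comp (Primrec.nat_mod.comp h (Primrec.const 4)) (Primrec.const 3)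

theorem xy_cell (y : ℕ → Bool) (b : ℕ) : xy y (cellOf b + 1) =
    ⟨aN b, sN b, if nab b = 0 then false else y (vn (nab b))⟩ := by
  by_cases h0 : nab b = 0
  · have hb : b = 1 := nab_eq_zero.1 h0
    subst hb
    have e : cellOf 1 + 1 = 0 := by simp [cellOf]
    rw [e]
    simp [xy, aN, sN, h0]
  · have hv : v2 (cellOf b + 1) = vn (nab b) := by
      rw [vn_eq h0, v2]
      congr 1
      by_cases h : b % 2 = 0
      · rw [cell_pos h]; simp
      · rw [cell_neg h]; simp
    have hne : cellOf b + 1 ≠ 0 := by
      by_cases h : b % 2 = 0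
      · rw [cell_pos h]; exact_mod_cast h0
      · rw [cell_neg h]; simpa using h0
    have hdvd : 2 ^ vn (nab b) ∣ nab b := by rw [vn_eq h0]; exact pow_padicValNat_dvd
    unfold xy
    rw [hv, if_neg hne, if_neg h0]
    obtain ⟨c, hc⟩ := hdvd
    have hpos : 0 < 2 ^ vn (nab b) := by positivity
    have hdiv : nab b / 2 ^ vn (nab b) = c := Nat.div_eq_of_eq_mul_right hpos hc
    by_cases h : b % 2 = 0
    · have hq : (cellOf b + 1) / 2 ^ vn (nab b) = (c : ℤ) := by
        rw [cell_pos h]
        have : (nab b : ℤ) = 2 ^ vn (nab b) * (c : ℤ) := by exact_mod_cast hc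
        exact Int.ediv_eq_of_eq_mul_right (by positivity) this
      have ha : decide ((cellOf b + 1) % 2 = 1) = aN b := by
        rw [cell_pos h, aN]
        by_cases h1 : nab b % 2 = 1
        · rw [if_pos h1]; simp; omega
        · rw [if_neg h1]; simp; omega
      have hs : decide ((cellOf b + 1) / 2 ^ vn (nab b) % 4 = 1) = sN b := by
        rw [hq, sN, if_pos h, hdiv]
        by_cases h1 : c % 4 = 1
        · rw [if_pos h1]; simp; omega
        · rw [if_neg h1]; simp; omega
      rw [ha, hs]
    · have hq : (cellOf b + 1) / 2 ^ vn (nab b) = -(c : ℤ) := by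
        rw [cell_neg h]
        have : -(nab b : ℤ) = 2 ^ vn (nab b) * (-(c : ℤ)) := by
          have : (nab b : ℤ) = 2 ^ vn (nab b) * (c : ℤ) := by exact_mod_cast hc
          rw [mul_neg, ← this]
        exact Int.ediv_eq_of_eq_mul_right (by positivity) this
      have ha : decide ((cellOf b + 1) % 2 = 1) = aN b := by
        rw [cell_neg h, aN]
        by_cases h1 : nab b % 2 = 1
        · rw [if_pos h1]; simp; omega
        · rw [if_neg h1]; simp; omega
      have hs : decide ((cellOf b + 1) / 2 ^ vn (nab b) % 4 = 1) = sN b := by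
        rw [hq, sN, if_neg h, hdiv]
        by_cases h1 : c % 4 = 3
        · rw [if_pos h1]; simp; omega
        · rw [if_neg h1]; simp; omega
      rw [ha, hs]

/-! ### the encoding stage function -/

def encV (K qv : ℕ) (sn : Bool × Bool × Bool × Bool → ℕ) (σ : List Bool) (t : ℕ) : Option Bool :=
  if t / K = 0 then some (if t % K = qv then true else false)
  else (if nab (t / K - 1) = 0 then some false else σ[vn (nab (t / K - 1))]?).map fun z =>
    if t % K = sn (aN (t / K - 1), sN (t / K - 1), z, if t / K - 1 = 1 then true else false) then true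
    else false

theorem primrec_encV (K qv : ℕ) (sn : Bool × Bool × Bool × Bool → ℕ) :
    Primrec₂ (encV K qv sn) := by
  have hb : Primrec fun a : List Bool × ℕ => a.2 / K :=
    Primrec.nat_div.comp Primrec.snd (Primrec.const K)
  have hm : Primrec fun a : List Bool × ℕ => a.2 % K :=
    Primrec.nat_mod.comp Primrec.snd (Primrec.const K)
  have hb' : Primrec fun a : List Bool × ℕ => a.2 / K - 1 :=
    Primrec.nat_sub.comp hb (Primrec.const 1)
  have hna : Primrec fun a : List Bool × ℕ => nab (a.2 / K - 1) := primrec_nab.comp hb'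
  refine Primrec.ite (Primrec.eq.comp hb (Primrec.const 0)) ?_ (Primrec.option_map ?_ ?_)
  · exact Primrec.option_some.comp (Primrec.ite (Primrec.eq.comp hm (Primrec.const qv))
      (Primrec.const _) (Primrec.const _))
  · refine Primrec.ite (Primrec.eq.comp hna (Primrec.const 0)) (Primrec.const _) ?_
    exact Primrec.list_getElem?.comp Primrec.fst (primrec_vn.comp hna)
  · have hsn : Primrec sn := Primrec.dom_finite sn
    refine Primrec.ite (Primrec.eq.comp (hm.comp Primrec.fst) (hsn.comp ?_)) (Primrec.const _)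
      (Primrec.const _)
    refine Primrec.pair (primrec_aN.comp (hb'.comp Primrec.fst))
      (Primrec.pair (primrec_sN.comp (hb'.comp Primrec.fst)) (Primrec.pair Primrec.snd ?_))
    exact Primrec.ite (Primrec.eq.comp (hb'.comp Primrec.fst) (Primrec.const 1)) (Primrec.const _)
      (Primrec.const _)

/-- The class computes the immortal set. -/
theorem enc_med (M : HTM) [Finite M.Q] [Finite M.W] (P : Set (ℕ → Bool))
    (hM : ∀ y ∈ P, ∀ n, hrun M (omy y) n ≠ none) : MedLE (mkTM (sysOf M)).immSet P := by
  classical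
  let T := sysOf M
  let K := (mkTM T).nQ + (mkTM T).nS
  let k0 : Ph × (Cell M ⊕ Cell M × Cell M) := (.b, T.ι ⟨false, false, false⟩)
  let q0 : Stt (Cell M ⊕ Cell M × Cell M) := .S true k0 (T.ι ⟨false, false, false⟩)
  let sn : Bool × Bool × Bool × Bool → ℕ := fun v =>
    (eS Sy (Cell M ⊕ Cell M × Cell M) (⟨v.1, v.2.1, v.2.2.1⟩, if v.2.2.2 then .m else .bl)).val
  refine med_of_stage (primrec_encV K (eQ _ q0).val sn) ?_
  intro y hy
  let x : ℤ → Sy := fun i => xy y (i + 1)
  have hx1 : x (-1) = ⟨false, false, false⟩ := by simp [x, xy]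
  let c0 : Cfg (Cell M ⊕ Cell M × Cell M) := ⟨q0, 0, fun p => if p = -1 then .m else .bl⟩
  have hal : T.Alive x c0 := by
    have h1 : ∀ t j, sg M x t j ≠ none := by
      intro t j
      rw [show x = fun i => xy y (i + 1) from rfl, sg_shift]
      exact all_defined y (hM y hy) t (j + 1)
    have h2 := Sys.alive_of_good (T := T) (x := x) (cw_ne_none_of_sg M x h1) k0
    rw [hx1] at h2
    exact h2
  have himm : (mkTM T).code (toConf T x c0) ∈ (mkTM T).immSet :=
    ⟨_, (immortal_iff T x c0).2 hal, rfl⟩
  refine ⟨_, himm, ?_, ?_⟩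
  · intro k t b hb
    unfold encV at hb
    unfold TM.code
    by_cases h0 : t / K = 0
    · rw [if_pos h0, Option.some.injEq] at hb
      rw [if_pos h0, ← hb]
      by_cases h1 : t % K = (eQ _ q0).val
      · rw [if_pos h1]; exact decide_eq_true h1
      · rw [if_neg h1]; exact decide_eq_false h1
    · rw [if_neg h0] at hb
      rw [if_neg h0]
      obtain ⟨z, hz, hz'⟩ := Option.map_eq_some_iff.1 hb
      have hzz : z = if nab (t / K - 1) = 0 then false else y (vn (nab (t / K - 1))) := by
        split_ifs at hz with h2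
        · rw [if_pos h2]; simpa using hz.symm
        · rw [if_neg h2]
          unfold ini at hz
          rw [List.getElem?_map] at hz
          obtain ⟨i, hi, hi'⟩ := Option.map_eq_some_iff.1 hz
          obtain ⟨hi1, hi2⟩ := List.getElem?_eq_some_iff.1 hi
          rw [List.getElem_range] at hi2
          rw [← hi', ← hi2]
      have hsym : (toConf T x c0).2 (cellOf (t / K - 1)) =
          eS Sy (Cell M ⊕ Cell M × Cell M) (⟨aN (t / K - 1), sN (t / K - 1), z⟩,
            if (if t / K - 1 = 1 then true else false) then .m else .bl) := by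
        have e1 : x (cellOf (t / K - 1)) = ⟨aN (t / K - 1), sN (t / K - 1), z⟩ := by
          rw [hzz]; exact xy_cell y _
        have e2 : (if cellOf (t / K - 1) = -1 then (Wk.m : Wk (Cell M ⊕ Cell M × Cell M)) else .bl) =
            if (if t / K - 1 = 1 then true else false) then .m else .bl := by
          by_cases h3 : t / K - 1 = 1
          · rw [if_pos (cell_m1.2 h3), if_pos h3]; rfl
          · rw [if_neg (fun h4 => h3 (cell_m1.1 h4)), if_neg h3]; rfl
        simp only [toConf, c0, zero_add]
        rw [e1, e2]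
      rw [← hz']
      change decide (t % K = ((toConf T x c0).2 (cellOf (t / K - 1))).val) = _
      rw [hsym]
      by_cases h1 : t % K = sn (aN (t / K - 1), sN (t / K - 1), z,
          if t / K - 1 = 1 then true else false)
      · rw [if_pos h1]; exact decide_eq_true h1
      · rw [if_neg h1]; exact decide_eq_false h1
  · intro t
    refine ⟨vn (nab (t / K - 1)) + 1, ?_⟩
    unfold encV
    by_cases h0 : t / K = 0
    · rw [if_pos h0]; simp
    · rw [if_neg h0]
      by_cases h1 : nab (t / K - 1) = 0
      · rw [if_pos h1]; simp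
      · rw [if_neg h1]
        simp [ini]

end Pool.Agent.H722.Med
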