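import Pool.Agent.H722.Med.Defs

/-! Turing functionals from stagewise primitive recursive approximations. -/

namespace Pool.Agent.H722.MedDefs

variable (V : List Bool → ℕ → Option Bool)

/-- first answer among the initial segments of length `< s` -/
def EE' (σ : List Bool) (m : ℕ) : ℕ → Option Bool
  | 0 => none
  | s + 1 => (EE' σ m s).or (V (σ.take s) m)

def LL (σ : List Bool) : ℕ → List Bool
  | 0 => []
  | n + 1 => if (LL σ n).length = n then
      (match EE' V σ n (σ.length + 1) with
        | some b => LL σ n ++ [b]
        | none => LL σ n) else LL σ n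

variable {V}

theorem EE'_mono {σ : List Bool} {m s t : ℕ} {b : Bool} (h : EE' V σ m s = some b) (hst : s ≤ t) :
    EE' V σ m t = some b := by
  induction t with
  | zero => obtain rfl : s = 0 := by omega
            exact h
  | succ t ih =>
    rcases Nat.lt_or_ge s (t + 1) with h1 | h1
    · rw [EE', ih (by omega)]; rfl
    · obtain rfl : s = t + 1 := by omega
      exact h

theorem EE'_prefix {σ τ : List Bool} (h : σ <+: τ) (m : ℕ) (s : ℕ) (hs : s ≤ σ.length + 1) :
    EE' V σ m s = EE' V τ m s := by
  induction s with
  | zero => rfl
  | succ s ih =>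
    rw [EE', EE', ih (by omega)]
    congr 2
    obtain ⟨u, rfl⟩ := h
    rw [List.take_append_of_le_length (by omega)]

theorem EE'_sound {σ : List Bool} {m s : ℕ} {b : Bool} (h : EE' V σ m s = some b) :
    ∃ t < s, V (σ.take t) m = some b := by
  induction s with
  | zero => simp [EE'] at h
  | succ s ih =>
    rw [EE'] at h
    cases h1 : EE' V σ m s with
    | some c =>
      rw [h1] at h
      obtain ⟨t, ht, hv⟩ := ih (by rw [h1]; simpa using h)
      exact ⟨t, by omega, hv⟩
    | none =>
      rw [h1] at h
      exact ⟨s, by omega, by simpa using h⟩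

theorem EE'_complete {σ : List Bool} {m s t : ℕ} (ht : t < s) (h : V (σ.take t) m ≠ none) :
    EE' V σ m s ≠ none := by
  induction s with
  | zero => omega
  | succ s ih =>
    rw [EE']
    rcases Nat.lt_or_ge t s with h1 | h1
    · obtain ⟨b, hb⟩ := Option.ne_none_iff_exists'.1 (ih h1)
      rw [hb]; simp
    · obtain rfl : t = s := by omega
      cases EE' V σ m t with
      | some c => simp
      | none => simpa using h

theorem LL_len (σ : List Bool) (n : ℕ) : (LL V σ n).length ≤ n := by
  induction n with
  | zero => simp [LL]
  | succ n ih =>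
    rw [LL]
    split_ifs with h
    · cases EE' V σ n (σ.length + 1) with
      | some b => simp [h]
      | none => simp only; omega
    · omega

theorem LL_mono (σ : List Bool) {n m : ℕ} (h : n ≤ m) : LL V σ n <+: LL V σ m := by
  induction m with
  | zero => obtain rfl : n = 0 := by omega
            exact List.prefix_rfl
  | succ m ih =>
    rcases Nat.lt_or_ge n (m + 1) with h1 | h1
    · refine (ih (by omega)).trans ?_
      rw [LL]
      split_ifs with h2
      · cases EE' V σ m (σ.length + 1) with
        | some b => exact List.prefix_append _ _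
        | none => exact List.prefix_rfl
      · exact List.prefix_rfl
    · obtain rfl : n = m + 1 := by omega
      exact List.prefix_rfl

theorem LL_prefix {σ τ : List Bool} (h : σ <+: τ) (n : ℕ) :
    LL V σ n <+: LL V τ n ∧ ((LL V σ n).length = n → LL V σ n = LL V τ n) := by
  have hlen := h.length_le
  induction n with
  | zero => exact ⟨List.prefix_rfl, fun _ => rfl⟩
  | succ n ih =>
    obtain ⟨ih1, ih2⟩ := ih
    by_cases h2 : (LL V σ n).length = n
    · have e := ih2 h2
      have e1 : LL V σ (n + 1) = (match EE' V σ n (σ.length + 1) with
        | some b => LL V σ n ++ [b]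
        | none => LL V σ n) := by rw [LL, if_pos h2]
      have e2 : LL V τ (n + 1) = (match EE' V τ n (τ.length + 1) with
        | some b => LL V σ n ++ [b]
        | none => LL V σ n) := by rw [LL, ← e, if_pos h2]
      cases h3 : EE' V σ n (σ.length + 1) with
      | some b =>
        have h4 : EE' V τ n (τ.length + 1) = some b := by
          rw [EE'_prefix h n _ le_rfl] at h3
          exact EE'_mono h3 (by omega)
        rw [h3] at e1
        rw [h4] at e2
        simp only at e1 e2
        rw [e1, e2]
        exact ⟨List.prefix_rfl, fun _ => rfl⟩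
      | none =>
        rw [h3] at e1
        simp only at e1
        constructor
        · rw [e1, e]; exact LL_mono τ (by omega)
        · intro h5
          rw [e1] at h5; omega
    · have h2' : (LL V σ n).length < n := lt_of_le_of_ne (LL_len σ n) h2
      have e1 : LL V σ (n + 1) = LL V σ n := by rw [LL, if_neg h2]
      constructor
      · rw [e1]; exact ih1.trans (LL_mono τ (by omega))
      · intro h5
        rw [e1] at h5; omega

theorem ini_length (y : ℕ → Bool) (n : ℕ) : (ini y n).length = n := by simp [ini]

theorem ini_take (y : ℕ → Bool) {n k : ℕ} (h : n ≤ k) : (ini y k).take n = ini y n := by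
  simp only [ini, ← List.map_take]
  rw [List.take_range, min_eq_left h]

theorem ini_succ (y : ℕ → Bool) (n : ℕ) : ini y (n + 1) = ini y n ++ [y n] := by
  simp [ini, List.range_succ]

theorem med_of_stage (hV : Primrec₂ V) {P R : Set (ℕ → Bool)}
    (h : ∀ y ∈ R, ∃ z ∈ P, (∀ k m b, V (ini y k) m = some b → z m = b) ∧
      ∀ m, ∃ k, V (ini y k) m ≠ none) : MedLE P R := by
  have hE : Primrec fun a : (List Bool × ℕ) × ℕ => EE' V a.1.1 a.1.2 a.2 := by
    have : Primrec₂ fun (a : (List Bool × ℕ) × ℕ) (p : ℕ × Option Bool) =>
        p.2.or (V (a.1.1.take p.1) a.1.2) := by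
      have h1 : Primrec₂ fun (o o' : Option Bool) => o.or o' := Primrec₂.of_eq
        (f := fun (o o' : Option Bool) => Option.casesOn (motive := fun _ => Option Bool) o o' (fun b => some b))
        (Primrec.option_casesOn Primrec.fst Primrec.snd
          (Primrec.option_some.comp Primrec.snd).to₂) (fun o o' => by cases o <;> rfl)
      exact (h1.comp (Primrec.snd.comp Primrec.snd) (hV.comp (Primrec.list_take.comp
        (Primrec.fst.comp Primrec.snd) (Primrec.fst.comp (Primrec.fst.comp Primrec.fst)))
        (Primrec.snd.comp (Primrec.fst.comp Primrec.fst)))).to₂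
    refine (Primrec.nat_rec' (f := fun a : (List Bool × ℕ) × ℕ => a.2)
      (g := fun _ => (none : Option Bool)) Primrec.snd (Primrec.const none) this).of_eq ?_
    rintro ⟨⟨σ, m⟩, s⟩
    simp only
    induction s with
    | zero => rfl
    | succ s ih =>
      simp only [EE'] at ih ⊢
      rw [← ih]
  have hL : Primrec fun σ : List Bool => LL V σ σ.length := by
    have h2 : Primrec₂ fun (σ : List Bool) (p : ℕ × List Bool) =>
        if p.2.length = p.1 then
          (Option.casesOn (motive := fun _ => List Bool) (EE' V σ p.1 (σ.length + 1)) p.2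
            (fun b => p.2 ++ [b])) else p.2 := by
      refine Primrec.ite ?_ ?_ (Primrec.snd.comp Primrec.snd)
      · exact Primrec.eq.comp (Primrec.list_length.comp (Primrec.snd.comp Primrec.snd))
          (Primrec.fst.comp Primrec.snd)
      · refine Primrec.option_casesOn ?_ (Primrec.snd.comp Primrec.snd) ?_
        · exact hE.comp (((Primrec.fst.pair (Primrec.fst.comp Primrec.snd))).pair
            (Primrec.succ.comp (Primrec.list_length.comp Primrec.fst)))
        · exact (Primrec.list_append.comp (Primrec.snd.comp (Primrec.snd.comp Primrec.fst))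
            (Primrec.list_cons.comp Primrec.snd (Primrec.const []))).to₂
    refine (Primrec.nat_rec' (f := fun σ : List Bool => σ.length)
      (g := fun _ => ([] : List Bool)) Primrec.list_length (Primrec.const []) h2).of_eq ?_
    intro σ
    have key : ∀ n, (Nat.rec ([] : List Bool) (fun n IH => if IH.length = n then
          (Option.casesOn (motive := fun _ => List Bool) (EE' V σ n (σ.length + 1)) IH
            (fun b => IH ++ [b])) else IH) n : List Bool) = LL V σ n := by
      intro n
      induction n with
      | zero => rfl
      | succ n ih =>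
        simp only [LL] at ih ⊢
        rw [ih]
        split_ifs
        · cases EE' V σ n (σ.length + 1) <;> rfl
        · rfl
    exact key σ.length
  refine ⟨fun σ => LL V σ σ.length, hL.to_comp, ?_, ?_⟩
  · intro σ τ hst
    exact (LL_prefix hst _).1.trans (LL_mono τ hst.length_le)
  · intro y hy
    obtain ⟨z, hz, hs, hc⟩ := h y hy
    refine ⟨z, hz, ?_⟩
    have sound : ∀ k m s b, s ≤ k + 1 → EE' V (ini y k) m s = some b → z m = b := by
      intro k m s b hsk hb
      obtain ⟨t, ht, hv⟩ := EE'_sound hb
      rw [ini_take y (by omega)] at hv
      exact hs t m b hv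
    have key : ∀ n, ∃ k, ∀ k' ≥ k, LL V (ini y k') n = ini z n := by
      intro n
      induction n with
      | zero => exact ⟨0, fun k' _ => by simp [LL, ini]⟩
      | succ n ih =>
        obtain ⟨k0, hk0⟩ := ih
        obtain ⟨k1, hk1⟩ := hc n
        refine ⟨max k0 k1, fun k' hk' => ?_⟩
        have e1 := hk0 k' (le_trans (le_max_left _ _) hk')
        have h1 : k1 ≤ k' := le_trans (le_max_right _ _) hk'
        have h2 : EE' V (ini y k') n ((ini y k').length + 1) ≠ none := by
          rw [ini_length]
          exact EE'_complete (t := k1) (by omega) (by rw [ini_take y h1]; exact hk1)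
        obtain ⟨b, hb⟩ := Option.ne_none_iff_exists'.1 h2
        rw [LL, e1, if_pos (ini_length z n), hb]
        simp only
        rw [ini_length] at hb
        rw [ini_succ, sound k' n _ b le_rfl hb]
    intro n
    obtain ⟨k, hk⟩ := key n
    refine ⟨max k n, ?_⟩
    rw [← hk (max k n) (le_max_left _ _)]
    exact LL_mono _ (by rw [ini_length]; exact le_max_right _ _)

end Pool.Agent.H722.MedDefs
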