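import Pool.Agent.H722.Med.Macro2

namespace Pool.Agent.H722.Med

variable {A C : Type}

namespace Sys

variable {T : Sys A C} {x : ℤ → A}

def InfG (T : Sys A C) (x : ℤ → A) (c0 : Cfg C) : Prop :=
  ∃ n c1 e u, T.Reach x (fun p => -1 ≤ idx e u p) n c0 c1 ∧ T.InfAt x e u c1

def Prog (T : Sys A C) (x : ℤ → A) (c0 : Cfg C) (j : ℕ) : Prop :=
  ∃ (n : ℕ) (c : Cfg C) (lo hi : ℤ), j ≤ n ∧ (j : ℤ) ≤ hi - lo ∧
    T.Reach x (fun p => lo ≤ p ∧ p ≤ hi) n c0 c ∧ TG c lo hi ∧ T.GM x lo hi ∧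
    T.Vis x n c0 lo ∧ T.Vis x n c0 hi

theorem prog_or_inf {c0 : Cfg C} (hal : T.Alive x c0) (j : ℕ) : Prog T x c0 j ∨ InfG T x c0 := by
  induction j with
  | zero =>
    rcases macro_init hal with ⟨n, c1, e, u, h1, h2, -⟩ | ⟨n, c', lo, hi, ⟨h0, h1, h2, h3, h4, h5⟩, -, -, -⟩
    · exact Or.inr ⟨n, c1, e, u, h1, h2⟩
    · exact Or.inl ⟨n, c', lo, hi, by omega, by have := h2.1; push_cast; omega, h1, h2, h3, h4, h5⟩
  | succ j ih =>
    rcases ih with ⟨n, c, lo, hi, hn, hj, hr, hTG, hGM, hv1, hv2⟩ | h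
    · rcases macro_step (hal.reach hr) hTG with ⟨m, c1, e, u, h1, h2, h3⟩ |
        ⟨m, c', lo', hi', ⟨h0, h1, h2, h3, h4, h5⟩, h6, h7, h8⟩
      · right
        exact ⟨n + m, c1, e, u, (hr.mono (fun p hp => h3 p hp.1 hp.2)).trans h1, h2⟩
      · left
        refine ⟨n + m, c', lo', hi', by omega, by push_cast; omega,
          (hr.mono (fun p hp => ⟨by omega, by omega⟩)).trans h1, h2, h3, h4.reach hr, h5.reach hr⟩
    · exact Or.inr h

theorem visited_good {c0 : Cfg C} (hal : T.Alive x c0) (n : ℕ) :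
    ∃ lo hi : ℤ, (∀ k ≤ n, ∀ d, T.run x k c0 = some d → lo ≤ d.p ∧ d.p ≤ hi) ∧ T.GM x lo hi := by
  rcases prog_or_inf hal (n + 1) with ⟨m, c, lo, hi, hn, hj, hr, hTG, hGM, hv1, hv2⟩ |
    ⟨m, c1, e, u, hr, hg, hI⟩
  · exact ⟨lo, hi, fun k hk d hd => hr.pos k (by omega) d hd, hGM⟩
  · obtain ⟨n2, hn2, c2, hr2, -⟩ := hI (n + 1)
    have hm : ∀ p, Btw u (ps e u (((n + 1 : ℕ) : ℤ) + 1)) p → -1 ≤ idx e u p ∧ idx e u p ≤ n + 2 := by
      intro p hp
      cases e <;> simp [Btw, idx] at hp ⊢ <;> omega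
    -- positions visited before `m` are bounded as well
    have hbd : ∃ B : ℤ, ∀ k ≤ n, ∀ d, T.run x k c0 = some d → idx e u d.p ≤ B := by
      clear hr hm hr2 hI hg hn2
      induction n with
      | zero =>
        refine ⟨idx e u c0.p, fun k hk d hd => ?_⟩
        obtain rfl : k = 0 := by omega
        simp [run] at hd; subst hd; exact le_rfl
      | succ n ih =>
        obtain ⟨B, hB⟩ := ih
        cases h : T.run x (n + 1) c0 with
        | none => exact absurd h (hal _)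
        | some d' =>
          refine ⟨max B (idx e u d'.p), fun k hk d hd => ?_⟩
          rcases Nat.lt_or_ge k (n + 1) with h1 | h1
          · exact le_trans (hB k (by omega) d hd) (le_max_left _ _)
          · obtain rfl : k = n + 1 := by omega
            rw [h] at hd
            cases hd
            exact le_max_right _ _
    obtain ⟨B, hB⟩ := hbd
    have hpos : ∀ k ≤ n, ∀ d, T.run x k c0 = some d → -1 ≤ idx e u d.p := by
      intro k hk d hd
      have hfull := (hr.trans (hr2.mono (fun p hp => (hm p hp).1)))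
      exact hfull.pos k (by omega) d hd
    obtain ⟨r, hrB⟩ : ∃ r : ℕ, B + 1 ≤ r ∧ 1 ≤ r := ⟨(B + 1).toNat + 1, by omega, by omega⟩
    have hcol := hg r
    cases e
    · refine ⟨u - r, u + 1, fun k hk d hd => ?_, fun n' v h1 h2 => ?_⟩
      · have a1 := hpos k hk d hd
        have a2 := hB k hk d hd
        simp [idx] at a1 a2
        constructor <;> omega
      · exact cw_of_col hcol (by simp [Btw]; omega) (by simp [Btw]; omega)
    · refine ⟨u - 1, u + r, fun k hk d hd => ?_, fun n' v h1 h2 => ?_⟩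
      · have a1 := hpos k hk d hd
        have a2 := hB k hk d hd
        simp [idx] at a1 a2
        constructor <;> omega
      · exact cw_of_col hcol (by simp [Btw]; omega) (by simp [Btw]; omega)

theorem visited_unbounded {c0 : Cfg C} (hal : T.Alive x c0) (N : ℕ) :
    ∃ k1 k2 d1 d2, T.run x k1 c0 = some d1 ∧ T.run x k2 c0 = some d2 ∧ d1.p + N ≤ d2.p := by
  rcases prog_or_inf hal N with ⟨m, c, lo, hi, hn, hj, hr, hTG, hGM, ⟨k1, -, d1, h1, h1'⟩,
    ⟨k2, -, d2, h2, h2'⟩⟩ | ⟨m, c1, e, u, hr, hg, hI⟩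
  · exact ⟨k1, k2, d1, d2, h1, h2, by omega⟩
  · obtain ⟨n1, -, c1', hr1, hp1⟩ := hI 0
    obtain ⟨n2, -, c2', hr2, hp2⟩ := hI N
    have e1 : T.run x (m + n1) c0 = some c1' := by rw [run_add, hr.run]; simpa using hr1.run
    have e2 : T.run x (m + n2) c0 = some c2' := by rw [run_add, hr.run]; simpa using hr2.run
    cases e
    · exact ⟨_, _, _, _, e2, e1, by rw [hp1, hp2]; simp⟩
    · exact ⟨_, _, _, _, e1, e2, by rw [hp1, hp2]; simp⟩

/-- All windows strictly (by a margin of two) between two visited cells are good. -/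
theorem good_between {c0 : Cfg C} (hal : T.Alive x c0) {k1 k2 : ℕ} {d1 d2 : Cfg C}
    (h1 : T.run x k1 c0 = some d1) (h2 : T.run x k2 c0 = some d2) (n : ℕ) (u : ℤ)
    (hu : d1.p + 2 ≤ u) (hv : u + n ≤ d2.p - 2) : T.cw x n u ≠ none := by
  obtain ⟨lo, hi, hb, hg⟩ := visited_good hal (max k1 k2)
  have a1 := hb k1 (le_max_left _ _) d1 h1
  have a2 := hb k2 (le_max_right _ _) d2 h2
  exact hg n u (by omega) (by omega)

/-- If every window is good, the search from a single mark is immortal. -/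
theorem alive_of_good (hg : ∀ n u, T.cw x n u ≠ none) (k : Ph × C) :
    T.Alive x ⟨.S true k (T.ι (x (-1))), 0, fun p => if p = -1 then .m else .bl⟩ := by
  intro n hn
  have hcol : ∀ r, T.col x true (-1) r ≠ none := by
    intro r; simp only [col, if_true]; exact hg _ _
  obtain ⟨g0, hg0⟩ := Option.ne_none_iff_exists'.1 (hcol n)
  obtain ⟨n1, h1, t1⟩ := growTo (T := T) (x := x) (r := n) (k := k) (e := true) (u := -1)
    (w := fun p => if p = -1 then .m else .bl)
    (fun d' _ => crossing_all d') (by simp) (fun i a _ => by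
      have : ps true (-1) (i : ℤ) ≠ -1 := by simp only [ps_true]; omega
      exact if_neg this) hg0
  have e1 := t1.run
  obtain ⟨t, rfl⟩ : ∃ t, n1 = n + t := ⟨n1 - n, by omega⟩
  rw [run_add] at e1
  simp only [ps_true, neg_add_cancel] at e1
  rw [hn] at e1
  simp at e1

end Sys

end Pool.Agent.H722.Med
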