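import Pool.Agent.H722.Med.CA

/-! Layer one: the leader hierarchy. -/

namespace Pool.Agent.H722.Med

variable (M : HTM) (x : ℤ → Sy)

def Tt : ℕ → ℕ
  | 0 => 0
  | k + 1 => Tt k + 2 * 2 ^ k

/-- alive at epoch `k` -/
def alv : ℕ → ℤ → Bool
  | 0, _ => true
  | 1, j => !(x j).a
  | k + 2, j => alv (k + 1) j && !(x (j - 2 ^ k)).s

def rg : ℕ → ℤ → Bool
  | 0, _ => false
  | k + 1, j => (x (j - 2 ^ k)).z

theorem alv_succ {k : ℕ} {j : ℤ} (h : alv x (k + 1) j = true) : alv x k j = true := by
  cases k with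
  | zero => rfl
  | succ k => rw [alv, Bool.and_eq_true] at h; exact h.1

def S0 (k : ℕ) (l : ℤ) : Sig := if alv x (k + 1) l then .A (rg x k l) else .D (rg x k l)

def stF (k t : ℕ) (j : ℤ) : Sts :=
  if t < 2 ^ k then (if alv x k j then (if alv x (k + 1) j then .surv else .fresh) else .plain)
  else (if alv x (k + 1) j then .surv else .plain)

def sigF (k t : ℕ) (j : ℤ) : Option Sig :=
  if t < 2 ^ k then (if alv x k (j - t) then some (S0 x k (j - t)) else none)
  else (if alv x k (j - (t - 2 ^ k)) && !alv x (k + 1) (j - (t - 2 ^ k)) then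
    some (.B (x (j - (t - 2 ^ k))).s (x (j - (t - 2 ^ k))).z) else none)

/-- layer one formula `t` steps into epoch `k` -/
def Fm (k t : ℕ) (j : ℤ) (c : Cell M) : Prop :=
  c.st = x j ∧ c.status = stF x k t j ∧ c.sig = sigF x k t j ∧ (alv x k j = true → c.reg = rg x k j)

def SPc (k : ℕ) (a b : ℤ) : Prop := ∃ c : ℤ, ∀ j, a ≤ j → j ≤ b → (alv x k j = true ↔ (2 : ℤ) ^ k ∣ j - c)

def EE (k : ℕ) : Prop := ∀ j c, sg M x (Tt k) j = some c → Fm M x k 0 j c

def SP (k : ℕ) : Prop := ∀ a b, (∀ j, a ≤ j → j ≤ b → sg M x (Tt k) j ≠ none) → SPc x k a b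

/-- alternation at `j` -/
def ALT (k : ℕ) (j : ℤ) : Prop := alv x k j = true → alv x k (j - 2 ^ k) = true ∧
  (alv x (k + 1) j = !alv x (k + 1) (j - 2 ^ k)) ∧ rg x k (j - 2 ^ k) = rg x k j

variable {M x}

theorem G_spec {l c r c' : Cell M} (h : G l c r = some c') :
    ¬ report c ∧ ∃ o, lay1 l.sig c.st c.status c.reg = some o ∧ c'.st = c.st ∧ c'.status = o.1 ∧
      c'.reg = o.2.1 ∧ c'.sig = o.2.2 ∧ c'.wk = (lay2 l c r).1 ∧ c'.hd = (lay2 l c r).2 := by
  unfold G at h
  split_ifs at h with hr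
  refine ⟨hr, ?_⟩
  cases ho : lay1 l.sig c.st c.status c.reg with
  | none => simp [ho] at h
  | some o =>
    rw [ho] at h
    simp only [Option.map_some, Option.some.injEq] at h
    subst h
    exact ⟨o, rfl, rfl, rfl, rfl, rfl, rfl, rfl⟩

theorem not_dvd_small {n : ℤ} {t : ℤ} (h0 : 0 < t) (h1 : t < n) : ¬ n ∣ t := by
  intro h
  have := Int.le_of_dvd h0 h
  omega

theorem spc_no {k : ℕ} {a b : ℤ} (h : SPc x k a b) {i j : ℤ} (hi : a ≤ i) (hij : i < j) (hj : j ≤ b)
    (hlt : j - i < 2 ^ k) (h1 : alv x k i = true) : alv x k j = false := by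
  obtain ⟨c, hc⟩ := h
  by_contra h2
  rw [Bool.not_eq_false] at h2
  have a1 := (hc i hi (by omega)).1 h1
  have a2 := (hc j (by omega) hj).1 h2
  have a3 : (2 : ℤ) ^ k ∣ j - i := by
    have := dvd_sub a2 a1
    rwa [show j - c - (i - c) = j - i by ring] at this
  exact not_dvd_small (by omega) hlt a3

theorem spc_shift {k : ℕ} {a b : ℤ} (h : SPc x k a b) {j : ℤ} (hi : a ≤ j - 2 ^ k) (hj : j ≤ b) :
    alv x k (j - 2 ^ k) = alv x k j := by
  obtain ⟨c, hc⟩ := h
  have hp : (0 : ℤ) < 2 ^ k := by positivity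
  have a1 := hc (j - 2 ^ k) hi (by omega)
  have a2 := hc j (by omega) hj
  have a3 : (2 : ℤ) ^ k ∣ j - 2 ^ k - c ↔ (2 : ℤ) ^ k ∣ j - c := by
    rw [show j - 2 ^ k - c = (j - c) - 2 ^ k by ring]
    exact ⟨fun h => by simpa using dvd_add h (dvd_refl _), fun h => dvd_sub h (dvd_refl _)⟩
  rw [← a1, ← a2] at a3
  exact Bool.eq_iff_iff.2 a3

theorem sp_cone {k t : ℕ} {j : ℤ} (hSP : SP M x k) (h : sg M x (Tt k + t) j ≠ none) :
    SPc x k (j - t) (j + t) :=
  hSP _ _ fun j' h1 h2 => sg_cone M x h (Tt k) j' (by omega) (by push_cast; omega)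
    (by push_cast; omega)

theorem ph1 {k : ℕ} (hE : EE M x k) (hSP : SP M x k) (t : ℕ) (ht : t < 2 ^ k) :
    ∀ j c, sg M x (Tt k + t) j = some c → Fm M x k t j c := by
  induction t with
  | zero => exact fun j c h => hE j c h
  | succ t ih =>
    intro j c' h
    obtain ⟨l, c, r, hl, hc, hr, hG⟩ := sg_succ_some M x (by rw [← add_assoc] at h; exact h)
    obtain ⟨-, o, ho, h1, h2, h3, h4, -, -⟩ := G_spec hG
    obtain ⟨l1, l2, l3, l4⟩ := ih (by omega) _ _ hl
    obtain ⟨c1, c2, c3, c4⟩ := ih (by omega) _ _ hc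
    have hsp := sp_cone hSP (t := t + 1) (j := j) (by rw [h]; simp)
    have einc : j - 1 - (t : ℤ) = j - ((t + 1 : ℕ) : ℤ) := by push_cast; ring
    have hst : stF x k t j = stF x k (t + 1) j := by
      unfold stF; rw [if_pos (by omega), if_pos ht]
    have hinc : l.sig = sigF x k (t + 1) j := by
      rw [l3]; unfold sigF; rw [if_pos (by omega), if_pos ht, einc]
    unfold Fm
    rw [← hst, ← hinc, h1, h2, h4]
    have ht' : t < 2 ^ k := by omega
    by_cases hal : alv x k j = true
    · have hno : alv x k (j - ((t + 1 : ℕ) : ℤ)) = false := by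
        by_contra h5
        rw [Bool.not_eq_false] at h5
        have := spc_no hsp (i := j - ((t + 1 : ℕ) : ℤ)) (j := j) (by omega) (by push_cast; omega)
          (by push_cast; omega) (by
            have : ((t + 1 : ℕ) : ℤ) < 2 ^ k := by exact_mod_cast ht
            omega) h5
        rw [hal] at this; exact absurd this (by simp)
      have hn : l.sig = none := by rw [hinc]; unfold sigF; rw [if_pos ht, hno]; rfl
      rw [hn] at ho ⊢
      simp only [lay1, Option.some.injEq] at ho
      subst ho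
      exact ⟨c1, c2, rfl, fun _ => by rw [h3]; exact c4 hal⟩
    · have hpl : c.status = .plain := by
        rw [c2]; unfold stF; rw [if_pos ht', if_neg (by simpa using hal)]
      rw [hpl] at ho
      have : o = (.plain, c.reg, l.sig) := by
        revert ho
        cases l.sig with
        | none => simp [lay1]; intro h; exact h.symm
        | some s => cases s <;> simp [lay1] <;> intro h <;> exact h.symm
      subst this
      exact ⟨c1, by rw [← c2, hpl], rfl, fun h => absurd h hal⟩

theorem ph_mid {k : ℕ} (hE : EE M x k) (hSP : SP M x k) (j : ℤ) (c' : Cell M)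
    (h : sg M x (Tt k + 2 ^ k) j = some c') : Fm M x k (2 ^ k) j c' ∧ ALT x k j := by
  have hpos : 0 < 2 ^ k := by positivity
  obtain ⟨t, ht⟩ : ∃ t, 2 ^ k = t + 1 := ⟨2 ^ k - 1, by omega⟩
  have htz : (2 : ℤ) ^ k = t + 1 := by exact_mod_cast ht
  have hsp := sp_cone hSP (t := 2 ^ k) (j := j) (by rw [h]; simp)
  obtain ⟨l, c, r, hl, hc, hr, hG⟩ := sg_succ_some M x (t := Tt k + t) (by rw [ht, ← add_assoc] at h; exact h)
  obtain ⟨-, o, ho, h1, h2, h3, h4, -, -⟩ := G_spec hG
  obtain ⟨l1, l2, l3, l4⟩ := ph1 hE hSP t (by omega) _ _ hl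
  obtain ⟨c1, c2, c3, c4⟩ := ph1 hE hSP t (by omega) _ _ hc
  have einc : j - 1 - (t : ℤ) = j - 2 ^ k := by rw [htz]; ring
  have hinc : l.sig = if alv x k (j - 2 ^ k) then some (S0 x k (j - 2 ^ k)) else none := by
    rw [l3]; unfold sigF; rw [if_pos (by omega), einc]
  have hshift := spc_shift hsp (j := j) (by push_cast; omega) (by push_cast; omega)
  have estF : stF x k (2 ^ k) j = if alv x (k + 1) j then .surv else .plain := by
    unfold stF; rw [if_neg (by omega)]
  have e0 : j - (((2 ^ k : ℕ) : ℤ) - 2 ^ k) = j := by push_cast; ring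
  have esig : sigF x k (2 ^ k) j = if alv x k j && !alv x (k + 1) j then
      some (.B (x j).s (x j).z) else none := by
    unfold sigF; rw [if_neg (by omega), e0]
  unfold Fm ALT
  rw [estF, esig, h1, h2, h4]
  rw [hinc, hshift] at ho
  rw [c2] at ho
  unfold stF at ho
  rw [if_pos (show t < 2 ^ k by omega)] at ho
  cases ha : alv x k j with
  | false =>
    have ha1 : alv x (k + 1) j = false := by
      by_contra h5; rw [Bool.not_eq_false] at h5
      rw [alv_succ x h5] at ha; exact absurd ha (by simp)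
    rw [ha] at ho
    simp only [Bool.false_eq_true, if_false, lay1, Option.some.injEq] at ho
    subst ho
    simp [ha1, c1]
  | true =>
    rw [ha] at ho
    have hreg := c4 ha
    rw [hreg] at ho
    cases hb : alv x (k + 1) j with
    | true =>
      cases hd : alv x (k + 1) (j - 2 ^ k) with
      | true => simp [hb, hd, lay1, S0] at ho
      | false =>
        simp only [hb, hd, lay1, S0, if_true, if_false, Bool.false_eq_true] at ho
        split_ifs at ho with h6
        simp only [Option.some.injEq] at ho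
        subst ho
        refine ⟨⟨c1, by simp, by simp, fun _ => h3⟩, fun _ => ⟨by rw [hshift, ha], by simp, h6⟩⟩
    | false =>
      cases hd : alv x (k + 1) (j - 2 ^ k) with
      | true =>
        simp only [hb, hd, lay1, S0, if_true, if_false, Bool.false_eq_true] at ho
        split_ifs at ho with h6
        simp only [Option.some.injEq] at ho
        subst ho
        refine ⟨⟨c1, by simp, by simp [c1], fun _ => h3⟩, fun _ => ⟨by rw [hshift, ha], by simp, h6⟩⟩
      | false => simp [hb, hd, lay1, S0] at ho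

theorem ph2 {k : ℕ} (hE : EE M x k) (hSP : SP M x k) (t : ℕ) (ht : t < 2 ^ k) :
    ∀ j c, sg M x (Tt k + 2 ^ k + t) j = some c → Fm M x k (2 ^ k + t) j c := by
  induction t with
  | zero => exact fun j c h => (ph_mid hE hSP j c h).1
  | succ t ih =>
    intro j c' h
    obtain ⟨l, c, r, hl, hc, hr, hG⟩ := sg_succ_some M x (by rw [← add_assoc] at h; exact h)
    obtain ⟨-, o, ho, h1, h2, h3, h4, -, -⟩ := G_spec hG
    obtain ⟨l1, l2, l3, l4⟩ := ih (by omega) _ _ hl
    obtain ⟨c1, c2, c3, c4⟩ := ih (by omega) _ _ hc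
    have hsp := sp_cone hSP (t := 2 ^ k + (t + 1)) (j := j) (by
      rw [← add_assoc]; rw [h]; simp)
    have einc : j - 1 - (((2 ^ k + t : ℕ) : ℤ) - 2 ^ k) = j - (((2 ^ k + (t + 1) : ℕ) : ℤ) - 2 ^ k) := by
      push_cast; ring
    have hn1 : ¬ (2 ^ k + t < 2 ^ k) := by omega
    have hn2 : ¬ (2 ^ k + (t + 1) < 2 ^ k) := by omega
    have hst : stF x k (2 ^ k + t) j = stF x k (2 ^ k + (t + 1)) j := by
      unfold stF; rw [if_neg hn1, if_neg hn2]
    have hinc : l.sig = sigF x k (2 ^ k + (t + 1)) j := by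
      rw [l3]; unfold sigF; rw [if_neg hn1, if_neg hn2, einc]
    unfold Fm
    rw [← hst, ← hinc, h1, h2, h4]
    have ee : j - (((2 ^ k + (t + 1) : ℕ) : ℤ) - 2 ^ k) = j - ((t : ℤ) + 1) := by push_cast; ring
    have htz : (t : ℤ) + 1 < 2 ^ k := by exact_mod_cast ht
    by_cases hal : alv x (k + 1) j = true
    · have hal' := alv_succ x hal
      have hno : alv x k (j - ((t : ℤ) + 1)) = false := by
        by_contra h5
        rw [Bool.not_eq_false] at h5
        have := spc_no hsp (i := j - ((t : ℤ) + 1)) (j := j) (by push_cast; omega) (by omega)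
          (by push_cast; omega) (by omega) h5
        rw [hal'] at this; exact absurd this (by simp)
      have hn : l.sig = none := by
        rw [hinc]; unfold sigF; rw [if_neg (by omega), ee, hno]; rfl
      rw [hn] at ho ⊢
      simp only [lay1, Option.some.injEq] at ho
      subst ho
      exact ⟨c1, c2, rfl, fun _ => by rw [h3]; exact c4 hal'⟩
    · have hpl : c.status = .plain := by
        rw [c2]; unfold stF; rw [if_neg (by omega), if_neg (by simpa using hal)]
      rw [hpl] at ho
      have : o = (.plain, c.reg, l.sig) := by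
        revert ho
        cases l.sig with
        | none => simp [lay1]; intro h; exact h.symm
        | some s => cases s <;> simp [lay1] <;> intro h <;> exact h.symm
      subst this
      exact ⟨c1, by rw [← c2, hpl], rfl, fun h => by rw [h3]; exact c4 h⟩

theorem ph_end {k : ℕ} (hE : EE M x k) (hSP : SP M x k) : EE M x (k + 1) := by
  intro j c' h
  have hpos : 0 < 2 ^ k := by positivity
  obtain ⟨t, ht⟩ : ∃ t, 2 ^ k = t + 1 := ⟨2 ^ k - 1, by omega⟩
  have htz : (2 : ℤ) ^ k = t + 1 := by exact_mod_cast ht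
  have eT : Tt (k + 1) = Tt k + 2 ^ k + t + 1 := by rw [Tt]; omega
  have eT2 : Tt (k + 1) = Tt k + (2 ^ k + 2 ^ k) := by rw [Tt]; omega
  have hsp := sp_cone hSP (t := 2 ^ k + 2 ^ k) (j := j) (by rw [← eT2, h]; simp)
  have h' := h
  rw [eT] at h'
  obtain ⟨l, c, r, hl, hc, hr, hG⟩ := sg_succ_some M x h'
  obtain ⟨-, o, ho, h1, h2, h3, h4, -, -⟩ := G_spec hG
  obtain ⟨l1, l2, l3, l4⟩ := ph2 hE hSP t (by omega) _ _ hl
  obtain ⟨c1, c2, c3, c4⟩ := ph2 hE hSP t (by omega) _ _ hc
  have einc : j - 1 - (((2 ^ k + t : ℕ) : ℤ) - 2 ^ k) = j - 2 ^ k := by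
    push_cast; rw [htz]; ring
  have hinc : l.sig = if alv x k (j - 2 ^ k) && !alv x (k + 1) (j - 2 ^ k) then
      some (.B (x (j - 2 ^ k)).s (x (j - 2 ^ k)).z) else none := by
    rw [l3]; unfold sigF; rw [if_neg (by omega), einc]
  have hshift := spc_shift hsp (j := j) (by push_cast; omega) (by push_cast; omega)
  have hALT : ALT x k j := by
    have hne := sg_cone M x (t := Tt (k + 1)) (j := j) (by rw [h]; simp) (Tt k + 2 ^ k) j
      (by omega) (by rw [eT2]; push_cast; omega) (by rw [eT2]; push_cast; omega)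
    obtain ⟨c2', hc2'⟩ := Option.ne_none_iff_exists'.1 hne
    exact (ph_mid hE hSP j c2' hc2').2
  have estF : stF x (k + 1) 0 j = if alv x (k + 1) j then
      (if alv x (k + 2) j then .surv else .fresh) else .plain := by
    unfold stF; rw [if_pos (by positivity)]
  have esig : sigF x (k + 1) 0 j = if alv x (k + 1) j then some (S0 x (k + 1) j) else none := by
    unfold sigF; rw [if_pos (by positivity)]; simp
  have hcst : c.status = if alv x (k + 1) j then .surv else .plain := by
    rw [c2]; unfold stF; rw [if_neg (by omega)]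
  unfold Fm
  rw [estF, esig, h1, h2, h4]
  cases ha : alv x (k + 1) j with
  | true =>
    have ha' := alv_succ x ha
    obtain ⟨q1, q2, q3⟩ := hALT ha'
    have q4 : alv x (k + 1) (j - 2 ^ k) = false := by rw [ha] at q2; simpa using q2.symm
    rw [hinc, q1, q4, hcst, ha] at ho
    have e2 : alv x (k + 2) j = !(x (j - 2 ^ k)).s := by rw [alv, ha]; rfl
    cases hs : (x (j - 2 ^ k)).s with
    | true =>
      rw [hs] at ho e2
      simp only [Bool.not_false, Bool.and_self, if_true, lay1, Option.some.injEq] at ho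
      subst ho
      simp only [Bool.not_true] at e2
      refine ⟨c1, by simp [e2], ?_, fun _ => h3⟩
      simp [S0, e2, rg]
    | false =>
      rw [hs] at ho e2
      simp only [Bool.not_false, Bool.and_self, if_true, lay1, Option.some.injEq,
        Bool.false_eq_true, if_false] at ho
      subst ho
      simp only [Bool.not_false] at e2
      refine ⟨c1, by simp [e2], ?_, fun _ => h3⟩
      simp [S0, e2, rg]
  | false =>
    have hlf : (alv x k (j - 2 ^ k) && !alv x (k + 1) (j - 2 ^ k)) = false := by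
      by_contra h5
      rw [Bool.not_eq_false, Bool.and_eq_true] at h5
      have q := hALT (by rw [← hshift]; exact h5.1)
      rw [ha] at q
      have := q.2.1
      have h6 := h5.2
      simp at h6
      rw [h6] at this
      simp at this
    rw [hinc, hlf, hcst, ha] at ho
    simp only [Bool.false_eq_true, if_false, lay1, Option.some.injEq] at ho
    subst ho
    exact ⟨c1, by simp, by simp, fun h => absurd h (by simp)⟩

theorem sp_step {k : ℕ} (hE : EE M x k) (hSP : SP M x k) : SP M x (k + 1) := by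
  intro a b hdef
  by_cases hab : b < a
  · exact ⟨0, fun j h1 h2 => by omega⟩
  push Not at hab
  have hpos : (0 : ℤ) < 2 ^ k := by positivity
  have eT2 : Tt (k + 1) = Tt k + (2 ^ k + 2 ^ k) := by rw [Tt]; omega
  set n : ℤ := 2 ^ k with hn
  have hnc : ((2 ^ k : ℕ) : ℤ) = n := by push_cast; rfl
  -- definedness below
  have hdown : ∀ (t' : ℕ) (j' : ℤ), t' ≤ Tt (k + 1) → a - ((Tt (k + 1) : ℤ) - t') ≤ j' →
      j' ≤ b + ((Tt (k + 1) : ℤ) - t') → sg M x t' j' ≠ none := by
    intro t' j' h1 h2 h3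
    rcases lt_or_ge j' a with h4 | h4
    · exact sg_cone M x (hdef a le_rfl hab) t' j' h1 (by omega) (by omega)
    · rcases lt_or_ge b j' with h5 | h5
      · exact sg_cone M x (hdef b hab le_rfl) t' j' h1 (by omega) (by omega)
      · exact sg_cone M x (hdef j' h4 h5) t' j' h1 (by omega) (by omega)
  obtain ⟨c0, hc0⟩ := hSP (a - (n + n)) (b + (n + n)) (fun j h1 h2 => hdown _ _ (by omega)
    (by rw [eT2]; push_cast; omega) (by rw [eT2]; push_cast; omega))
  have hALT : ∀ j, a ≤ j → j ≤ b → ALT x k j := by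
    intro j h1 h2
    have hne := hdown (Tt k + 2 ^ k) j (by omega) (by rw [eT2]; push_cast; omega)
      (by rw [eT2]; push_cast; omega)
    obtain ⟨c2', hc2'⟩ := Option.ne_none_iff_exists'.1 hne
    exact (ph_mid hE hSP j c2' hc2').2
  set i0 : ℤ := (a - c0) / n with hi0
  have hi1 : c0 + i0 * n ≤ a := by
    have := Int.ediv_mul_le (a - c0) (ne_of_gt hpos)
    rw [← hi0] at this; omega
  have hi2 : a < c0 + i0 * n + n := by
    have := Int.lt_ediv_add_one_mul_self (a - c0) hpos
    rw [← hi0] at this; nlinarith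
  have hleader : ∀ i : ℤ, a - (n + n) ≤ c0 + i * n → c0 + i * n ≤ b + (n + n) →
      alv x k (c0 + i * n) = true := by
    intro i h1 h2
    rw [hc0 _ h1 h2]
    exact ⟨i, by ring⟩
  have key : ∀ m : ℕ, c0 + (i0 + m) * n ≤ b →
      (alv x (k + 1) (c0 + (i0 + m) * n) = (if m % 2 = 0 then alv x (k + 1) (c0 + i0 * n) else
        !alv x (k + 1) (c0 + i0 * n))) := by
    intro m
    induction m with
    | zero => intro _; simp
    | succ m ih =>
      intro hm
      have e1 : c0 + (i0 + ((m + 1 : ℕ) : ℤ)) * n = c0 + (i0 + m) * n + n := by push_cast; ring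
      rw [e1] at hm ⊢
      have hm0 : (0 : ℤ) ≤ m * n := by positivity
      have e3 : c0 + (i0 + m) * n = c0 + i0 * n + m * n := by ring
      have ih' := ih (by omega)
      have hlead := hleader (i0 + m + 1) (by nlinarith) (by nlinarith)
      have e2 : c0 + (i0 + m + 1) * n = c0 + (i0 + m) * n + n := by ring
      rw [e2] at hlead
      have hA := hALT (c0 + (i0 + m) * n + n) (by omega) hm hlead
      rw [show c0 + (i0 + (m : ℤ)) * n + n - 2 ^ k = c0 + (i0 + m) * n by rw [← hn]; ring] at hA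
      rw [hA.2.1, ih']
      rcases Nat.mod_two_eq_zero_or_one m with h5 | h5
      · have h6 : (m + 1) % 2 = 1 := by omega
        simp [h5, h6]
      · have h6 : (m + 1) % 2 = 0 := by omega
        simp [h5, h6]
  have hdvd2 : ∀ u : ℤ, (2 : ℤ) ^ (k + 1) ∣ u * n ↔ 2 ∣ u := by
    intro u
    rw [pow_succ, ← hn, mul_comm u n]
    exact mul_dvd_mul_iff_left (ne_of_gt hpos)
  have hform : ∀ j, a ≤ j → j ≤ b → (alv x k j = true) → ∃ m : ℕ, j = c0 + (i0 + m) * n := by
    intro j h1 h2 h3
    obtain ⟨i, hi⟩ := (hc0 j (by omega) (by omega)).1 h3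
    have hge : i0 ≤ i := by
      by_contra hlt
      push Not at hlt
      have : i + 1 ≤ i0 := by omega
      nlinarith
    exact ⟨(i - i0).toNat, by rw [Int.toNat_of_nonneg (by omega)]; linarith⟩
  by_cases hP : alv x (k + 1) (c0 + i0 * n) = true
  · refine ⟨c0 + i0 * n, fun j h1 h2 => ⟨fun h => ?_, fun h => ?_⟩⟩
    · obtain ⟨m, rfl⟩ := hform j h1 h2 (alv_succ x h)
      rw [key m h2, hP] at h
      rw [show c0 + (i0 + (m : ℤ)) * n - (c0 + i0 * n) = m * n by ring, hdvd2]
      split_ifs at h with h3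
      · omega
      · simp at h
    · have h3 : (2 : ℤ) ^ k ∣ j - c0 := by
        have h4 : (2 : ℤ) ^ k ∣ j - (c0 + i0 * n) := dvd_trans (pow_dvd_pow _ (by omega)) h
        have h5 : (2 : ℤ) ^ k ∣ i0 * n := ⟨i0, by rw [← hn]; ring⟩
        have := dvd_add h4 h5
        rwa [show j - (c0 + i0 * n) + i0 * n = j - c0 by ring] at this
      obtain ⟨m, rfl⟩ := hform j h1 h2 ((hc0 j (by omega) (by omega)).2 h3)
      rw [show c0 + (i0 + (m : ℤ)) * n - (c0 + i0 * n) = m * n by ring, hdvd2] at h
      rw [key m h2, if_pos (by omega)]; exact hP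
  · rw [Bool.not_eq_true] at hP
    refine ⟨c0 + (i0 + 1) * n, fun j h1 h2 => ⟨fun h => ?_, fun h => ?_⟩⟩
    · obtain ⟨m, rfl⟩ := hform j h1 h2 (alv_succ x h)
      rw [key m h2, hP] at h
      rw [show c0 + (i0 + (m : ℤ)) * n - (c0 + (i0 + 1) * n) = (m - 1) * n by ring, hdvd2]
      split_ifs at h with h3
      omega
    · have h3 : (2 : ℤ) ^ k ∣ j - c0 := by
        have h4 : (2 : ℤ) ^ k ∣ j - (c0 + (i0 + 1) * n) := dvd_trans (pow_dvd_pow _ (by omega)) h
        have h5 : (2 : ℤ) ^ k ∣ (i0 + 1) * n := ⟨i0 + 1, by rw [← hn]; ring⟩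
        have := dvd_add h4 h5
        rwa [show j - (c0 + (i0 + 1) * n) + (i0 + 1) * n = j - c0 by ring] at this
      obtain ⟨m, rfl⟩ := hform j h1 h2 ((hc0 j (by omega) (by omega)).2 h3)
      rw [show c0 + (i0 + (m : ℤ)) * n - (c0 + (i0 + 1) * n) = (m - 1) * n by ring, hdvd2] at h
      rw [key m h2, if_neg (by omega), hP]; rfl

theorem main_k (k : ℕ) : EE M x k ∧ SP M x k := by
  induction k with
  | zero =>
    constructor
    · intro j c h
      simp only [Tt, sg, Option.some.injEq] at h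
      subst h
      unfold Fm stF sigF S0
      simp only [initC, pow_zero, zero_lt_one, if_true, alv, rg, Nat.cast_zero, sub_zero]
      by_cases h : (x j).a = true <;> simp [h]
    · intro a b _
      exact ⟨0, fun j _ _ => by simp [alv]⟩
  | succ k ih => exact ⟨ph_end ih.1 ih.2, sp_step ih.1 ih.2⟩

end Pool.Agent.H722.Med
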