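import Pool.Agent.H722.Med.Lay

/-! Layer two: the private machine of a leader runs undisturbed during an epoch. -/

namespace Pool.Agent.H722.Med

variable (M : HTM) (x : ℤ → Sy)

structure HC (M : HTM) where
  q : M.Q
  p : ℕ
  tp : ℕ → M.W

def updN {B : Type} (w : ℕ → B) (p : ℕ) (s : B) : ℕ → B := fun q => if q = p then s else w q

def hstep (ω : ℕ → Bool) (c : HC M) : Option (HC M) :=
  match M.δ c.q (c.tp c.p) (ω c.p) with
  | none => none
  | some (q', w', .L) => if c.p = 0 then none else some ⟨q', c.p - 1, updN c.tp c.p w'⟩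
  | some (q', w', .S) => some ⟨q', c.p, updN c.tp c.p w'⟩
  | some (q', w', .R) => some ⟨q', c.p + 1, updN c.tp c.p w'⟩

def hinit : HC M := ⟨M.q0, 0, fun i => if i = 0 then M.w0 else M.b0⟩

def hrun (ω : ℕ → Bool) : ℕ → Option (HC M)
  | 0 => some (hinit M)
  | n + 1 => (hrun ω n).bind (hstep M ω)

/-- the machine reports (halts at home) after `n` steps -/
def Rep (ω : ℕ → Bool) (n : ℕ) : Prop :=
  ∃ c, hrun M ω n = some c ∧ c.p = 0 ∧ M.δ c.q (c.tp 0) (ω 0) = none

variable {M x}

theorem hstep_cases {ω : ℕ → Bool} {c c' : HC M} (h : hstep M ω c = some c') :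
    ∃ w' mv, M.δ c.q (c.tp c.p) (ω c.p) = some (c'.q, w', mv) ∧ c'.tp = updN c.tp c.p w' ∧
      ((mv = .L ∧ c.p ≠ 0 ∧ c'.p = c.p - 1) ∨ (mv = .S ∧ c'.p = c.p) ∨ (mv = .R ∧ c'.p = c.p + 1)) := by
  unfold hstep at h
  cases hd : M.δ c.q (c.tp c.p) (ω c.p) with
  | none => rw [hd] at h; simp at h
  | some o =>
    obtain ⟨q', w', mv⟩ := o
    rw [hd] at h
    cases mv with
    | L =>
      simp only at h
      split_ifs at h with h0
      simp only [Option.some.injEq] at h
      subst h
      exact ⟨w', .L, rfl, rfl, Or.inl ⟨rfl, h0, rfl⟩⟩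
    | S =>
      simp only [Option.some.injEq] at h
      subst h
      exact ⟨w', .S, rfl, rfl, Or.inr (Or.inl ⟨rfl, rfl⟩)⟩
    | R =>
      simp only [Option.some.injEq] at h
      subst h
      exact ⟨w', .R, rfl, rfl, Or.inr (Or.inr ⟨rfl, rfl⟩)⟩

theorem hrun_inv {ω : ℕ → Bool} (n : ℕ) : ∀ c, hrun M ω n = some c →
    c.p ≤ n ∧ ∀ i, n ≤ i → 1 ≤ i → c.tp i = M.b0 := by
  induction n with
  | zero =>
    intro c h
    simp only [hrun, Option.some.injEq] at h
    subst h
    exact ⟨le_rfl, fun i _ h1 => by simp [hinit, show i ≠ 0 by omega]⟩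
  | succ n ih =>
    intro c h
    rw [hrun] at h
    cases h0 : hrun M ω n with
    | none => simp [h0] at h
    | some c0 =>
      rw [h0] at h
      simp only [Option.bind_some] at h
      obtain ⟨h1, h2⟩ := ih c0 h0
      obtain ⟨w', mv, -, h4, h5⟩ := hstep_cases h
      refine ⟨by omega, fun i hi1 hi2 => ?_⟩
      rw [h4, updN, if_neg (by omega)]
      exact h2 i (by omega) hi2

/-- the machine reads only the first `n` cells in `n` steps -/
theorem hrun_congr {ω ω' : ℕ → Bool} (n : ℕ) (h : ∀ i < n, ω i = ω' i) :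
    hrun M ω n = hrun M ω' n := by
  induction n with
  | zero => rfl
  | succ n ih =>
    rw [hrun, hrun, ← ih fun i hi => h i (by omega)]
    cases h0 : hrun M ω n with
    | none => rfl
    | some c =>
      have := (hrun_inv n c h0).1
      simp only [Option.bind_some, hstep, h c.p (by omega)]

theorem Fm_all {k : ℕ} {t : ℕ} (ht : t < 2 * 2 ^ k) {j : ℤ} {c : Cell M}
    (h : sg M x (Tt k + t) j = some c) : Fm M x k t j c := by
  obtain ⟨hE, hSP⟩ := main_k (M := M) (x := x) k
  rcases lt_or_ge t (2 ^ k) with h1 | h1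
  · exact ph1 hE hSP t h1 j c h
  · obtain ⟨s, rfl⟩ : ∃ s, t = 2 ^ k + s := ⟨t - 2 ^ k, by omega⟩
    rw [← add_assoc] at h
    exact ph2 hE hSP s (by omega) j c h

theorem alt_of {k : ℕ} {j : ℤ} (h : sg M x (Tt k + 2 ^ k) j ≠ none) : ALT x k j := by
  obtain ⟨hE, hSP⟩ := main_k (M := M) (x := x) k
  obtain ⟨c, hc⟩ := Option.ne_none_iff_exists'.1 h
  exact (ph_mid hE hSP j c hc).2

/-- layer one data in the zone of a surviving leader -/
theorem zone {k : ℕ} {l : ℤ} (hl : alv x (k + 1) l = true) {t : ℕ} (ht : t < 2 * 2 ^ k)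
    {i : ℕ} (hi : i ≤ t) {c : Cell M} (h : sg M x (Tt k + t) (l + i) = some c) :
    c.st = x (l + i) ∧ (c.status = .surv ↔ i = 0) ∧ (wiping c.sig = true ↔ i = t) := by
  obtain ⟨h1, h2, h3, -⟩ := Fm_all ht h
  obtain ⟨hE, hSP⟩ := main_k (M := M) (x := x) k
  have hl' := alv_succ x hl
  have hsp := sp_cone hSP (t := t) (j := l + i) (by rw [h]; simp)
  have hpos : (0 : ℤ) < 2 ^ k := by positivity
  have hpos' : 0 < 2 ^ k := by positivity
  -- leaders near `l`
  have hlead : ∀ d : ℤ, l + i - t ≤ l + d → l + d ≤ l + i + t → (alv x k (l + d) = true ↔ (2 : ℤ) ^ k ∣ d) := by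
    intro d h4 h5
    obtain ⟨c0, hc0⟩ := hsp
    have a1 := (hc0 l (by omega) (by omega)).1 hl'
    rw [hc0 (l + d) h4 h5]
    constructor
    · intro h6
      have := dvd_sub h6 a1
      rwa [show l + d - c0 - (l - c0) = d by ring] at this
    · intro h6
      have := dvd_add h6 a1
      rwa [show d + (l - c0) = l + d - c0 by ring] at this
  have hsmall : ∀ d : ℤ, d ≠ 0 → -(2 ^ k) < d → d < 2 ^ k → ¬ (2 : ℤ) ^ k ∣ d := by
    intro d h4 h5 h6 h7
    rcases lt_or_ge d 0 with h8 | h8
    · exact not_dvd_small (n := 2 ^ k) (t := -d) (by omega) (by omega) ((dvd_neg).2 h7)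
    · exact not_dvd_small (by omega) h6 h7
  -- the leader `l + n` does not survive
  have hnext : 2 ^ k ≤ t → sg M x (Tt k + 2 ^ k) (l + 2 ^ k) ≠ none → alv x k (l + 2 ^ k) = true ∧
      alv x (k + 1) (l + 2 ^ k) = false := by
    intro h4 h5
    have h4z : (2 : ℤ) ^ k ≤ t := by exact_mod_cast h4
    have e1 : alv x k (l + 2 ^ k) = true := by
      rw [hlead _ (by omega) (by omega)]
    have := alt_of h5 e1
    rw [show l + 2 ^ k - 2 ^ k = l by ring, hl] at this
    exact ⟨e1, by simpa using this.2.1⟩
  refine ⟨h1, ?_, ?_⟩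
  · rw [h2]
    unfold stF
    rcases lt_or_ge t (2 ^ k) with h4 | h4
    · rw [if_pos h4]
      have h4z : (t : ℤ) < 2 ^ k := by exact_mod_cast h4
      by_cases hi0 : i = 0
      · subst hi0; simp [hl, hl']
      · have : alv x k (l + i) = false := by
          rw [← Bool.not_eq_true, hlead _ (by omega) (by omega)]
          exact hsmall _ (by omega) (by omega) (by omega)
        simp [this, hi0]
    · rw [if_neg (by omega)]
      by_cases hi0 : i = 0
      · subst hi0; simp [hl]
      · have : alv x (k + 1) (l + i) = false := by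
          by_contra h5
          rw [Bool.not_eq_false] at h5
          have h6 := (hlead i (by omega) (by omega)).1 (alv_succ x h5)
          obtain ⟨q, hq⟩ := h6
          have htz : (t : ℤ) < 2 * 2 ^ k := by exact_mod_cast ht
          have hq1 : q = 1 := by
            have a1 : 0 < q := by
              by_contra h7; push Not at h7
              have := mul_nonpos_of_nonneg_of_nonpos hpos.le h7
              omega
            have a2 : q < 2 := by
              by_contra h7; push Not at h7; nlinarith
            omega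
          subst hq1
          rw [mul_one] at hq
          rw [hq] at h5 h
          have := (hnext h4 (sg_cone M x (by rw [h]; simp) _ _ (by omega) (by push_cast; omega)
            (by push_cast; omega))).2
          rw [this] at h5
          simp at h5
        simp [this, hi0]
  · rw [h3]
    unfold sigF
    rcases lt_or_ge t (2 ^ k) with h4 | h4
    · rw [if_pos h4]
      have h4z : (t : ℤ) < 2 ^ k := by exact_mod_cast h4
      by_cases hit : i = t
      · subst hit
        rw [show l + (i : ℤ) - i = l by ring, hl']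
        simp [S0, hl, wiping]
      · have : alv x k (l + i - t) = false := by
          rw [show l + (i : ℤ) - t = l + (i - t) by ring, ← Bool.not_eq_true,
            hlead _ (by omega) (by omega)]
          exact hsmall _ (by omega) (by omega) (by omega)
        simp [this, hit, wiping]
    · rw [if_neg (by omega)]
      have h4z : (2 : ℤ) ^ k ≤ t := by exact_mod_cast h4
      have htz : (t : ℤ) < 2 * 2 ^ k := by exact_mod_cast ht
      by_cases hit : i = t
      · subst hit
        rw [show l + (i : ℤ) - (i - 2 ^ k) = l + 2 ^ k by ring]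
        obtain ⟨a1, a2⟩ := hnext h4 (sg_cone M x (t := Tt k + i) (j := l + i) (by rw [h]; simp) _ _
          (by omega) (by push_cast; omega) (by push_cast; omega))
        simp [a1, a2, wiping]
      · have : (alv x k (l + i - (t - 2 ^ k)) && !alv x (k + 1) (l + i - (t - 2 ^ k))) = false := by
          by_cases h5 : (i : ℤ) - (t - 2 ^ k) = 0
          · rw [show l + (i : ℤ) - (t - 2 ^ k) = l by omega, hl]; simp
          · have : alv x k (l + i - (t - 2 ^ k)) = false := by
              rw [show l + (i : ℤ) - (t - 2 ^ k) = l + (i - (t - 2 ^ k)) by ring,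
                ← Bool.not_eq_true, hlead _ (by omega) (by omega)]
              exact hsmall _ h5 (by omega) (by omega)
            rw [this]; rfl
        simp [this, hit, wiping]

def omg (x : ℤ → Sy) (l : ℤ) : ℕ → Bool := fun i => if i = 0 then false else (x (l + i)).z

theorem clean {k : ℕ} {l : ℤ} (hl : alv x (k + 1) l = true) (t : ℕ) (ht : t + 1 < 2 * 2 ^ k) :
    ∀ hc, hrun M (omg x l) t = some hc → ∀ i : ℕ, i ≤ t → ∀ c : Cell M,
      sg M x (Tt k + (t + 1)) (l + i) = some c →
      c.wk = hc.tp i ∧ c.hd = if i = hc.p then some hc.q else none := by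
  induction t with
  | zero =>
    intro hc hhc i hi c h
    obtain rfl : i = 0 := by omega
    simp only [hrun, Option.some.injEq] at hhc
    subst hhc
    obtain ⟨l1, c1, r1, h1, h2, h3, hG⟩ := sg_succ_some M x (t := Tt k) (by simpa using h)
    obtain ⟨-, o, -, -, -, -, -, hw, hh⟩ := G_spec hG
    have hz := zone hl (t := 0) (by positivity) (i := 0) le_rfl (c := c1) (by simpa using h2)
    have e1 : c1.status = .surv := hz.2.1.2 rfl
    have e2 : wiping c1.sig = true := hz.2.2.2 rfl
    rw [hw, hh]
    simp [lay2, e1, e2, hinit]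
  | succ t ih =>
    intro hc' hhc' i hi c' h
    rw [hrun] at hhc'
    cases h0 : hrun M (omg x l) t with
    | none => simp [h0] at hhc'
    | some hc =>
      rw [h0] at hhc'
      simp only [Option.bind_some] at hhc'
      have hinv := hrun_inv t hc h0
      have hinv' := hrun_inv (t + 1) hc' (by rw [hrun, h0]; exact hhc')
      obtain ⟨w', mv, hδ, htp, hmv⟩ := hstep_cases hhc'
      have IH := ih (by omega) hc h0
      -- action of the cells in the clean zone
      have hact : ∀ i' : ℕ, i' ≤ t + 1 → ∀ d : Cell M, sg M x (Tt k + (t + 1)) (l + i') = some d →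
          d.act = if i' = hc.p then some (hc'.q, w', mv) else none := by
        intro i' hi' d hd
        obtain ⟨z1, z2, z3⟩ := zone hl (by omega) hi' hd
        rcases Nat.lt_or_ge t i' with h4 | h4
        · have : i' = t + 1 := by omega
          have hw := z3.2 this
          rw [if_neg (by omega)]
          simp [Cell.act, Cell.eff, hw]
        · have hw : wiping d.sig = false := by
            rw [← Bool.not_eq_true, z3]; omega
          obtain ⟨a1, a2⟩ := IH i' h4 d hd
          have hinz : d.inz = omg x l i' := by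
            unfold Cell.inz omg
            by_cases h5 : i' = 0
            · rw [if_pos (z2.2 h5), if_pos h5]
            · rw [if_neg (fun h => h5 (z2.1 h)), if_neg h5, z1]
          simp only [Cell.act, Cell.eff, hw, Bool.false_eq_true, if_false, a2, a1, hinz]
          by_cases h5 : i' = hc.p
          · subst h5; simp [hδ]
          · simp [h5]
      obtain ⟨l1, c1, r1, h1, h2, h3, hG⟩ := sg_succ_some M x (t := Tt k + (t + 1)) h
      obtain ⟨-, o, -, -, -, -, -, hw, hh⟩ := G_spec hG
      obtain ⟨z1, z2, z3⟩ := zone hl (by omega) hi h2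
      have hnot : ¬ (c1.status = .surv ∧ wiping c1.sig = true) := by
        rintro ⟨a1, a2⟩
        have := z2.1 a1
        have := z3.1 a2
        omega
      have hactc := hact i hi c1 h2
      -- new work symbol
      have hwk : c'.wk = hc'.tp i := by
        rw [hw, lay2, if_neg hnot]
        simp only
        rcases Nat.lt_or_ge t i with h4 | h4
        · have hwi := z3.2 (show i = t + 1 by omega)
          rw [if_pos hwi]
          exact (hinv'.2 i (by omega) (by omega)).symm
        · have hwi : wiping c1.sig = false := by rw [← Bool.not_eq_true, z3]; omega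
          rw [if_neg (by simp [hwi]), hactc, htp, updN]
          by_cases h5 : i = hc.p
          · rw [if_pos h5, if_pos h5]; rfl
          · rw [if_neg h5, if_neg h5]
            exact (IH i h4 c1 h2).1
      refine ⟨hwk, ?_⟩
      rw [hh, lay2, if_neg hnot]
      simp only
      -- left contribution
      have hL : (if c1.status = .surv then none else outR l1.act) =
          if i = hc.p + 1 ∧ mv = .R then some hc'.q else none := by
        by_cases h5 : i = 0
        · rw [if_pos (z2.2 h5), if_neg (by omega)]
        · rw [if_neg (fun h => h5 (z2.1 h))]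
          have e1 : l + (i : ℤ) - 1 = l + ((i - 1 : ℕ) : ℤ) := by omega
          rw [e1] at h1
          rw [hact (i - 1) (by omega) l1 h1]
          by_cases h6 : i - 1 = hc.p
          · rw [if_pos h6]
            cases mv <;> simp [outR] <;> omega
          · rw [if_neg h6, if_neg (by omega)]; rfl
      have hS : outS c1.act = if i = hc.p ∧ mv = .S then some hc'.q else none := by
        rw [hactc]
        by_cases h6 : i = hc.p
        · rw [if_pos h6]; cases mv <;> simp [outS, h6]
        · rw [if_neg h6, if_neg (by tauto)]; rfl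
      have hR : (if wiping c1.sig then none else outL r1.act) =
          if i + 1 = hc.p ∧ mv = .L then some hc'.q else none := by
        rcases Nat.lt_or_ge t i with h4 | h4
        · have hwi := z3.2 (show i = t + 1 by omega)
          rw [if_pos hwi, if_neg (by omega)]
        · have hwi : wiping c1.sig = false := by rw [← Bool.not_eq_true, z3]; omega
          rw [if_neg (by simp [hwi])]
          have e1 : l + (i : ℤ) + 1 = l + ((i + 1 : ℕ) : ℤ) := by push_cast; ring
          rw [e1] at h3
          rw [hact (i + 1) (by omega) r1 h3]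
          by_cases h6 : i + 1 = hc.p
          · rw [if_pos h6]; cases mv <;> simp [outL, h6]
          · rw [if_neg h6, if_neg (by tauto)]; rfl
      rw [hL, hS, hR]
      rcases hmv with ⟨rfl, a1, a2⟩ | ⟨rfl, a2⟩ | ⟨rfl, a2⟩
      · have e1 : (i + 1 = hc.p) ↔ i = hc'.p := by omega
        simp [e1]
      · simp [a2]
      · simp [a2]

/-- no report in a good region -/
theorem no_rep {k : ℕ} {l : ℤ} (hl : alv x (k + 1) l = true) {t : ℕ} (ht : t + 1 < 2 * 2 ^ k)
    (hdef : sg M x (Tt k + (t + 2)) l ≠ none) : ¬ Rep M (omg x l) t := by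
  rintro ⟨hc, h1, h2, h3⟩
  obtain ⟨c', hc'⟩ := Option.ne_none_iff_exists'.1 hdef
  obtain ⟨l1, c1, r1, g1, g2, g3, hG⟩ := sg_succ_some M x (t := Tt k + (t + 1)) hc'
  obtain ⟨hnr, -⟩ := G_spec hG
  apply hnr
  have g2' : sg M x (Tt k + (t + 1)) (l + ((0 : ℕ) : ℤ)) = some c1 := by simpa using g2
  obtain ⟨z1, z2, z3⟩ := zone hl ht (Nat.zero_le _) g2'
  obtain ⟨a1, a2⟩ := clean hl t ht hc h1 0 (Nat.zero_le _) c1 g2'
  have hs := z2.2 rfl
  have hw : wiping c1.sig = false := by rw [← Bool.not_eq_true, z3]; omega
  rw [if_pos h2.symm] at a2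
  have he : c1.eff = some hc.q := by simp [Cell.eff, hw, a2]
  refine ⟨hs, by rw [he]; rfl, ?_⟩
  have hinz : c1.inz = omg x l 0 := by simp [Cell.inz, hs, omg]
  simp [Cell.act, he, a1, hinz, h3]

end Pool.Agent.H722.Med
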