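import Pool.Agent.H722.Med.Lay2

/-! Half-line machines from primitive recursive predicates. -/

namespace Pool.Agent.H722.Med

open Relation

inductive Instr (σ : Type)
  | q (r : ℕ) (t : Bool → σ)
  | d (r : ℕ) (z nz : σ)
  | nop (t : σ)
  | fail

def Instr.map {σ τ : Type} (f : σ → τ) : Instr σ → Instr τ
  | .q r t => .q r fun b => f (t b)
  | .d r z nz => .d r (f z) (f nz)
  | .nop t => .nop (f t)
  | .fail => .fail

def Instr.ok {σ : Type} (K : ℕ) : Instr σ → Prop
  | .q r _ => r < K
  | .d r _ _ => r < K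
  | _ => True

/-- effect of one instruction -/
inductive IStep {σ : Type} (ω : ℕ → Bool) : Instr σ → (ℕ → ℕ) → σ → (ℕ → ℕ) → Prop
  | q (r : ℕ) (t : Bool → σ) (v : ℕ → ℕ) :
      IStep ω (.q r t) v (t (ω (v r + 1))) (Function.update v r (v r + 1))
  | dz (r : ℕ) (z nz : σ) (v : ℕ → ℕ) : v r = 0 → IStep ω (.d r z nz) v z v
  | dn (r : ℕ) (z nz : σ) (v : ℕ → ℕ) (n : ℕ) : v r = n + 1 →
      IStep ω (.d r z nz) v nz (Function.update v r n)
  | nop (t : σ) (v : ℕ → ℕ) : IStep ω (.nop t) v t v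

theorem IStep.map {σ τ : Type} (f : σ → τ) {ω : ℕ → Bool} {i : Instr σ} {v v' : ℕ → ℕ} {s : σ}
    (h : IStep ω i v s v') : IStep ω (i.map f) v (f s) v' := by
  cases h with
  | q r t v => exact IStep.q r (fun b => f (t b)) v
  | dz r z nz v h => exact IStep.dz r _ _ v h
  | dn r z nz v n h => exact IStep.dn r _ _ v n h
  | nop t v => exact IStep.nop _ v

/-! ### the half-line machine of a register program -/

inductive PhR
  | ex | q1 | q2 | d1 | d2 | bk
deriving DecidableEq

instance : Finite PhR := Finite.of_injective (fun p : PhR => match p with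
  | .ex => (0 : Fin 6) | .q1 => 1 | .q2 => 2 | .d1 => 3 | .d2 => 4 | .bk => 5) (by
    intro a b h; cases a <;> cases b <;> simp_all)

section
variable {S : Type} (K : ℕ) (prog : S → Instr S) (s0 : S)

abbrev MW (K : ℕ) := Bool × (Fin K → Bool)

def has {K : ℕ} (w : MW K) (r : ℕ) : Bool := if h : r < K then w.2 ⟨r, h⟩ else false

def setm {K : ℕ} (w : MW K) (r : ℕ) (b : Bool) : MW K := (w.1, fun i => if i.1 = r then b else w.2 i)

def dlt : S × PhR → MW K → Bool → Option ((S × PhR) × MW K × Mv)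
  | (s, .ex), w, _ => match prog s with
    | .q _ _ => some ((s, .q1), w, .S)
    | .d r zz _ => if has w r then some ((zz, .ex), w, .S) else some ((s, .d1), w, .S)
    | .nop t => some ((t, .ex), w, .S)
    | .fail => none
  | (s, .q1), w, _ => match prog s with
    | .q r _ => if has w r then some ((s, .q2), setm w r false, .R) else some ((s, .q1), w, .R)
    | _ => none
  | (s, .q2), w, z => match prog s with
    | .q r t => some ((t z, .bk), setm w r true, .S)
    | _ => none
  | (s, .d1), w, _ => match prog s with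
    | .d r _ _ => if has w r then some ((s, .d2), setm w r false, .L) else some ((s, .d1), w, .R)
    | _ => none
  | (s, .d2), w, _ => match prog s with
    | .d r _ nz => some ((nz, .bk), setm w r true, .S)
    | _ => none
  | (s, .bk), w, _ => if w.1 then some ((s, .ex), w, .S) else some ((s, .bk), w, .L)

def htm : HTM where
  Q := S × PhR
  W := MW K
  q0 := (s0, .ex)
  w0 := (true, fun _ => true)
  b0 := (false, fun _ => false)
  δ := dlt K prog

def tpv (v : ℕ → ℕ) : ℕ → MW K := fun i => (decide (i = 0), fun r => decide (v r = i))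

end

section
variable {M : HTM}

def hit (ω : ℕ → Bool) : ℕ → HC M → Option (HC M)
  | 0, c => some c
  | n + 1, c => (hstep M ω c).bind (hit ω n)

theorem hit_add (ω : ℕ → Bool) (n m : ℕ) (c : HC M) :
    hit ω (n + m) c = (hit ω n c).bind (hit ω m) := by
  induction n generalizing c with
  | zero => simp [hit]
  | succ n ih =>
    have e : n + 1 + m = (n + m) + 1 := by omega
    rw [e]
    simp only [hit]
    cases hstep M ω c with
    | none => rfl
    | some d => simp [ih]

theorem hrun_eq_hit (ω : ℕ → Bool) (n : ℕ) : hrun M ω n = hit ω n (hinit M) := by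
  induction n with
  | zero => rfl
  | succ n ih =>
    rw [hrun, ih, hit_add ω n 1]
    congr 1
    funext c
    simp only [hit]
    cases hstep M ω c <;> rfl

theorem updN_self {B : Type} (w : ℕ → B) (p : ℕ) : updN w p (w p) = w := by
  funext i; unfold updN; split_ifs with h
  · rw [h]
  · rfl

theorem hstep_S {ω : ℕ → Bool} {q q' : M.Q} {p : ℕ} {tp tp' : ℕ → M.W} {w' : M.W}
    (h : M.δ q (tp p) (ω p) = some (q', w', .S)) (ht : updN tp p w' = tp') :
    hstep M ω ⟨q, p, tp⟩ = some ⟨q', p, tp'⟩ := by simp [hstep, h, ht]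

theorem hstep_R {ω : ℕ → Bool} {q q' : M.Q} {p : ℕ} {tp tp' : ℕ → M.W} {w' : M.W}
    (h : M.δ q (tp p) (ω p) = some (q', w', .R)) (ht : updN tp p w' = tp') :
    hstep M ω ⟨q, p, tp⟩ = some ⟨q', p + 1, tp'⟩ := by simp [hstep, h, ht]

theorem hstep_L {ω : ℕ → Bool} {q q' : M.Q} {p : ℕ} {tp tp' : ℕ → M.W} {w' : M.W}
    (h : M.δ q (tp (p + 1)) (ω (p + 1)) = some (q', w', .L)) (ht : updN tp (p + 1) w' = tp') :
    hstep M ω ⟨q, p + 1, tp⟩ = some ⟨q', p, tp'⟩ := by simp [hstep, h, ht]

/-- positive number of steps -/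
def HR (ω : ℕ → Bool) (c c' : HC M) : Prop := ∃ n, 0 < n ∧ hit ω n c = some c'

theorem HR.trans {ω : ℕ → Bool} {a b c : HC M} (h : HR ω a b) (h' : HR ω b c) : HR ω a c := by
  obtain ⟨n, h1, h2⟩ := h
  obtain ⟨m, h3, h4⟩ := h'
  exact ⟨n + m, by omega, by rw [hit_add, h2]; exact h4⟩

theorem HR.one {ω : ℕ → Bool} {a b : HC M} (h : hstep M ω a = some b) : HR ω a b :=
  ⟨1, by omega, by simp [hit, h]⟩

end

section
variable {S : Type} {K : ℕ} {prog : S → Instr S} {s0 : S} {ω : ℕ → Bool}

theorem has_tpv {v : ℕ → ℕ} {r : ℕ} (hr : r < K) (i : ℕ) : has (tpv K v i) r = decide (v r = i) := by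
  simp [has, tpv, hr]

theorem back_run (s : S) (tp : ℕ → MW K) (h : ∀ i, (tp i).1 = decide (i = 0)) (p : ℕ) :
    HR (M := htm K prog s0) ω ⟨(s, .bk), p, tp⟩ ⟨(s, .ex), 0, tp⟩ := by
  induction p with
  | zero =>
    refine HR.one (hstep_S (w' := tp 0) ?_ (updN_self tp 0))
    show dlt K prog (s, .bk) (tp 0) (ω 0) = _
    simp [dlt, h]
    rfl
  | succ p ih =>
    refine HR.trans (HR.one (hstep_L (w' := tp (p + 1)) ?_ (updN_self tp (p + 1)))) ih
    show dlt K prog (s, .bk) (tp (p + 1)) (ω (p + 1)) = _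
    simp [dlt, h]
    rfl

theorem scan_run (s : S) (ph : PhR) (v : ℕ → ℕ) (r : ℕ) (hr : r < K)
    (hδ : ∀ w z, has w r = false → dlt K prog (s, ph) w z = some ((s, ph), w, .R)) :
    ∀ i ≤ v r, ∃ n, hit (M := htm K prog s0) ω n ⟨(s, ph), 0, tpv K v⟩ =
      some ⟨(s, ph), i, tpv K v⟩ := by
  intro i
  induction i with
  | zero => intro _; exact ⟨0, rfl⟩
  | succ i ih =>
    intro hi
    obtain ⟨n, hn⟩ := ih (by omega)
    refine ⟨n + 1, ?_⟩
    rw [hit_add, hn]
    have hs : hstep (htm K prog s0) ω ⟨(s, ph), i, tpv K v⟩ = some ⟨(s, ph), i + 1, tpv K v⟩ := by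
      refine hstep_R (w' := tpv K v i) ?_ (updN_self (tpv K v) i)
      exact hδ _ _ (by rw [has_tpv hr]; simp; omega)
    simp [hit, hs]

theorem tpv_move (v : ℕ → ℕ) (r a : ℕ) (hne : v r ≠ a) :
    updN (updN (tpv K v) (v r) (setm (tpv K v (v r)) r false)) a
      (setm (tpv K v a) r true) = tpv K (Function.update v r a) := by
  funext i
  unfold updN
  by_cases h1 : i = a
  · rw [if_pos h1, h1]
    unfold setm tpv
    refine Prod.ext rfl (funext fun j => ?_)
    simp only
    by_cases h2 : j.1 = r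
    · rw [if_pos h2, h2]; simp
    · rw [if_neg h2, Function.update_of_ne h2]
  · rw [if_neg h1]
    by_cases h3 : i = v r
    · rw [if_pos h3, h3]
      unfold setm tpv
      refine Prod.ext rfl (funext fun j => ?_)
      simp only
      by_cases h2 : j.1 = r
      · rw [if_pos h2, h2]; simp [Ne.symm hne]
      · rw [if_neg h2, Function.update_of_ne h2]
    · rw [if_neg h3]
      unfold tpv
      refine Prod.ext rfl (funext fun j => ?_)
      simp only
      by_cases h2 : j.1 = r
      · rw [h2]; simp [Ne.symm h1, Ne.symm h3]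
      · rw [Function.update_of_ne h2]

theorem sim_step {s s' : S} {v v' : ℕ → ℕ} (hok : (prog s).ok K)
    (h : IStep ω (prog s) v s' v') :
    HR (M := htm K prog s0) ω ⟨(s, .ex), 0, tpv K v⟩ ⟨(s', .ex), 0, tpv K v'⟩ := by
  generalize hp : prog s = ins at h hok
  cases h with
  | nop t v =>
    refine HR.one (hstep_S (w' := tpv K v 0) ?_ (updN_self (tpv K v) 0))
    show dlt K prog (s, .ex) (tpv K v 0) (ω 0) = _
    simp [dlt, hp]
    rfl
  | dz r z nz v h0 =>
    simp only [Instr.ok] at hok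
    refine HR.one (hstep_S (w' := tpv K v 0) ?_ (updN_self (tpv K v) 0))
    show dlt K prog (s, .ex) (tpv K v 0) (ω 0) = _
    simp [dlt, hp, has_tpv hok, h0]
    rfl
  | q r t v =>
    simp only [Instr.ok] at hok
    have a1 : HR (M := htm K prog s0) ω ⟨(s, .ex), 0, tpv K v⟩ ⟨(s, .q1), 0, tpv K v⟩ := by
      refine HR.one (hstep_S (w' := tpv K v 0) ?_ (updN_self (tpv K v) 0))
      show dlt K prog (s, .ex) (tpv K v 0) (ω 0) = _
      simp [dlt, hp]
      rfl
    obtain ⟨n, hn⟩ := scan_run (prog := prog) (s0 := s0) (ω := ω) s .q1 v r hok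
      (fun w z h => by simp [dlt, hp, h]) (v r) le_rfl
    have a2 : HR (M := htm K prog s0) ω ⟨(s, .q1), v r, tpv K v⟩
        ⟨(s, .q2), v r + 1, updN (tpv K v) (v r) (setm (tpv K v (v r)) r false)⟩ := by
      refine HR.one (hstep_R (w' := setm (tpv K v (v r)) r false) ?_ rfl)
      show dlt K prog (s, .q1) (tpv K v (v r)) (ω (v r)) = _
      simp [dlt, hp, has_tpv hok]
      rfl
    have a3 : HR (M := htm K prog s0) ω
        ⟨(s, .q2), v r + 1, updN (tpv K v) (v r) (setm (tpv K v (v r)) r false)⟩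
        ⟨(t (ω (v r + 1)), .bk), v r + 1, tpv K (Function.update v r (v r + 1))⟩ := by
      have e1 : updN (tpv K v) (v r) (setm (tpv K v (v r)) r false) (v r + 1) =
          tpv K v (v r + 1) := by unfold updN; rw [if_neg (by omega)]
      refine HR.one (hstep_S (w' := setm (tpv K v (v r + 1)) r true) ?_
        (tpv_move v r (v r + 1) (by omega)))
      show dlt K prog (s, .q2) (updN (tpv K v) (v r) (setm (tpv K v (v r)) r false) (v r + 1))
        (ω (v r + 1)) = _
      rw [e1]
      simp [dlt, hp]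
      rfl
    have a4 := back_run (prog := prog) (s0 := s0) (ω := ω) (t (ω (v r + 1)))
      (tpv K (Function.update v r (v r + 1))) (fun i => rfl) (v r + 1)
    obtain ⟨m, hm1, hm2⟩ := a1
    have a12 : HR (M := htm K prog s0) ω ⟨(s, .ex), 0, tpv K v⟩ ⟨(s, .q1), v r, tpv K v⟩ :=
      ⟨m + n, by omega, by rw [hit_add, hm2]; exact hn⟩
    exact ((a12.trans a2).trans a3).trans a4
  | dn r z nz v n0 h0 =>
    simp only [Instr.ok] at hok
    have a1 : HR (M := htm K prog s0) ω ⟨(s, .ex), 0, tpv K v⟩ ⟨(s, .d1), 0, tpv K v⟩ := by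
      refine HR.one (hstep_S (w' := tpv K v 0) ?_ (updN_self (tpv K v) 0))
      show dlt K prog (s, .ex) (tpv K v 0) (ω 0) = _
      simp [dlt, hp, has_tpv hok, h0]
      rfl
    obtain ⟨n, hn⟩ := scan_run (prog := prog) (s0 := s0) (ω := ω) s .d1 v r hok
      (fun w z h => by simp [dlt, hp, h]) (v r) le_rfl
    have a2 : HR (M := htm K prog s0) ω ⟨(s, .d1), v r, tpv K v⟩
        ⟨(s, .d2), n0, updN (tpv K v) (v r) (setm (tpv K v (v r)) r false)⟩ := by
      rw [h0]
      refine HR.one (hstep_L (w' := setm (tpv K v (n0 + 1)) r false) ?_ rfl)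
      show dlt K prog (s, .d1) (tpv K v (n0 + 1)) (ω (n0 + 1)) = _
      simp [dlt, hp, has_tpv hok, h0]
      rfl
    have a3 : HR (M := htm K prog s0) ω
        ⟨(s, .d2), n0, updN (tpv K v) (v r) (setm (tpv K v (v r)) r false)⟩
        ⟨(s', .bk), n0, tpv K (Function.update v r n0)⟩ := by
      have e1 : updN (tpv K v) (v r) (setm (tpv K v (v r)) r false) n0 = tpv K v n0 := by
        unfold updN; rw [if_neg (by omega)]
      refine HR.one (hstep_S (w' := setm (tpv K v n0) r true) ?_
        (tpv_move v r n0 (by omega)))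
      show dlt K prog (s, .d2) (updN (tpv K v) (v r) (setm (tpv K v (v r)) r false) n0)
        (ω n0) = _
      rw [e1]
      simp [dlt, hp]
      rfl
    have a4 := back_run (prog := prog) (s0 := s0) (ω := ω) s'
      (tpv K (Function.update v r n0)) (fun i => rfl) n0
    obtain ⟨m, hm1, hm2⟩ := a1
    have a12 : HR (M := htm K prog s0) ω ⟨(s, .ex), 0, tpv K v⟩ ⟨(s, .d1), v r, tpv K v⟩ :=
      ⟨m + n, by omega, by rw [hit_add, hm2]; exact hn⟩
    exact ((a12.trans a2).trans a3).trans a4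

/-- closed register-program steps -/
def CStep (prog : S → Instr S) (ω : ℕ → Bool) (a b : S × (ℕ → ℕ)) : Prop :=
  IStep ω (prog a.1) a.2 b.1 b.2

theorem sim_run (hok : ∀ s, (prog s).ok K) {a b : S × (ℕ → ℕ)}
    (h : TransGen (CStep prog ω) a b) :
    HR (M := htm K prog s0) ω ⟨(a.1, .ex), 0, tpv K a.2⟩ ⟨(b.1, .ex), 0, tpv K b.2⟩ := by
  induction h with
  | single h => exact sim_step (hok _) h
  | tail _ h ih => exact ih.trans (sim_step (hok _) h)

theorem hinit_eq : hinit (htm K prog s0) = ⟨(s0, .ex), 0, tpv K fun _ => 0⟩ := by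
  unfold hinit
  congr 1
  funext i
  unfold tpv htm
  by_cases h : i = 0
  · subst h; simp
  · simp [h, Ne.symm h]

end

end Pool.Agent.H722.Med
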