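import Pool.Agent.H722.Med.Mach
import Pool.Graph.R_pool_sql_team_ae5b0c61.H38.CM.Queue

namespace Pool.Agent.H722.Med

open Pool.Agent.H38.CM Relation

/-! ### compiling while programs -/

def ins : (w : W) → St w → Instr (Option (St w))
  | .inc r, _ => .q r fun _ => none
  | .skip, _ => .nop none
  | .seq a b, .inl s => (ins a s).map (jmp (fun t => some (.inl t)) (some (.inr (entry b))))
  | .seq _ b, .inr s => (ins b s).map (jmp (fun t => some (.inr t)) none)
  | .loop r b, .inl _ => .d r none (some (.inr (entry b)))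
  | .loop _ b, .inr s => (ins b s).map (jmp (fun t => some (.inr t)) (some (.inl false)))

def mxr : W → ℕ
  | .inc r => r + 1
  | .skip => 0
  | .seq a b => max (mxr a) (mxr b)
  | .loop r b => max (r + 1) (mxr b)

theorem ok_map {σ τ : Type} (f : σ → τ) (i : Instr σ) (K : ℕ) (h : i.ok K) : (i.map f).ok K := by
  cases i <;> simp_all [Instr.map, Instr.ok]

theorem ins_ok (K : ℕ) : ∀ (w : W) (s : St w), mxr w ≤ K → (ins w s).ok K
  | .inc r, _, h => by simp only [mxr] at h; simp only [ins, Instr.ok]; omega
  | .skip, _, _ => trivial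
  | .seq a b, .inl s, h => ok_map _ _ _ (ins_ok K a s (by simp only [mxr] at h; omega))
  | .seq a b, .inr s, h => ok_map _ _ _ (ins_ok K b s (by simp only [mxr] at h; omega))
  | .loop r b, .inl _, h => by simp only [mxr] at h; simp only [ins, Instr.ok]; omega
  | .loop r b, .inr s, h => ok_map _ _ _ (ins_ok K b s (by simp only [mxr] at h; omega))

/-- open program steps; `none` is the exit -/
def OStep (ω : ℕ → Bool) (w : W) (a b : Option (St w) × (ℕ → ℕ)) : Prop :=
  ∃ s, a.1 = some s ∧ IStep ω (ins w s) a.2 b.1 b.2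

theorem lift_o {ω : ℕ → Bool} {a w : W} (f : St a → St w) (e : Option (St w))
    (h : ∀ s, ins w (f s) = (ins a s).map (jmp (fun t => some (f t)) e))
    {c d : Option (St a) × (ℕ → ℕ)} (hr : ReflTransGen (OStep ω a) c d) :
    ReflTransGen (OStep ω w) (jmp (fun t => some (f t)) e c.1, c.2)
      (jmp (fun t => some (f t)) e d.1, d.2) := by
  induction hr with
  | refl => exact ReflTransGen.refl
  | @tail b c _ hs ih =>
    obtain ⟨s, hs1, hs2⟩ := hs
    refine ih.tail ?_
    rw [hs1]
    refine ⟨f s, rfl, ?_⟩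
    rw [h]
    exact hs2.map _

theorem run_ev {ω : ℕ → Bool} {w : W} {v v' : ℕ → ℕ} (h : Ev w v v') :
    ReflTransGen (OStep ω w) (some (entry w), v) (none, v') := by
  induction h with
  | inc r v => exact ReflTransGen.single ⟨_, rfl, IStep.q r (fun _ => none) v⟩
  | skip v => exact ReflTransGen.single ⟨_, rfl, IStep.nop none v⟩
  | @seq a b _ _ _ _ _ ih1 ih2 =>
    exact (lift_o (w := .seq a b) Sum.inl (some (.inr (entry b))) (fun _ => rfl) ih1).trans
      (lift_o (w := .seq a b) Sum.inr none (fun _ => rfl) ih2)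
  | @l0 r b v h0 =>
    refine ReflTransGen.single ⟨(Sum.inl false : Bool ⊕ St b), rfl, ?_⟩
    exact IStep.dz (σ := Option (Bool ⊕ St b)) r none (some (Sum.inr (entry b))) v h0
  | @l1 r b v u w n h1 _ _ ih1 ih2 =>
    have h0 : OStep ω (.loop r b) (some (entry (.loop r b)), v)
        ((some (Sum.inr (entry b)) : Option (Bool ⊕ St b)), Function.update v r n) :=
      ⟨(Sum.inl false : Bool ⊕ St b), rfl,
        IStep.dn (σ := Option (Bool ⊕ St b)) r none (some (Sum.inr (entry b))) v n h1⟩
    refine ReflTransGen.head h0 ?_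
    exact (lift_o (w := .loop r b) Sum.inr (some (.inl false)) (fun _ => rfl) ih1).trans ih2

/-! ### the main loop -/

inductive MS (w : W)
  | Q0 | I1 | C | F
  | body (s : St w)

def toMS (w : W) : Option (St w) → MS w
  | some t => .body t
  | none => .C

def mprog (w : W) : MS w → Instr (MS w)
  | .Q0 => .q 3 fun b => if b then .I1 else .body (entry w)
  | .I1 => .q 1 fun _ => .body (entry w)
  | .C => .d 2 .F .Q0
  | .F => .fail
  | .body s => (ins w s).map (toMS w)

instance (w : W) : Finite (MS w) := by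
  have := St.finite w
  exact Finite.of_injective (β := Fin 4 ⊕ St w) (fun m => match m with
    | .Q0 => .inl 0 | .I1 => .inl 1 | .C => .inl 2 | .F => .inl 3 | .body s => .inr s) (by
    intro a b h; cases a <;> cases b <;> simp_all)

theorem body_run {ω : ℕ → Bool} {w : W} {v v' : ℕ → ℕ} (h : Ev w v v') :
    ReflTransGen (CStep (mprog w) ω) (.body (entry w), v) (.C, v') := by
  have := run_ev (ω := ω) h
  have key : ∀ c : Option (St w) × (ℕ → ℕ), ReflTransGen (OStep ω w) (some (entry w), v) c →
      ReflTransGen (CStep (mprog w) ω) (.body (entry w), v)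
        (toMS w c.1, c.2) := by
    intro c hc
    induction hc with
    | refl => exact ReflTransGen.refl
    | @tail b c _ hs ih =>
      obtain ⟨s, hs1, hs2⟩ := hs
      refine ih.tail ?_
      rw [hs1]
      exact hs2.map (toMS w)
  exact key _ this

def pre (ω : ℕ → Bool) (n : ℕ) : List Bool := (List.range n).map fun i => ω (i + 1)

theorem pre_succ (ω : ℕ → Bool) (n : ℕ) : pre ω (n + 1) = pre ω n ++ [ω (n + 1)] := by
  simp [pre, List.range_succ]

end Pool.Agent.H722.Med
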