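import Pool.Agent.H722.Med.Mach2

namespace Pool.Agent.H722.Med

open Pool.Agent.H38.CM Relation

theorem exists_body {chk : List Bool → Bool} (hc : Primrec chk) : ∃ w : W, ∀ (l : List Bool)
    (b : Bool) (n : ℕ) (v : ℕ → ℕ), v 0 = Encodable.encode l → v 1 = (if b then 1 else 0) →
      v 3 = n → ∃ u, Ev w v u ∧ u 0 = Encodable.encode (l ++ [b]) ∧ u 1 = 0 ∧
        u 2 = (if chk (l ++ [b]) then 1 else 0) ∧ u 3 = n := by
  -- next code
  have hdec : Primrec fun k : ℕ => ((Encodable.decode (α := List Bool) k).getD []) :=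
    Primrec.option_getD.comp Primrec.decode (Primrec.const [])
  have hp1 : Nat.Primrec' (n := 2) fun v => Encodable.encode
      (((Encodable.decode (α := List Bool) v.head).getD []) ++ [decide (v.tail.head ≠ 0)]) := by
    apply Nat.Primrec'.prim_iff.2
    refine Primrec.encode.comp (Primrec.list_append.comp (hdec.comp Primrec.vector_head) ?_)
    refine Primrec.list_cons.comp ?_ (Primrec.const [])
    have : PrimrecPred fun v : List.Vector ℕ 2 => v.tail.head ≠ 0 :=
      (Primrec.eq.comp (Primrec.vector_head.comp Primrec.vector_tail) (Primrec.const 0)).not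
    exact this.decide
  have hp2 : Nat.Primrec' (n := 1) fun v =>
      if chk ((Encodable.decode (α := List Bool) v.head).getD []) = true then 1 else 0 := by
    apply Nat.Primrec'.prim_iff.2
    refine Primrec.ite ?_ (Primrec.const 1) (Primrec.const 0)
    exact Primrec.eq.comp (hc.comp (hdec.comp Primrec.vector_head)) (Primrec.const true)
  obtain ⟨w1, hw1⟩ := comp_of_prim hp1 ![0, 1] 2 5 (fun i => by fin_cases i <;> simp) (by omega)
    (fun i => by fin_cases i <;> simp)
  obtain ⟨w2, hw2⟩ := comp_of_prim hp2 ![0] 2 5 (fun i => by fin_cases i; simp) (by omega)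
    (fun i => by fin_cases i; simp)
  refine ⟨.seq w1 (.seq (copy 2 0 4) (.seq w2 (clear 1))), fun l b n v h0 h1 h3 => ?_⟩
  obtain ⟨u1, e1, a1, a2⟩ := hw1 v
  obtain ⟨u2, e2, b1, b2⟩ := ev_copy 2 0 4 (by omega) (by omega) (by omega) u1
  obtain ⟨u3, e3, c1, c2⟩ := hw2 u2
  refine ⟨_, Ev.seq e1 (Ev.seq e2 (Ev.seq e3 (ev_clear 1 u3))), ?_, ?_, ?_, ?_⟩
  · rw [Function.update_of_ne (by omega), c2 0 (by omega) (by omega), b1, a1]
    simp only [List.Vector.head_ofFn, List.Vector.tail_ofFn]
    simp [h0, h1]
  · simp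
  · rw [Function.update_of_ne (by omega), c1]
    have : u2 0 = Encodable.encode (l ++ [b]) := by
      rw [b1, a1]
      simp only [List.Vector.head_ofFn, List.Vector.tail_ofFn]
      simp [h0, h1]
    simp only [List.Vector.head_ofFn]
    simp [this]
  · rw [Function.update_of_ne (by omega), c2 3 (by omega) (by omega), b2 3 (by omega) (by omega),
      a2 3 (by omega) (by omega), h3]

end Pool.Agent.H722.Med
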