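import Pool.Agent.H722.Med.Cross

/-! Analysis of arbitrary immortal configurations: the visited interval grows without bound and
all its windows (up to a margin) are good. -/

namespace Pool.Agent.H722.Med

variable {A C : Type}

namespace Sys

variable (T : Sys A C) (x : ℤ → A)

def Vis (n : ℕ) (c : Cfg C) (z : ℤ) : Prop := ∃ k ≤ n, ∃ d, T.run x k c = some d ∧ d.p = z

/-- index of a cell in direction `e` from `u` -/
def idx (e : Bool) (u p : ℤ) : ℤ := if e then p - u else u - p

/-- An infinite crossing started at anchor `u` in direction `e`. -/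
def InfAt (e : Bool) (u : ℤ) (c : Cfg C) : Prop :=
  (∀ r : ℕ, T.col x e u r ≠ none) ∧
  (∀ r : ℕ, ∃ n, r ≤ n ∧ ∃ c', T.Reach x (Btw u (ps e u (r + 1))) n c c' ∧ c'.p = ps e u r)

variable {T x}

theorem Vis.start {n : ℕ} {c : Cfg C} {z : ℤ} (h : c.p = z) : T.Vis x n c z :=
  ⟨0, by omega, c, rfl, h⟩

theorem Vis.reach {P : ℤ → Prop} {n m : ℕ} {a b : Cfg C} {z : ℤ} (h : T.Vis x m b z)
    (hr : T.Reach x P n a b) : T.Vis x (n + m) a z := by
  obtain ⟨k, hk, d, hd, hz⟩ := h
  exact ⟨n + k, by omega, d, by rw [run_add, hr.run]; simpa using hd, hz⟩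

theorem Vis.mono {n m : ℕ} {a : Cfg C} {z : ℤ} (h : T.Vis x n a z) (hnm : n ≤ m) :
    T.Vis x m a z := by
  obtain ⟨k, hk, d, hd, hz⟩ := h
  exact ⟨k, by omega, d, hd, hz⟩

theorem Vis.last {P : ℤ → Prop} {n : ℕ} {a b : Cfg C} (hr : T.Reach x P n a b) :
    T.Vis x n a b.p := ⟨n, le_rfl, b, hr.run, rfl⟩

/-- A crossing started next to a nonblank anchor either is infinite or completes. -/
theorem CB {e : Bool} {k : Ph × C} {u : ℤ} {w : ℤ → Wk C}
    (hal : T.Alive x ⟨.S e k (T.ι (x u)), ps e u 1, w⟩) (hu : w u ≠ .bl) :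
    T.InfAt x e u ⟨.S e k (T.ι (x u)), ps e u 1, w⟩ ∨
    ∃ (d : ℕ) (g : C) (n : ℕ), (∀ i : ℕ, 1 ≤ i → i ≤ d → w (ps e u i) = .bl) ∧
      w (ps e u (d + 1)) ≠ .bl ∧ T.col x e u d = some g ∧
      T.Reach x (Btw u (ps e u (d + 1))) n ⟨.S e k (T.ι (x u)), ps e u 1, w⟩
        ⟨.S e k g, ps e u (d + 1), w⟩ := by
  classical
  by_cases hex : ∃ d : ℕ, w (ps e u (d + 1)) ≠ .bl
  · right
    set d := Nat.find hex with hd
    have h1 : w (ps e u (d + 1)) ≠ .bl := Nat.find_spec hex
    have h2 : ∀ i : ℕ, 1 ≤ i → i ≤ d → w (ps e u i) = .bl := by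
      intro i hi1 hi2
      by_contra hne
      have := Nat.find_min hex (m := i - 1) (by omega)
      apply this
      rwa [show ((i - 1 : ℕ) : ℤ) + 1 = i by omega]
    have hcr := crossing_all (T := T) (x := x) d e k u w hu h2 h1
    cases hg : T.col x e u d with
    | none => exact absurd (hcr.2 hg) hal.not_mortal
    | some g =>
      obtain ⟨n, hn⟩ := hcr.1 g hg
      exact ⟨d, g, n, h2, h1, hg, hn⟩
  · left
    have hb : ∀ i : ℕ, 1 ≤ i → w (ps e u i) = .bl := by
      intro i hi
      by_contra hne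
      exact hex ⟨i - 1, by rwa [show ((i - 1 : ℕ) : ℤ) + 1 = i by omega]⟩
    have hgood : ∀ r : ℕ, T.col x e u r ≠ none := by
      intro r
      induction r with
      | zero => rw [col_zero]; simp
      | succ r ih =>
        intro hnone
        obtain ⟨g0, hg0⟩ := Option.ne_none_iff_exists'.1 ih
        obtain ⟨n1, -, t1⟩ := growTo (r := r) (k := k) (fun d' _ => crossing_all d') hu
          (fun i a _ => hb i a) hg0
        exact absurd (Mortal.reach (growRound_mortal (crossing_all r) hu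
          (fun i a _ => hb i a) hg0 hnone) t1) hal.not_mortal
    refine ⟨hgood, fun r => ?_⟩
    obtain ⟨g0, hg0⟩ := Option.ne_none_iff_exists'.1 (hgood r)
    obtain ⟨n1, h1, t1⟩ := growTo (r := r) (k := k) (fun d' _ => crossing_all d') hu
      (fun i a _ => hb i a) hg0
    exact ⟨n1, h1, _, t1, rfl⟩

/-- From state `Y`. -/
theorem LY {e : Bool} {k : Ph × C} {g : C} {h : ℤ} {w : ℤ → Wk C}
    (hal : T.Alive x ⟨.Y e k g, h, w⟩) :
    (∃ c1, T.step x ⟨.Y e k g, h, w⟩ = some c1 ∧ T.InfAt x (!e) h c1) ∨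
    ∃ (d : ℕ) (n : ℕ), (∀ i : ℕ, 1 ≤ i → i ≤ d → w (ps (!e) h i) = .bl) ∧
      w (ps (!e) h (d + 1)) ≠ .bl ∧ T.col x (!e) h d ≠ none ∧
      T.Reach x (Btw h (ps (!e) h (d + 1))) n ⟨.Y e k g, h, w⟩ ⟨.S e k g, ps e h 1, upd w h .bl⟩ ∧
      T.Vis x n ⟨.Y e k g, h, w⟩ (ps (!e) h (d + 1)) ∧ 0 < n := by
  have s0 := step_Y (T := T) (x := x) (e := e) (k := k) (g := g) (p := h) (w := w)
  set w1 := upd w h (.R' e k) with hw1
  have w1h : w1 h = .R' e k := upd_self _ _ _
  rcases CB (hal.step s0) (by rw [w1h]; simp) with hI | ⟨d, g', n, hb, hz, hcol, hr⟩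
  · left; exact ⟨_, s0, hI⟩
  · right
    have hne : ∀ i : ℤ, i ≠ 0 → ps (!e) h i ≠ h := by
      intro i hi
      have := ps_ne (e := !e) (u := h) (i := i) (j := 0) hi
      rwa [ps_zero] at this
    have hb' : ∀ i : ℕ, 1 ≤ i → i ≤ d → w (ps (!e) h i) = .bl := by
      intro i h1 h2
      have := hb i h1 h2
      rwa [hw1, upd_ne _ _ (hne i (by omega))] at this
    have hz' : w (ps (!e) h (d + 1)) ≠ .bl := by
      rwa [hw1, upd_ne _ _ (hne _ (by omega))] at hz
    set o := ps (!e) h ((d : ℤ) + 1) with ho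
    have s1 : T.step x ⟨.S (!e) (.zs, g) g', o, w1⟩ = some ⟨.X e g, ps e o ((1 : ℕ) : ℤ), w1⟩ := by
      rw [step_S_zs hz]; simp
    have eo : ps e o (((d + 1 : ℕ) : ℤ)) = h := by
      rw [ho]; cases e <;> simp [ps]
    have hio : ∀ i : ℕ, ps e o (i : ℤ) = ps (!e) h ((d : ℤ) + 1 - i) := by
      intro i; rw [ho]; cases e <;> simp [ps] <;> ring
    obtain ⟨n2, t2⟩ := zip (T := T) (x := x) (e := e) (k := k) (g := g) (u := o) (w := w1) (d + 1)
      d 1 (by omega) (fun d' _ => crossing_all d') (by rw [eo]; exact w1h) (by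
        intro i h1 h2
        rw [hio]
        have := hb (d + 1 - i) (by omega) (by omega)
        rwa [show ((d + 1 - i : ℕ) : ℤ) = (d : ℤ) + 1 - i by omega] at this) (by
        intro hd
        constructor
        · refine col_sub (e := !e) (u := h) (n := d) (by rw [hcol]; simp) e _ _ ⟨d, by omega, ?_, ?_⟩
          · rw [hio]; congr 1; push_cast; ring
          · rw [if_neg (by cases e <;> simp)]; omega
        · rw [eo]
          exact col_sub (e := !e) (u := h) (n := d) (by rw [hcol]; simp) (!e) _ _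
            ⟨0, le_rfl, by rw [ps_zero], by simp⟩)
    rw [eo] at t2
    have e3 : ps e o (((d + 1 : ℕ) : ℤ) + 1) = ps e h 1 := by
      rw [← eo, ps_add]
    have e4 : upd w1 h .bl = upd w h .bl := by rw [hw1, upd_upd]
    rw [e3, e4] at t2
    have hho : Btw h o h := by simp only [Btw]; omega
    have hoo : Btw h o o := by simp only [Btw]; omega
    have hm : ∀ p, Btw (ps e o ((1 : ℕ) : ℤ)) h p → Btw h o p := by
      intro p hp
      rw [ho] at hp ⊢
      cases e <;> simp only [Btw, ps_true, ps_false, Bool.not_true, Bool.not_false] at hp ⊢ <;>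
        push_cast at hp <;> omega
    refine ⟨d, _, hb', hz', by rw [hcol]; simp,
      ((Reach.one s0 hho).trans hr).trans ((Reach.one s1 hoo).trans (t2.mono hm)), ?_, by omega⟩
    have v1 : T.Vis x (1 + n) ⟨.Y e k g, h, w⟩ o := Vis.last ((Reach.one s0 hho).trans hr)
    exact v1.mono (by omega)

/-- From state `X`. -/
theorem LX {e : Bool} {g : C} {p : ℤ} {w : ℤ → Wk C}
    (hal : T.Alive x ⟨.X e g, p, w⟩) :
    (∃ c1, T.step x ⟨.X e g, p, w⟩ = some c1 ∧ T.InfAt x e p c1) ∨
    ∃ (d : ℕ) (k : Ph × C) (n : ℕ), (∀ i : ℕ, i < d → w (ps e p i) = .bl) ∧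
      w (ps e p d) ≠ .bl ∧ (0 < d → T.col x e p (d - 1) ≠ none) ∧
      T.Reach x (Btw p (ps e p (d + 1))) n ⟨.X e g, p, w⟩
        ⟨.S e k g, ps e p (d + 1), upd w (ps e p d) .bl⟩ ∧ 0 < n := by
  by_cases hp : w p = .bl
  · have s0 := step_X_bl (T := T) (x := x) (e := e) (g := g) hp
    set w1 := upd w p .m with hw1
    have w1p : w1 p = .m := upd_self _ _ _
    rcases CB (hal.step s0) (by rw [w1p]; simp) with hI | ⟨d, g', n, hb, hz, hcol, hr⟩
    · left; exact ⟨_, s0, hI⟩
    · right
      have hne : ∀ i : ℤ, i ≠ 0 → ps e p i ≠ p := by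
        intro i hi
        have := ps_ne (e := e) (u := p) (i := i) (j := 0) hi
        rwa [ps_zero] at this
      have hb' : ∀ i : ℕ, 1 ≤ i → i ≤ d → w (ps e p i) = .bl := by
        intro i h1 h2
        have := hb i h1 h2
        rwa [hw1, upd_ne _ _ (hne i (by omega))] at this
      set z := ps e p ((d : ℤ) + 1) with hzdef
      have hzz : w1 z = w z := upd_ne _ _ (hne _ (by omega))
      have hal2 : T.Alive x ⟨.S e (.zf, g) g', z, w1⟩ := (hal.step s0).reach hr
      obtain ⟨c2, s2⟩ := hal2.exists_step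
      obtain ⟨k, hk, rfl⟩ := step_S_zf' hz s2
      have hz1 : ps (!e) z ((d : ℤ) + 1) = p := by rw [hzdef, ps_ps]; simp [ps_zero]
      have hcr := crossing_all (T := T) (x := x) d (!e) (.zb, g) z w1 hz (fun i h1 h2 => by
        rw [hzdef, ps_ps]
        have := hb (d + 1 - i) (by omega) (by omega)
        rwa [show ((d + 1 - i : ℕ) : ℤ) = (d : ℤ) + 1 - i by omega] at this) (by
        rw [hz1, w1p]; simp)
      cases hg2 : T.col x (!e) z d with
      | none => exact absurd (hcr.2 hg2) (hal2.step s2).not_mortal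
      | some g2 =>
        obtain ⟨n3, t3⟩ := hcr.1 g2 hg2
        rw [hz1] at t3
        have s4 : T.step x ⟨.S (!e) (.zb, g) g2, p, w1⟩ =
            some ⟨.X e g, ps e p ((1 : ℕ) : ℤ), w⟩ := by
          rw [step_S_zb w1p, Bool.not_not]
          have : upd w1 p .bl = w := by rw [hw1, upd_upd]; exact upd_eq _ _ _ hp
          rw [this]; simp
        have ez : ps e p (((d + 1 : ℕ) : ℤ)) = z := by rw [hzdef]; push_cast; rfl
        obtain ⟨n5, t5⟩ := zip (T := T) (x := x) (e := e) (k := k) (g := g) (u := p) (w := w) (d + 1)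
          d 1 (by omega) (fun d' _ => crossing_all d') (by rw [ez, ← hzz]; exact hk)
          (fun i h1 h2 => hb' i h1 (by omega)) (by
            intro hd
            constructor
            · exact col_sub (e := e) (u := p) (n := d) (by rw [hcol]; simp) e _ _
                ⟨1, by omega, by simp, by simp; omega⟩
            · rw [ez]
              exact col_sub (e := !e) (u := z) (n := d) (by rw [hg2]; simp) (!e) _ _
                ⟨0, le_rfl, by rw [ps_zero], by simp⟩)
        rw [ez] at t5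
        have hm1 : ∀ q, Btw p z q → Btw p (ps e p (((d + 1 : ℕ) : ℤ) + 1)) q := by
          intro q hq
          rw [hzdef] at hq
          refine btw_sub (a := 0) (b := d + 1) le_rfl (by omega) (by omega) (by push_cast; omega) ?_
          rw [ps_zero]; exact hq
        have hm2 : ∀ q, Btw z p q → Btw p (ps e p (((d + 1 : ℕ) : ℤ) + 1)) q := by
          intro q hq
          exact hm1 q (by simp only [Btw] at hq ⊢; tauto)
        have hm3 : ∀ q, Btw (ps e p ((1 : ℕ) : ℤ)) z q → Btw p (ps e p (((d + 1 : ℕ) : ℤ) + 1)) q := by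
          intro q hq
          rw [hzdef] at hq
          exact btw_sub (a := (1 : ℕ)) (b := d + 1) (by omega) (by omega) (by push_cast; omega)
            (by push_cast; omega) hq
        have hpp : Btw p (ps e p (((d + 1 : ℕ) : ℤ) + 1)) p :=
          hm1 p (by simp only [Btw]; omega)
        have hzz' : Btw p (ps e p (((d + 1 : ℕ) : ℤ) + 1)) z :=
          hm1 z (by simp only [Btw]; omega)
        have t5' : T.Reach x (Btw p (ps e p (((d + 1 : ℕ) : ℤ) + 1))) n5
            ⟨.X e g, ps e p ((1 : ℕ) : ℤ), w⟩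
            ⟨.S e k g, ps e p (((d + 1 : ℕ) : ℤ) + 1), upd w (ps e p ((d + 1 : ℕ) : ℤ)) .bl⟩ := by
          rw [ez]; exact t5.mono hm3
        refine ⟨d + 1, k, _, ?_, ?_, ?_, ((Reach.one s0 hpp).trans (hr.mono hm1)).trans
          ((((Reach.one s2 hzz').trans (t3.mono hm2)).trans (Reach.one s4 hpp)).trans t5'), by omega⟩
        · intro i hi
          rcases Nat.eq_zero_or_pos i with h0 | h0
          · subst h0; simpa [ps_zero] using hp
          · exact hb' i h0 (by omega)
        · rw [ez, ← hzz]; exact hz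
        · intro _; simp only [Nat.add_sub_cancel]; rw [hcol]; simp
  · right
    obtain ⟨c1, hs⟩ := hal.exists_step
    obtain ⟨k, hk, rfl⟩ := step_X' hp hs
    refine ⟨0, k, 1, by simp, by simpa [ps_zero] using hp, by simp, ?_, by omega⟩
    simp only [Nat.cast_zero, ps_zero, zero_add]
    exact Reach.one hs (by simp only [Btw]; omega)

end Sys

end Pool.Agent.H722.Med
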