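import Pool.Agent.H722.Med.Macro

namespace Pool.Agent.H722.Med

variable {A C : Type}

namespace Sys

variable (T : Sys A C) (x : ℤ → A)

/-- head at the outward end of an interval with blank interior, in a search state -/
def TG (c : Cfg C) (lo hi : ℤ) : Prop :=
  lo ≤ hi ∧ (∀ p, lo < p → p < hi → c.w p = .bl) ∧
  ∃ e k r, c.q = .S e k r ∧ c.p = (if e then hi else lo)

def GM (lo hi : ℤ) : Prop := ∀ (n : ℕ) (u : ℤ), lo + 2 ≤ u → u + n ≤ hi - 2 → T.cw x n u ≠ none

def NewHull (c0 : Cfg C) (n : ℕ) (c' : Cfg C) (lo hi : ℤ) : Prop :=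
  0 < n ∧ T.Reach x (fun p => lo ≤ p ∧ p ≤ hi) n c0 c' ∧ TG c' lo hi ∧ T.GM x lo hi ∧
    T.Vis x n c0 lo ∧ T.Vis x n c0 hi

def InfC (c0 : Cfg C) (lo hi : ℤ) : Prop :=
  ∃ n c1 e u, T.Reach x (fun p => -1 ≤ idx e u p) n c0 c1 ∧ T.InfAt x e u c1 ∧
    ∀ q, lo ≤ q → q ≤ hi → -1 ≤ idx e u q

def Out (c0 : Cfg C) (lo hi : ℤ) : Prop :=
  T.InfC x c0 lo hi ∨ ∃ n c' lo' hi', T.NewHull x c0 n c' lo' hi' ∧ lo' ≤ lo ∧ hi ≤ hi' ∧
    hi - lo < hi' - lo'

variable {T x}

theorem cw_of_col {e : Bool} {u : ℤ} {m : ℕ} (h : T.col x e u m ≠ none) {n : ℕ} {v : ℤ}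
    (h1 : Btw u (ps e u m) v) (h2 : Btw u (ps e u m) (v + n)) : T.cw x n v ≠ none := by
  cases e <;> simp only [col, ps_true, ps_false, Btw, Bool.false_eq_true, if_false, if_true]
    at h h1 h2 <;> exact cw_sub h _ _ (by omega) (by omega)

theorem mkOut {c0 c' : Cfg C} {n : ℕ} {e : Bool} {a M : ℤ} {lo hi : ℤ} (hn : 0 < n) (hM : 0 ≤ M)
    (hr : T.Reach x (Btw a (ps (!e) a M)) n c0 c') (hq : ∃ k r, c'.q = .S e k r) (hp : c'.p = a)
    (hb : ∀ i : ℤ, 0 < i → i < M → c'.w (ps (!e) a i) = .bl)
    (hg : ∀ (n' : ℕ) (v : ℤ), Btw (ps (!e) a 2) (ps (!e) a (M - 2)) v →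
      Btw (ps (!e) a 2) (ps (!e) a (M - 2)) (v + n') → 4 ≤ M → T.cw x n' v ≠ none)
    (hv : T.Vis x n c0 (ps (!e) a M)) (hle : lo ≤ hi)
    (hsub : ∀ q, lo ≤ q → q ≤ hi → Btw a (ps (!e) a M) q) (hst : hi - lo < M) :
    T.Out x c0 lo hi := by
  right
  have hva : T.Vis x n c0 a := by rw [← hp]; exact Vis.last hr
  obtain ⟨k, r, hq⟩ := hq
  have h1 := hsub lo le_rfl hle
  have h2 := hsub hi hle le_rfl
  cases e
  · simp only [Bool.not_false, ps_true] at *
    refine ⟨n, c', a, a + M, ⟨hn, ?_, ⟨by omega, ?_, false, k, r, hq, by simpa using hp⟩, ?_, hva, hv⟩,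
      ?_, ?_, by omega⟩
    · exact hr.mono (fun p h => by simp only [Btw] at h; omega)
    · intro p h3 h4
      have := hb (p - a) (by omega) (by omega)
      rwa [show a + (p - a) = p by ring] at this
    · intro n' u h3 h4
      exact hg n' u (by simp only [Btw]; omega) (by simp only [Btw]; omega) (by omega)
    · simp only [Btw] at h1; omega
    · simp only [Btw] at h2; omega
  · simp only [Bool.not_true, ps_false] at *
    refine ⟨n, c', a - M, a, ⟨hn, ?_, ⟨by omega, ?_, true, k, r, hq, by simpa using hp⟩, ?_, hv, hva⟩,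
      ?_, ?_, by omega⟩
    · exact hr.mono (fun p h => by simp only [Btw] at h; omega)
    · intro p h3 h4
      have := hb (a - p) (by omega) (by omega)
      rwa [show a - (a - p) = p by ring] at this
    · intro n' u h3 h4
      exact hg n' u (by simp only [Btw]; omega) (by simp only [Btw]; omega) (by omega)
    · simp only [Btw] at h1; omega
    · simp only [Btw] at h2; omega

/-- Finish from state `Y`: hull so far is contained in indices `-1..M` from `h`. -/
theorem finY {c0 : Cfg C} {n0 : ℕ} {e : Bool} {k : Ph × C} {g : C} {h M : ℤ} {w : ℤ → Wk C}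
    {lo hi : ℤ} (hal : T.Alive x c0) (hle : lo ≤ hi) (hM : 0 ≤ M)
    (hr : T.Reach x (Btw (ps e h 1) (ps (!e) h M)) n0 c0 ⟨.Y e k g, h, w⟩)
    (hb : ∀ i : ℤ, 0 < i → i < M → w (ps (!e) h i) = .bl)
    (hsub : ∀ q, lo ≤ q → q ≤ hi → Btw (ps e h 1) (ps (!e) h M) q) (hst : hi - lo ≤ M) :
    T.Out x c0 lo hi := by
  have hal1 := hal.reach hr
  rcases LY hal1 with ⟨c1, s1, hI⟩ | ⟨d, n, hbl, hz, hcol, hr1, hv, hn⟩
  · left
    have hm : ∀ p, Btw (ps e h 1) (ps (!e) h M) p → -1 ≤ idx (!e) h p := by
      intro p hp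
      cases e <;> simp [Btw, idx] at hp ⊢ <;> omega
    refine ⟨n0 + 1, c1, !e, h, (hr.mono hm).trans (Reach.one s1 ?_), hI, ?_⟩
    · cases e <;> simp [idx]
    · intro q h1 h2
      have := hsub q h1 h2
      cases e <;> simp [Btw, idx] at this ⊢ <;> omega
  · -- the first nonblank has index `d + 1 ≥ M`
    have hdM : M ≤ d + 1 := by
      by_contra hlt
      push Not at hlt
      exact hz (hb (d + 1) (by omega) hlt)
    have hps : ∀ i : ℤ, ps (!e) (ps e h 1) i = ps (!e) h (i - 1) := by
      intro i; cases e <;> simp [ps] <;> ring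
    have em : ps (!e) (ps e h 1) (d + 2) = ps (!e) h (d + 1) := by
      rw [hps]; congr 1; ring
    have hm1 : ∀ p, Btw (ps e h 1) (ps (!e) h M) p → Btw (ps e h 1) (ps (!e) (ps e h 1) (d + 2)) p := by
      intro p hp
      rw [em]
      cases e <;> simp [Btw] at hp ⊢ <;> omega
    have hm2 : ∀ p, Btw h (ps (!e) h (d + 1)) p → Btw (ps e h 1) (ps (!e) (ps e h 1) (d + 2)) p := by
      intro p hp
      rw [em]
      cases e <;> simp [Btw] at hp ⊢ <;> omega
    refine mkOut (e := e) (a := ps e h 1) (M := d + 2) (n := n0 + n) (by omega) (by omega)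
      ((hr.mono hm1).trans (hr1.mono hm2)) ⟨k, g, rfl⟩ rfl ?_ ?_ ?_ hle ?_ (by omega)
    · intro i h1 h2
      rw [hps]
      show upd w h .bl (ps (!e) h (i - 1)) = .bl
      by_cases hi1 : i = 1
      · subst hi1; simp [ps_zero, upd]
      · rw [upd_ne _ _ (by
          have := ps_ne (e := !e) (u := h) (i := i - 1) (j := 0) (by omega)
          rwa [ps_zero] at this)]
        have := hbl (i - 1).toNat (by omega) (by omega)
        rwa [show (((i - 1).toNat : ℕ) : ℤ) = i - 1 by omega] at this
    · intro n' v h1 h2 h4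
      rw [hps, hps] at h1 h2
      refine cw_of_col hcol ?_ ?_
      · cases e <;> simp [Btw] at h1 ⊢ <;> omega
      · cases e <;> simp [Btw] at h2 ⊢ <;> omega
    · rw [em]; exact hv.reach hr
    · intro q h1 h2
      have := hsub q h1 h2
      rw [em]
      clear hb hbl hz hr hr1 hv hm1 hm2 hal hal1
      cases e <;> simp only [Btw, ps_true, ps_false, Bool.not_true, Bool.not_false] at this ⊢ <;>
        omega

/-- Finish from state `N` at `ps e h 1`: hull so far is contained in indices `-1..M` from `h`. -/
theorem finN {c0 : Cfg C} {n0 : ℕ} {e : Bool} {k : Ph × C} {g : C} {h M : ℤ} {w : ℤ → Wk C}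
    {lo hi : ℤ} (hal : T.Alive x c0) (hle : lo ≤ hi) (hM : 0 ≤ M)
    (hr : T.Reach x (Btw (ps e h 1) (ps (!e) h M)) n0 c0 ⟨.N e k g, ps e h 1, w⟩)
    (hb : ∀ i : ℤ, 0 ≤ i → i < M → w (ps (!e) h i) = .bl)
    (hsub : ∀ q, lo ≤ q → q ≤ hi → Btw (ps e h 1) (ps (!e) h M) q) (hst : hi - lo ≤ M) :
    T.Out x c0 lo hi := by
  have hal1 := hal.reach hr
  have hpp : ∀ p, p = ps e h 1 → Btw (ps e h 1) (ps (!e) h M) p := by
    rintro p rfl; simp only [Btw]; omega
  by_cases hw : w (ps e h 1) = .bl
  · have s0 := step_N_bl (T := T) (x := x) (e := e) (k := k) (g := g) hw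
    set a := ps e h 1 with ha
    set w1 := upd w a (.R e k) with hw1
    have w1a : w1 a = .R e k := upd_self _ _ _
    have hps : ∀ i : ℤ, ps (!e) a i = ps (!e) h (i - 1) := by
      intro i; rw [ha]; cases e <;> simp [ps] <;> ring
    have hne : ∀ i : ℤ, i ≠ 0 → ps (!e) a i ≠ a := by
      intro i hi
      have := ps_ne (e := !e) (u := a) (i := i) (j := 0) hi
      rwa [ps_zero] at this
    rcases CB (hal1.step s0) (by rw [w1a]; simp) with hI | ⟨d, g', n, hbl, hz, hcol, hr1⟩
    · left
      refine ⟨n0 + 1, _, !e, a, (hr.mono ?_).trans (Reach.one s0 ?_), hI, ?_⟩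
      · intro p hp
        rw [ha] at *
        cases e <;> simp [Btw, idx] at hp ⊢ <;> omega
      · cases e <;> simp [idx]
      · intro q h1 h2
        have := hsub q h1 h2
        rw [ha] at *
        cases e <;> simp [Btw, idx] at this ⊢ <;> omega
    · have hdM : M + 1 ≤ d + 1 := by
        by_contra hlt
        push Not at hlt
        apply hz
        rw [hw1, upd_ne _ _ (hne _ (by omega)), hps]
        exact hb _ (by omega) (by omega)
      -- head is at the far end, moving in direction `!e`
      have ea : ps e (ps (!e) a (d + 1)) (d + 1) = a := by cases e <;> simp [ps]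
      have hps2 : ∀ i : ℤ, ps e (ps (!e) a (d + 1)) i = ps (!e) a (d + 1 - i) := by
        intro i; cases e <;> simp [ps] <;> ring
      have hps3 : ∀ i : ℤ, ps (!!e) (ps (!e) a (d + 1)) i = ps (!e) a (d + 1 - i) := by
        intro i; rw [Bool.not_not]; exact hps2 i
      refine mkOut (e := !e) (a := ps (!e) a (d + 1)) (M := d + 1) (n := n0 + 1 + n) (by omega)
        (by omega) (((hr.mono ?_).trans (Reach.one s0 ?_)).trans (hr1.mono ?_)) ⟨_, _, rfl⟩ rfl
        ?_ ?_ ?_ hle ?_ (by omega)
      · intro p hp
        rw [Bool.not_not, ea]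
        rw [ha] at *
        cases e <;> simp [Btw] at hp ⊢ <;> omega
      · rw [Bool.not_not, ea]
        cases e <;> simp [Btw] <;> omega
      · intro p hp
        rw [Bool.not_not, ea]
        simp only [Btw] at hp ⊢; tauto
      · intro i h1 h2
        rw [hps3]
        have := hbl ((d : ℤ) + 1 - i).toNat (by omega) (by omega)
        rwa [show ((((d : ℤ) + 1 - i).toNat : ℕ) : ℤ) = d + 1 - i by omega] at this
      · intro n' v h1 h2 h4
        rw [hps3, hps3] at h1 h2
        have hc : T.col x (!e) a d ≠ none := by rw [hcol]; simp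
        refine cw_of_col hc ?_ ?_
        · cases e <;> simp [Btw] at h1 ⊢ <;> omega
        · cases e <;> simp [Btw] at h2 ⊢ <;> omega
      · rw [Bool.not_not, ea]
        have v1 : T.Vis x n0 c0 a := Vis.last hr
        exact v1.mono (by omega)
      · intro q h1 h2
        have := hsub q h1 h2
        rw [Bool.not_not, ea, ha]
        rw [ha] at this
        cases e <;> simp only [Btw, ps_true, ps_false, Bool.not_true, Bool.not_false] at this ⊢ <;>
          omega
  · have s0 := step_N (T := T) (x := x) (e := e) (k := k) (g := g) hw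
    have e1 : ps (!e) (ps e h 1) 1 = h := by cases e <;> simp [ps]
    rw [e1] at s0
    exact finY hal hle hM (hr.trans (Reach.one s0 (hpp _ rfl)))
      (fun i h1 h2 => hb i (by omega) h2) hsub hst

/-- Finish from state `X`: hull so far is contained in indices `-1..M` from `p`, direction `e`;
`b` is the near end (index `-1` or `0`). -/
theorem finX {c0 : Cfg C} {n0 : ℕ} {e : Bool} {g : C} {p M s : ℤ} {w : ℤ → Wk C}
    {lo hi : ℤ} (hal : T.Alive x c0) (hle : lo ≤ hi) (hs : s = 0 ∨ s = 1) (hM : -s ≤ M)
    (hr : T.Reach x (Btw (ps (!e) p s) (ps e p M)) n0 c0 ⟨.X e g, p, w⟩)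
    (hb : ∀ i : ℤ, 0 ≤ i → i < M → w (ps e p i) = .bl)
    (hv : T.Vis x n0 c0 (ps (!e) p s))
    (hsub : ∀ q, lo ≤ q → q ≤ hi → Btw (ps (!e) p s) (ps e p M) q) (hst : hi - lo ≤ M + s) :
    T.Out x c0 lo hi := by
  have hal1 := hal.reach hr
  rcases LX hal1 with ⟨c1, s1, hI⟩ | ⟨d, k, n, hbl, hz, hcol, hr1, hn⟩
  · left
    refine ⟨n0 + 1, c1, e, p, (hr.mono ?_).trans (Reach.one s1 ?_), hI, ?_⟩
    · intro q hq
      cases e <;> simp [Btw, idx] at hq ⊢ <;> omega
    · cases e <;> simp [idx]
    · intro q h1 h2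
      have := hsub q h1 h2
      cases e <;> simp [Btw, idx] at this ⊢ <;> omega
  · have hdM : M ≤ d := by
      by_contra hlt
      push Not at hlt
      exact hz (hb d (by omega) hlt)
    set a := ps e p ((d : ℤ) + 1) with ha
    have hps : ∀ i : ℤ, ps (!e) a i = ps e p (d + 1 - i) := by
      intro i; rw [ha, ps_ps]
    have hend : ps (!e) a (d + 1 + s) = ps (!e) p s := by
      rw [ha]; cases e <;> simp [ps] <;> ring
    refine mkOut (e := e) (a := a) (M := d + 1 + s) (n := n0 + n) (by omega) (by omega)
      ((hr.mono ?_).trans (hr1.mono ?_)) ⟨k, g, rfl⟩ rfl ?_ ?_ ?_ hle ?_ (by omega)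
    · intro q hq
      rw [hend, ha]
      cases e <;> simp [Btw] at hq ⊢ <;> omega
    · intro q hq
      rw [hend, ha] at *
      cases e <;> simp [Btw] at hq ⊢ <;> omega
    · intro i h1 h2
      rw [hps]
      show upd w (ps e p d) .bl (ps e p (d + 1 - i)) = .bl
      by_cases hi1 : i = 1
      · subst hi1; simp [upd]
      · rw [upd_ne _ _ (ps_ne (by omega))]
        have := hbl ((d : ℤ) + 1 - i).toNat (by omega)
        rwa [show ((((d : ℤ) + 1 - i).toNat : ℕ) : ℤ) = d + 1 - i by omega] at this
    · intro n' v h1 h2 h4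
      rw [hps, hps] at h1 h2
      have hd : 0 < d := by omega
      obtain ⟨d', rfl⟩ : ∃ d', d = d' + 1 := ⟨d - 1, by omega⟩
      refine cw_of_col (hcol hd) ?_ ?_
      · cases e <;> simp [Btw] at h1 ⊢ <;> omega
      · cases e <;> simp [Btw] at h2 ⊢ <;> omega
    · rw [hend]; exact hv.mono (by omega)
    · intro q h1 h2
      have := hsub q h1 h2
      rw [hend, ha]
      cases e <;> simp [Btw] at this ⊢ <;> omega

/-- The macro step: from a search state at the end of an interval with blank interior. -/
theorem macro_step {c0 : Cfg C} {lo hi : ℤ} (hal : T.Alive x c0) (hTG : TG c0 lo hi) :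
    T.Out x c0 lo hi := by
  obtain ⟨hle, hbl, e, k, r, hq, hp⟩ := hTG
  obtain ⟨q, a, w⟩ := c0
  simp only at hq hp hbl
  subst hq
  set M := hi - lo with hMdef
  have hM0 : 0 ≤ M := by omega
  have hb : ∀ i : ℤ, 0 < i → i < M → w (ps (!e) a i) = .bl := by
    intro i h1 h2
    apply hbl <;> cases e <;> simp at hp ⊢ <;> omega
  have hsub : ∀ q, lo ≤ q → q ≤ hi → Btw a (ps (!e) a M) q := by
    intro q h1 h2
    cases e <;> simp [Btw] at hp ⊢ <;> omega
  have hne : ∀ i : ℤ, i ≠ 0 → ps (!e) a i ≠ a := by
    intro i hi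
    have := ps_ne (e := !e) (u := a) (i := i) (j := 0) hi
    rwa [ps_zero] at this
  have hhull : ∀ (u : ℤ) (e' : Bool), (∀ q, Btw a (ps (!e) a M) q → -1 ≤ idx e' u q) →
      ∀ q, lo ≤ q → q ≤ hi → -1 ≤ idx e' u q := fun u e' h q h1 h2 => h q (hsub q h1 h2)
  have haa : ∀ z, Btw a z a := by intro z; simp only [Btw]; omega
  have haz : ∀ z, Btw a z z := by intro z; simp only [Btw]; omega
  by_cases hw : w a = .bl
  · -- case 0
    have s0 := step_S_bl (T := T) (x := x) (e := e) (k := k) (r := r) hw
    set w1 := upd w a (.R e k) with hw1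
    have w1a : w1 a = .R e k := upd_self _ _ _
    rcases CB (hal.step s0) (by rw [w1a]; simp) with hI | ⟨d, g1, n1, hbl1, hz1, hcol1, hr1⟩
    · left
      refine ⟨1, _, !e, a, Reach.one s0 ?_, hI, hhull _ _ ?_⟩
      · cases e <;> simp [idx]
      · intro q hq
        cases e <;> simp [Btw, idx] at hq ⊢ <;> omega
    · have hdM : M ≤ d + 1 := by
        by_contra hlt
        push Not at hlt
        apply hz1
        rw [hw1, upd_ne _ _ (hne _ (by omega))]
        exact hb _ (by omega) (by omega)
      have hwbl : ∀ i : ℤ, 0 ≤ i → i < d + 1 → w (ps (!e) a i) = .bl := by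
        intro i h1 h2
        by_cases h0 : i = 0
        · subst h0; rw [ps_zero]; exact hw
        · have := hbl1 i.toNat (by omega) (by omega)
          rw [show ((i.toNat : ℕ) : ℤ) = i by omega, hw1, upd_ne _ _ (hne _ h0)] at this
          exact this
      set o := ps (!e) a ((d : ℤ) + 1) with ho
      have hal1 := (hal.step s0).reach hr1
      obtain ⟨c2, s2⟩ := hal1.exists_step
      have s2' := s2
      rw [step_S_b hz1] at s2'
      cases hF : T.Fe (!!e) r g1 with
      | none => rw [hF] at s2'; exact absurd s2' (by simp)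
      | some g2 =>
        rw [hF] at s2'
        simp only [Option.map_some, Option.some.injEq, Bool.not_not] at s2'
        subst s2'
        have hal2 := hal1.step s2
        have ea : ps e o ((d : ℤ) + 1) = a := by rw [ho]; cases e <;> simp [ps]
        have hcr := crossing_all (T := T) (x := x) d e (.f, g2) o w1 hz1 (fun i h1 h2 => by
          have : ps e o (i : ℤ) = ps (!e) a ((d + 1 - i : ℕ) : ℤ) := by
            rw [ho, show ((d + 1 - i : ℕ) : ℤ) = (d : ℤ) + 1 - i by omega]
            cases e <;> simp [ps] <;> ring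
          rw [this]
          exact hbl1 _ (by omega) (by omega)) (by rw [ea, w1a]; simp)
        cases hg3 : T.col x e o d with
        | none => exact absurd (hcr.2 hg3) hal2.not_mortal
        | some g3 =>
          obtain ⟨n3, t3⟩ := hcr.1 g3 hg3
          rw [ea] at t3
          have s4 : T.step x ⟨.S e (.f, g2) g3, a, w1⟩ = some ⟨.N e k g2, ps e a 1, w⟩ := by
            rw [step_S_f w1a]
            have : upd w1 a .bl = w := by rw [hw1, upd_upd]; exact upd_eq _ _ _ hw
            rw [this]
          have hm : ∀ q, Btw a o q → Btw (ps e a 1) o q := by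
            intro q hq
            rw [ho] at hq ⊢
            cases e <;> simp [Btw] at hq ⊢ <;> omega
          have hm' : ∀ q, Btw o a q → Btw (ps e a 1) o q := by
            intro q hq
            exact hm q (by simp only [Btw] at hq ⊢; tauto)
          refine finN (h := a) (M := d + 1) hal hle (by omega)
            (((Reach.one s0 (hm _ (haa _))).trans (hr1.mono hm)).trans
            (((Reach.one s2 (hm _ (haz _))).trans (t3.mono hm')).trans
              (Reach.one s4 (hm _ (haa _))))) (fun i h1 h2 => hwbl i h1 h2) ?_ (by omega)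
          intro q h1 h2
          have := hsub q h1 h2
          cases e <;> simp [Btw] at this ⊢ <;> omega
  · obtain ⟨ph, γ⟩ := k
    obtain ⟨c1, s1⟩ := hal.exists_step
    have hm1 : ∀ q, Btw a (ps (!e) a M) q → Btw (ps e a 1) (ps (!e) a M) q := by
      intro q hq
      cases e <;> simp [Btw] at hq ⊢ <;> omega
    cases ph with
    | b =>
      have s1' := s1
      rw [step_S_b hw] at s1'
      cases hF : T.Fe (!e) γ r with
      | none => rw [hF] at s1'; exact absurd s1' (by simp)
      | some g2 =>
        rw [hF] at s1'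
        simp only [Option.map_some, Option.some.injEq] at s1'
        subst s1'
        rcases CB (hal.step s1) hw with hI | ⟨d, g1, n1, hbl1, hz1, hcol1, hr1⟩
        · left
          refine ⟨1, _, !e, a, Reach.one s1 ?_, hI, hhull _ _ ?_⟩
          · cases e <;> simp [idx]
          · intro q hq
            cases e <;> simp [Btw, idx] at hq ⊢ <;> omega
        · have hdM : M ≤ d + 1 := by
            by_contra hlt
            push Not at hlt
            exact hz1 (hb _ (by omega) (by omega))
          have hal1 := (hal.step s1).reach hr1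
          set o := ps (!e) a ((d : ℤ) + 1) with ho
          obtain ⟨c3, s3⟩ := hal1.exists_step
          obtain ⟨k', hk', rfl⟩ := step_S_f' hz1 s3
          have ea : ps (!!e) o ((d : ℤ) + 1) = a := by rw [ho]; cases e <;> simp [ps]
          refine finN (e := !e) (h := o) (M := d + 1) hal hle (by omega)
            (((Reach.one s1 ?_).trans (hr1.mono ?_)).trans (Reach.one s3 ?_)) ?_ ?_ (by omega)
          · rw [ea, ho]; cases e <;> simp [Btw] <;> omega
          · intro q hq; rw [ea]; rw [ho] at hq ⊢; cases e <;> simp [Btw] at hq ⊢ <;> omega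
          · rw [ea, ho]; cases e <;> simp [Btw] <;> omega
          · intro i h1 h2
            by_cases hi0 : i = 0
            · subst hi0; rw [ps_zero]; simp [upd]
            · rw [upd_ne _ _ (by
                have := ps_ne (e := !!e) (u := o) (i := i) (j := 0) (by omega)
                rwa [ps_zero] at this)]
              have := hbl1 ((d : ℤ) + 1 - i).toNat (by omega) (by omega)
              rw [show ((((d : ℤ) + 1 - i).toNat : ℕ) : ℤ) = d + 1 - i by omega] at this
              rw [ho, ps_ps]; exact this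
          · intro q h1 h2
            have := hsub q h1 h2
            rw [ea, ho]
            cases e <;> simp [Btw] at this ⊢ <;> omega
    | f =>
      obtain ⟨k', hk', rfl⟩ := step_S_f' hw s1
      refine finN (h := a) (M := M) hal hle hM0 (Reach.one s1 (hm1 _ (haa _))) ?_
        (fun q h1 h2 => hm1 q (hsub q h1 h2)) (by omega)
      intro i h1 h2
      by_cases hi0 : i = 0
      · subst hi0; rw [ps_zero]; simp [upd]
      · rw [upd_ne _ _ (hne _ hi0)]
        exact hb _ (by omega) h2
    | zs =>
      have s1' := s1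
      rw [step_S_zs hw] at s1'
      simp only [Option.some.injEq] at s1'
      subst s1'
      refine finX (e := !e) (p := ps (!e) a 1) (M := M - 1) (s := 1) hal hle (Or.inr rfl) (by omega)
        (Reach.one s1 ?_) ?_ ?_ ?_ (by omega)
      · cases e <;> simp [Btw] <;> omega
      · intro i h1 h2
        rw [ps_add]; exact hb _ (by omega) (by omega)
      · exact Vis.start (by cases e <;> simp)
      · intro q h1 h2
        have := hsub q h1 h2
        cases e <;> simp [Btw] at this ⊢ <;> omega
    | zf =>
      obtain ⟨k', hk', rfl⟩ := step_S_zf' hw s1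
      rcases CB (hal.step s1) hw with hI | ⟨d, g1, n1, hbl1, hz1, hcol1, hr1⟩
      · left
        refine ⟨1, _, !e, a, Reach.one s1 ?_, hI, hhull _ _ ?_⟩
        · cases e <;> simp [idx]
        · intro q hq
          cases e <;> simp [Btw, idx] at hq ⊢ <;> omega
      · have hdM : M ≤ d + 1 := by
          by_contra hlt
          push Not at hlt
          exact hz1 (hb _ (by omega) (by omega))
        have hal1 := (hal.step s1).reach hr1
        set o := ps (!e) a ((d : ℤ) + 1) with ho
        obtain ⟨c3, s3⟩ := hal1.exists_step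
        obtain ⟨hk3, rfl⟩ := step_S_zb' hz1 s3
        have ee : (!!e) = e := by cases e <;> rfl
        rw [ee] at s3
        have e0 : ps (!e) (ps e o 1) 1 = o := by cases e <;> simp [ps]
        have eM : ps e (ps e o 1) d = a := by rw [ho]; cases e <;> simp [ps] <;> ring
        refine finX (e := e) (p := ps e o 1) (M := d) (s := 1) hal hle (Or.inr rfl) (by omega)
          (((Reach.one s1 ?_).trans (hr1.mono ?_)).trans (Reach.one s3 ?_)) ?_ ?_ ?_ (by omega)
        · rw [e0, eM]; simp only [Btw]; omega
        · intro q hq; rw [e0, eM]; simp only [Btw] at hq ⊢; tauto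
        · rw [e0, eM]; simp only [Btw]; omega
        · intro i h1 h2
          rw [ps_add, upd_ne _ _ (by
            have := ps_ne (e := e) (u := o) (i := 1 + i) (j := 0) (by omega)
            rwa [ps_zero] at this)]
          have := hbl1 ((d : ℤ) - i).toNat (by omega) (by omega)
          rw [show ((((d : ℤ) - i).toNat : ℕ) : ℤ) = d - i by omega] at this
          have e5 : ps e o (1 + i) = ps (!e) a (d - i) := by
            rw [ho]; cases e <;> simp [ps] <;> ring
          rw [e5]; exact this
        · rw [e0]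
          have v1 : T.Vis x _ _ o := Vis.last ((Reach.one s1 (haa o)).trans hr1)
          exact v1.mono (by omega)
        · intro q h1 h2
          have := hsub q h1 h2
          rw [e0, eM, ho]
          cases e <;> simp [Btw] at this ⊢ <;> omega
    | zb =>
      obtain ⟨hk3, rfl⟩ := step_S_zb' hw s1
      refine finX (e := !e) (p := ps (!e) a 1) (M := M - 1) (s := 1) hal hle (Or.inr rfl) (by omega)
        (Reach.one s1 ?_) ?_ ?_ ?_ (by omega)
      · cases e <;> simp [Btw] <;> omega
      · intro i h1 h2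
        rw [ps_add, upd_ne _ _ (hne _ (by omega))]
        exact hb _ (by omega) (by omega)
      · exact Vis.start (by cases e <;> simp)
      · intro q h1 h2
        have := hsub q h1 h2
        cases e <;> simp [Btw] at this ⊢ <;> omega

/-- From an arbitrary immortal configuration. -/
theorem macro_init {c0 : Cfg C} (hal : T.Alive x c0) : T.Out x c0 c0.p c0.p := by
  obtain ⟨q, a, w⟩ := c0
  simp only
  cases q with
  | S e k r => exact macro_step hal ⟨le_rfl, fun p h1 h2 => by omega, e, k, r, rfl, by simp⟩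
  | N e k g =>
    have ea : ps e (ps (!e) a 1) 1 = a := by cases e <;> simp [ps]
    have := finN (T := T) (x := x) (c0 := ⟨.N e k g, a, w⟩) (n0 := 0) (e := e) (k := k) (g := g)
      (h := ps (!e) a 1) (M := 0) (w := w) (lo := a) (hi := a) hal le_rfl le_rfl
      (by rw [ea]; exact Reach.refl _) (fun i h1 h2 => by omega)
      (fun q h1 h2 => by have : q = a := by omega
                         subst this; rw [ea]; simp only [Btw]; omega) (by omega)
    exact this
  | Y e k g =>
    exact finY (T := T) (x := x) (n0 := 0) (h := a) (M := 0) hal le_rfl le_rfl (Reach.refl _)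
      (fun i h1 h2 => by omega) (fun q h1 h2 => by
        have : q = a := by omega
        subst this; rw [ps_zero]; simp only [Btw]; omega) (by omega)
  | X e g =>
    exact finX (T := T) (x := x) (n0 := 0) (p := a) (M := 0) (s := 0) hal le_rfl (Or.inl rfl)
      (by omega) (Reach.refl _) (fun i h1 h2 => by omega) (Vis.start (by simp [ps_zero]))
      (fun q h1 h2 => by
        have : q = a := by omega
        subst this; simp [Btw, ps_zero]) (by omega)

end Sys

end Pool.Agent.H722.Med
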