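import Mathlib

/-! The nested-search Turing machine: a marker-free Hooper-style recursion whose nested gap
crossings evaluate a trellis automaton over a static track. -/

namespace Pool.Agent.H722.Med

variable {A C : Type}

/-- `ps e u i`: the cell at distance `i` from `u` in direction `e`. -/
def ps (e : Bool) (u i : ℤ) : ℤ := if e then u + i else u - i

@[simp] theorem ps_true (u i : ℤ) : ps true u i = u + i := rfl
@[simp] theorem ps_false (u i : ℤ) : ps false u i = u - i := rfl

def upd {B : Type} (w : ℤ → B) (p : ℤ) (s : B) : ℤ → B := fun q => if q = p then s else w q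

theorem upd_self {B : Type} (w : ℤ → B) (p : ℤ) (s : B) : upd w p s p = s := by simp [upd]

theorem upd_ne {B : Type} (w : ℤ → B) {p q : ℤ} (s : B) (h : q ≠ p) : upd w p s q = w q := by
  simp [upd, h]

theorem upd_upd {B : Type} (w : ℤ → B) (p : ℤ) (s t : B) : upd (upd w p s) p t = upd w p t := by
  funext q; by_cases h : q = p <;> simp [upd, h]

theorem upd_eq {B : Type} (w : ℤ → B) (p : ℤ) (s : B) (h : w p = s) : upd w p s = w := by
  funext q; by_cases h' : q = p
  · subst h'; simp [upd, h]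
  · simp [upd, h']

inductive Ph
  | b | f | zs | zf | zb
deriving DecidableEq

instance : Fintype Ph := ⟨{.b, .f, .zs, .zf, .zb}, by intro a; cases a <;> simp⟩

inductive Wk (C : Type)
  | bl
  | R (e : Bool) (k : Ph × C)
  | R' (e : Bool) (k : Ph × C)
  | m

inductive Stt (C : Type)
  | S (e : Bool) (k : Ph × C) (r : C)
  | N (e : Bool) (k : Ph × C) (g : C)
  | Y (e : Bool) (k : Ph × C) (g : C)
  | X (e : Bool) (g : C)

/-- A trellis automaton: initial map and partial combination rule. -/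
structure Sys (A C : Type) where
  ι : A → C
  F : C → C → Option C

namespace Sys

variable (T : Sys A C)

def Fe (e : Bool) (g r : C) : Option C := if e then T.F g r else T.F r g

open Stt Wk Ph in
def δ : Stt C → A → Wk C → Option (Stt C × Wk C × Bool)
  | .S e k r, a, .bl => some (.S (!e) (.b, r) (T.ι a), .R e k, !e)
  | .S e (.b, g) r, a, s => (T.Fe (!e) g r).map fun g' => (.S (!e) (.f, g') (T.ι a), s, !e)
  | .S e (.f, g) _, _, .R e' k => if e = e' then some (.N e k g, .bl, e) else none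
  | .S e (.zs, g) _, _, s => some (.X (!e) g, s, !e)
  | .S e (.zf, g) _, a, .R' e' k =>
      if e = e' then some (.S (!e) (.zb, g) (T.ι a), .R' e' k, !e) else none
  | .S e (.zb, g) _, _, .m => some (.X (!e) g, .bl, !e)
  | .N e k g, a, .bl => some (.S (!e) (.b, g) (T.ι a), .R e k, !e)
  | .N e k g, _, s => some (.Y e k g, s, !e)
  | .Y e k g, a, _ => some (.S (!e) (.zs, g) (T.ι a), .R' e k, !e)
  | .X e g, a, .bl => some (.S e (.zf, g) (T.ι a), .m, e)
  | .X e g, _, .R' e' k => if e = e' then some (.S e k g, .bl, e) else none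
  | _, _, _ => none

end Sys

structure Cfg (C : Type) where
  q : Stt C
  p : ℤ
  w : ℤ → Wk C

namespace Sys

variable (T : Sys A C) (x : ℤ → A)

def step (c : Cfg C) : Option (Cfg C) :=
  (T.δ c.q (x c.p) (c.w c.p)).map fun o => ⟨o.1, ps o.2.2 c.p 1, upd c.w c.p o.2.1⟩

def run : ℕ → Cfg C → Option (Cfg C)
  | 0, c => some c
  | n + 1, c => (T.step x c).bind (run n)

def Alive (c : Cfg C) : Prop := ∀ n, T.run x n c ≠ none
def Mortal (c : Cfg C) : Prop := ∃ n, T.run x n c = none

inductive Reach (P : ℤ → Prop) : ℕ → Cfg C → Cfg C → Prop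
  | refl (c : Cfg C) : Reach P 0 c c
  | head {n : ℕ} {c c1 c2 : Cfg C} : T.step x c = some c1 → P c.p → Reach P n c1 c2 →
      Reach P (n + 1) c c2

variable {T x}

theorem Reach.trans {P : ℤ → Prop} {n m : ℕ} {a b c : Cfg C} (h : T.Reach x P n a b)
    (h' : T.Reach x P m b c) : T.Reach x P (n + m) a c := by
  induction h with
  | refl => simpa using h'
  | @head n c c1 c2 h1 h2 _ ih =>
    have := Reach.head h1 h2 (ih h')
    have e : n + m + 1 = n + 1 + m := by omega
    rw [e] at this; exact this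

theorem Reach.mono {P Q : ℤ → Prop} (hPQ : ∀ p, P p → Q p) {n : ℕ} {a b : Cfg C}
    (h : T.Reach x P n a b) : T.Reach x Q n a b := by
  induction h with
  | refl => exact .refl _
  | head h1 h2 _ ih => exact .head h1 (hPQ _ h2) ih

theorem Reach.one {P : ℤ → Prop} {a b : Cfg C} (h : T.step x a = some b) (hp : P a.p) :
    T.Reach x P 1 a b := .head h hp (.refl _)

theorem run_add (n m : ℕ) (c : Cfg C) : T.run x (n + m) c = (T.run x n c).bind (T.run x m) := by
  induction n generalizing c with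
  | zero => simp [run]
  | succ n ih =>
    have e : n + 1 + m = (n + m) + 1 := by omega
    rw [e]
    simp only [run]
    cases T.step x c with
    | none => rfl
    | some d => simp [ih]

theorem Reach.run {P : ℤ → Prop} {n : ℕ} {a b : Cfg C} (h : T.Reach x P n a b) :
    T.run x n a = some b := by
  induction h with
  | refl => rfl
  | head h1 _ _ ih => simp [Sys.run, h1, ih]

theorem Reach.pos {P : ℤ → Prop} {n : ℕ} {a b : Cfg C} (h : T.Reach x P n a b) :
    ∀ k < n, ∀ c, T.run x k a = some c → P c.p := by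
  induction h with
  | refl => intro k hk; omega
  | @head n c c1 c2 h1 h2 _ ih =>
    intro k hk d hd
    cases k with
    | zero => simp [Sys.run] at hd; subst hd; exact h2
    | succ k =>
      simp [Sys.run, h1] at hd
      exact ih k (by omega) d hd

theorem Alive.step {c c' : Cfg C} (h : T.Alive x c) (hs : T.step x c = some c') : T.Alive x c' := by
  intro n hn
  exact h (n + 1) (by simp [Sys.run, hs, hn])

theorem Alive.reach {P : ℤ → Prop} {n : ℕ} {a b : Cfg C} (h : T.Alive x a)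
    (hr : T.Reach x P n a b) : T.Alive x b := by
  intro m hm
  exact h (n + m) (by rw [run_add, hr.run]; simpa using hm)

theorem Mortal.reach {P : ℤ → Prop} {n : ℕ} {a b : Cfg C} (h : T.Mortal x b)
    (hr : T.Reach x P n a b) : T.Mortal x a := by
  obtain ⟨m, hm⟩ := h
  exact ⟨n + m, by rw [run_add, hr.run]; simpa using hm⟩

theorem Alive.not_mortal {c : Cfg C} (h : T.Alive x c) : ¬ T.Mortal x c := fun ⟨n, hn⟩ => h n hn

theorem mortal_of_step {c : Cfg C} (h : T.step x c = none) : T.Mortal x c :=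
  ⟨1, by simp [Sys.run, h]⟩

theorem Alive.exists_step {c : Cfg C} (h : T.Alive x c) : ∃ c', T.step x c = some c' := by
  cases hs : T.step x c with
  | none => exact absurd (mortal_of_step hs) h.not_mortal
  | some c' => exact ⟨c', rfl⟩

/-! ### step equations -/

theorem step_S_bl {e : Bool} {k : Ph × C} {r : C} {p : ℤ} {w : ℤ → Wk C} (h : w p = .bl) :
    T.step x ⟨.S e k r, p, w⟩ = some ⟨.S (!e) (.b, r) (T.ι (x p)), ps (!e) p 1, upd w p (.R e k)⟩ := by
  simp [Sys.step, h, δ]

theorem step_S_b {e : Bool} {g r : C} {p : ℤ} {w : ℤ → Wk C} (h : w p ≠ .bl) :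
    T.step x ⟨.S e (.b, g) r, p, w⟩ = (T.Fe (!e) g r).map fun g' =>
      ⟨.S (!e) (.f, g') (T.ι (x p)), ps (!e) p 1, w⟩ := by
  have : T.δ (.S e (.b, g) r) (x p) (w p) =
      (T.Fe (!e) g r).map fun g' => (.S (!e) (.f, g') (T.ι (x p)), w p, !e) := by
    revert h; generalize w p = s; intro h
    cases s <;> simp_all [δ]
  simp only [Sys.step, this, Option.map_map]
  congr 1
  funext g'
  simp [upd_eq w p (w p) rfl]

theorem step_S_f {e : Bool} {k : Ph × C} {g r : C} {p : ℤ} {w : ℤ → Wk C} (h : w p = .R e k) :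
    T.step x ⟨.S e (.f, g) r, p, w⟩ = some ⟨.N e k g, ps e p 1, upd w p .bl⟩ := by
  simp [Sys.step, h, δ]

theorem step_S_f' {e : Bool} {g r : C} {p : ℤ} {w : ℤ → Wk C} {c : Cfg C} (h : w p ≠ .bl)
    (hs : T.step x ⟨.S e (.f, g) r, p, w⟩ = some c) :
    ∃ k, w p = .R e k ∧ c = ⟨.N e k g, ps e p 1, upd w p .bl⟩ := by
  have hs' := hs
  simp only [Sys.step] at hs'
  revert hs' h; generalize hwp : w p = s; intro h hs'
  cases s with
  | bl => exact absurd rfl h
  | R e' k =>
    by_cases he : e = e'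
    · subst he
      refine ⟨k, rfl, ?_⟩
      rw [step_S_f hwp] at hs
      simpa using hs.symm
    · simp [δ, he] at hs'
  | R' e' k => simp [δ] at hs'
  | m => simp [δ] at hs'

theorem step_S_zs {e : Bool} {g r : C} {p : ℤ} {w : ℤ → Wk C} (h : w p ≠ .bl) :
    T.step x ⟨.S e (.zs, g) r, p, w⟩ = some ⟨.X (!e) g, ps (!e) p 1, w⟩ := by
  have : T.δ (.S e (.zs, g) r) (x p) (w p) = some (.X (!e) g, w p, !e) := by
    revert h; generalize w p = s; intro h
    cases s <;> simp_all [δ]
  simp [Sys.step, this, upd_eq w p (w p) rfl]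

theorem step_S_zf {e : Bool} {k : Ph × C} {g r : C} {p : ℤ} {w : ℤ → Wk C} (h : w p = .R' e k) :
    T.step x ⟨.S e (.zf, g) r, p, w⟩ = some ⟨.S (!e) (.zb, g) (T.ι (x p)), ps (!e) p 1, w⟩ := by
  simp [Sys.step, h, δ, upd_eq w p _ h]

theorem step_S_zf' {e : Bool} {g r : C} {p : ℤ} {w : ℤ → Wk C} {c : Cfg C} (h : w p ≠ .bl)
    (hs : T.step x ⟨.S e (.zf, g) r, p, w⟩ = some c) :
    ∃ k, w p = .R' e k ∧ c = ⟨.S (!e) (.zb, g) (T.ι (x p)), ps (!e) p 1, w⟩ := by
  have hs' := hs
  simp only [Sys.step] at hs'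
  revert hs' h; generalize hwp : w p = s; intro h hs'
  cases s with
  | bl => exact absurd rfl h
  | R' e' k =>
    by_cases he : e = e'
    · subst he
      refine ⟨k, rfl, ?_⟩
      rw [step_S_zf hwp] at hs
      simpa using hs.symm
    · simp [δ, he] at hs'
  | R e' k => simp [δ] at hs'
  | m => simp [δ] at hs'

theorem step_S_zb {e : Bool} {g r : C} {p : ℤ} {w : ℤ → Wk C} (h : w p = .m) :
    T.step x ⟨.S e (.zb, g) r, p, w⟩ = some ⟨.X (!e) g, ps (!e) p 1, upd w p .bl⟩ := by
  simp [Sys.step, h, δ]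

theorem step_S_zb' {e : Bool} {g r : C} {p : ℤ} {w : ℤ → Wk C} {c : Cfg C} (h : w p ≠ .bl)
    (hs : T.step x ⟨.S e (.zb, g) r, p, w⟩ = some c) :
    w p = .m ∧ c = ⟨.X (!e) g, ps (!e) p 1, upd w p .bl⟩ := by
  have hs' := hs
  simp only [Sys.step] at hs'
  revert hs' h; generalize hwp : w p = s; intro h hs'
  cases s with
  | bl => exact absurd rfl h
  | R' e' k => simp [δ] at hs'
  | R e' k => simp [δ] at hs'
  | m =>
    refine ⟨rfl, ?_⟩
    rw [step_S_zb hwp] at hs
    simpa using hs.symm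

theorem step_N_bl {e : Bool} {k : Ph × C} {g : C} {p : ℤ} {w : ℤ → Wk C} (h : w p = .bl) :
    T.step x ⟨.N e k g, p, w⟩ = some ⟨.S (!e) (.b, g) (T.ι (x p)), ps (!e) p 1, upd w p (.R e k)⟩ := by
  simp [Sys.step, h, δ]

theorem step_N {e : Bool} {k : Ph × C} {g : C} {p : ℤ} {w : ℤ → Wk C} (h : w p ≠ .bl) :
    T.step x ⟨.N e k g, p, w⟩ = some ⟨.Y e k g, ps (!e) p 1, w⟩ := by
  have : T.δ (.N e k g) (x p) (w p) = some (.Y e k g, w p, !e) := by
    revert h; generalize w p = s; intro h
    cases s <;> simp_all [δ]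
  simp [Sys.step, this, upd_eq w p (w p) rfl]

theorem step_Y {e : Bool} {k : Ph × C} {g : C} {p : ℤ} {w : ℤ → Wk C} :
    T.step x ⟨.Y e k g, p, w⟩ = some ⟨.S (!e) (.zs, g) (T.ι (x p)), ps (!e) p 1, upd w p (.R' e k)⟩ := by
  simp [Sys.step, δ]

theorem step_X_bl {e : Bool} {g : C} {p : ℤ} {w : ℤ → Wk C} (h : w p = .bl) :
    T.step x ⟨.X e g, p, w⟩ = some ⟨.S e (.zf, g) (T.ι (x p)), ps e p 1, upd w p .m⟩ := by
  simp [Sys.step, h, δ]

theorem step_X {e : Bool} {k : Ph × C} {g : C} {p : ℤ} {w : ℤ → Wk C} (h : w p = .R' e k) :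
    T.step x ⟨.X e g, p, w⟩ = some ⟨.S e k g, ps e p 1, upd w p .bl⟩ := by
  simp [Sys.step, h, δ]

theorem step_X' {e : Bool} {g : C} {p : ℤ} {w : ℤ → Wk C} {c : Cfg C} (h : w p ≠ .bl)
    (hs : T.step x ⟨.X e g, p, w⟩ = some c) :
    ∃ k, w p = .R' e k ∧ c = ⟨.S e k g, ps e p 1, upd w p .bl⟩ := by
  have hs' := hs
  simp only [Sys.step] at hs'
  revert hs' h; generalize hwp : w p = s; intro h hs'
  cases s with
  | bl => exact absurd rfl h
  | R' e' k =>
    by_cases he : e = e'
    · subst he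
      refine ⟨k, rfl, ?_⟩
      rw [step_X hwp] at hs
      simpa using hs.symm
    · simp [δ, he] at hs'
  | R e' k => simp [δ] at hs'
  | m => simp [δ] at hs'

end Sys

end Pool.Agent.H722.Med
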