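import Pool.Agent.H722.Med.Cls
import Pool.Agent.H722.Med.Immortal

/-! The Turing machine of a trellis system, as a machine with states and symbols in `Fin`. -/

namespace Pool.Agent.H722.Med

open MedDefs

instance : Finite Sy := Finite.of_injective (fun s : Sy => (s.a, s.s, s.z)) (by
  rintro ⟨a, b, c⟩ ⟨a', b', c'⟩ h; simp_all)

instance : Finite Sts := Finite.of_injective (fun p : Sts => match p with
  | .surv => (0 : Fin 3) | .fresh => 1 | .plain => 2) (by
    intro a b h; cases a <;> cases b <;> simp_all)

instance : Finite Sig := Finite.of_injective (fun p : Sig => match p with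
  | .A r => (0, r, false) | .B s z => ((1 : Fin 3), s, z) | .D r => (2, r, false)) (by
    intro a b h; cases a <;> cases b <;> simp_all)

instance (M : HTM) [Finite M.Q] [Finite M.W] : Finite (Cell M) :=
  Finite.of_injective (fun c : Cell M => (c.st, c.status, c.reg, c.sig, c.wk, c.hd)) (by
    rintro ⟨a, b, c, d, e, f⟩ ⟨a', b', c', d', e', f'⟩ h; simp_all)

instance (C : Type) [Finite C] : Finite (Wk C) :=
  Finite.of_injective (β := Bool ⊕ (Bool × Bool × Ph × C)) (fun c => match c with
    | .bl => .inl false
    | .R e k => .inr (false, e, k.1, k.2)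
    | .R' e k => .inr (true, e, k.1, k.2)
    | .m => .inl true) (by
    intro a b h; cases a <;> cases b <;> simp_all [Prod.ext_iff])

instance (C : Type) [Finite C] : Finite (Stt C) :=
  Finite.of_injective (β := (Fin 4 × Bool × Ph × C × C)) (fun c => match c with
    | .S e k r => (0, e, k.1, k.2, r)
    | .N e k g => (1, e, k.1, k.2, g)
    | .Y e k g => (2, e, k.1, k.2, g)
    | .X e g => (3, e, .b, g, g)) (by
    intro a b h; cases a <;> cases b <;> simp_all [Prod.ext_iff])

section
variable {A C : Type} [Finite A] [Finite C] (T : Sys A C)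

noncomputable def eQ (C : Type) [Finite C] : Stt C ≃ Fin (Nat.card (Stt C)) := Finite.equivFin _
noncomputable def eS (A C : Type) [Finite A] [Finite C] : (A × Wk C) ≃ Fin (Nat.card (A × Wk C)) :=
  Finite.equivFin _

noncomputable def mkTM : TM where
  nQ := Nat.card (Stt C)
  nS := Nat.card (A × Wk C)
  δ q s := (T.δ ((eQ C).symm q) ((eS A C).symm s).1 ((eS A C).symm s).2).map fun o =>
    (eQ C o.1, eS A C (((eS A C).symm s).1, o.2.1), if o.2.2 then .right else .left)

noncomputable def toConf (x : ℤ → A) (c : Cfg C) : (mkTM T).Conf :=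
  (eQ C c.q, fun i => eS A C (x (c.p + i), c.w (c.p + i)))

theorem step_toConf (x : ℤ → A) (c : Cfg C) :
    (mkTM T).step (toConf T x c) = (T.step x c).map (toConf T x) := by
  unfold TM.step Sys.step toConf
  simp only [mkTM, Equiv.symm_apply_apply, add_zero, Option.map_map]
  congr 1
  funext o
  obtain ⟨q', s', d⟩ := o
  simp only [Function.comp]
  refine Prod.ext rfl (funext fun i => ?_)
  cases d
  · simp only [Bool.false_eq_true, if_false, Move.toInt, ps_false]
    by_cases h : i + -1 = 0
    · obtain rfl : i = 1 := by omega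
      simp [upd]
    · rw [Function.update_of_ne h]
      have e1 : c.p + (i + -1) = c.p - 1 + i := by ring
      have e2 : c.p - 1 + i ≠ c.p := by omega
      rw [e1]
      simp [upd, e2]
  · simp only [if_true, Move.toInt, ps_true]
    by_cases h : i + 1 = 0
    · obtain rfl : i = -1 := by omega
      simp [upd]
    · rw [Function.update_of_ne h]
      have e1 : c.p + (i + 1) = c.p + 1 + i := by ring
      have e2 : c.p + 1 + i ≠ c.p := by omega
      rw [e1]
      simp [upd, e2]

theorem run_toConf (x : ℤ → A) (n : ℕ) : ∀ c : Cfg C,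
    (mkTM T).run n (toConf T x c) = (T.run x n c).map (toConf T x) := by
  induction n with
  | zero => intro c; rfl
  | succ n ih =>
    intro c
    rw [TM.run, Sys.run, step_toConf]
    cases T.step x c with
    | none => rfl
    | some d => simp [ih]

theorem immortal_iff (x : ℤ → A) (c : Cfg C) : toConf T x c ∈ (mkTM T).Immortal ↔ T.Alive x c := by
  unfold TM.Immortal Sys.Alive
  simp only [Set.mem_ofPred_eq, run_toConf]
  constructor
  · intro h n hn
    exact h n (by rw [hn]; rfl)
  · intro h n hn
    apply h n
    cases h' : T.run x n c with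
    | none => rfl
    | some d => rw [h'] at hn; simp at hn

theorem exists_toConf (k : (mkTM T).Conf) : ∃ (x : ℤ → A) (c : Cfg C), c.p = 0 ∧ toConf T x c = k := by
  refine ⟨fun i => ((eS A C).symm (k.2 i)).1, ⟨(eQ C).symm k.1, 0, fun i => ((eS A C).symm (k.2 i)).2⟩,
    rfl, ?_⟩
  refine Prod.ext ?_ (funext fun i => ?_)
  · exact Equiv.apply_symm_apply _ _
  · simp only [toConf, zero_add]
    exact Equiv.apply_symm_apply _ _

end

end Pool.Agent.H722.Med
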